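import Mathlib

/-! Definitions: shallow minors, expansion, generalised colouring numbers, graph classes. -/

namespace Pool.Agent.H67.PC

/-- Every vertex of `S` is reached from `c` by a walk of length at most `r` inside `S`. -/
def RadiusFrom {V : Type*} (G : SimpleGraph V) (c : V) (S : Set V) (r : ℕ) : Prop :=
  ∀ x ∈ S, ∃ w : G.Walk c x, w.length ≤ r ∧ ∀ a ∈ w.support, a ∈ S

/-- `S` is the vertex set of a connected subgraph of radius at most `r`: some vertex `c` of `S`
reaches every vertex of `S` by a walk of length at most `r` inside `S`. -/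
def HasRadius {V : Type*} (G : SimpleGraph V) (S : Set V) (r : ℕ) : Prop :=
  ∃ c ∈ S, RadiusFrom G c S r

/-- `H` is a depth-`r` minor of `G`: there are pairwise disjoint vertex sets `S u` of connected
subgraphs of radius at most `r`, and each edge `u v` of `H` is realised by an edge of `G`
between `S u` and `S v`. -/
def IsDepthMinor {V W : Type*} (r : ℕ) (H : SimpleGraph W) (G : SimpleGraph V) : Prop :=
  ∃ S : W → Set V, (∀ u, HasRadius G (S u) r) ∧ (∀ u v, u ≠ v → Disjoint (S u) (S v)) ∧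
    ∀ u v, H.Adj u v → ∃ x ∈ S u, ∃ y ∈ S v, G.Adj x y

/-- The vertices strongly `r`-reachable from `u` in the order `L`. -/
def SReach {V : Type*} (G : SimpleGraph V) (L : LinearOrder V) (r : ℕ) (u : V) : Set V :=
  {v | L.le v u ∧ ∃ w : G.Walk u v, w.IsPath ∧ w.length ≤ r ∧
    ∀ x ∈ w.support, x ≠ u → x ≠ v → L.lt u x}

/-- The vertices weakly `r`-reachable from `u` in the order `L`. -/
def WReach {V : Type*} (G : SimpleGraph V) (L : LinearOrder V) (r : ℕ) (u : V) : Set V :=
  {v | ∃ w : G.Walk u v, w.IsPath ∧ w.length ≤ r ∧ ∀ x ∈ w.support, L.le v x}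

/-- The strong `r`-colouring number. -/
noncomputable def col {V : Type*} (G : SimpleGraph V) (r : ℕ) : ℕ :=
  sInf {k | ∃ L : LinearOrder V, ∀ u, (SReach G L r u).ncard ≤ k}

/-- The weak `r`-colouring number. -/
noncomputable def wcol {V : Type*} (G : SimpleGraph V) (r : ℕ) : ℕ :=
  sInf {k | ∃ L : LinearOrder V, ∀ u, (WReach G L r u).ncard ≤ k}

/-- A class of finite graphs, given by its members on the vertex sets `Fin n`. -/
abbrev GraphClass := ∀ n : ℕ, Set (SimpleGraph (Fin n))

/-- Closed under taking subgraphs (up to isomorphism). -/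
def Monotone (C : GraphClass) : Prop :=
  ∀ (n : ℕ) (G : SimpleGraph (Fin n)), G ∈ C n → ∀ (m : ℕ) (H : SimpleGraph (Fin m)),
    (∃ f : Fin m → Fin n, Function.Injective f ∧ ∀ a b, H.Adj a b → G.Adj (f a) (f b)) → H ∈ C m

/-- Condition 1: polynomial expansion. -/
def PolyExpansion (C : GraphClass) : Prop :=
  ∃ p : Polynomial ℝ, ∀ (r n : ℕ) (G : SimpleGraph (Fin n)), G ∈ C n →
    ∀ (m : ℕ) (H : SimpleGraph (Fin m)), IsDepthMinor r H G →
      (H.edgeSet.ncard : ℝ) ≤ p.eval (r : ℝ) * m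

/-- Condition 2: polynomially bounded strong colouring numbers. -/
def PolyCol (C : GraphClass) : Prop :=
  ∃ c K : ℝ, ∀ r : ℕ, 1 ≤ r → ∀ (n : ℕ) (G : SimpleGraph (Fin n)), G ∈ C n →
    (col G r : ℝ) ≤ K * (r : ℝ) ^ c

/-- Condition 3: polynomially bounded weak colouring numbers. -/
def PolyWcol (C : GraphClass) : Prop :=
  ∃ c K : ℝ, ∀ r : ℕ, 1 ≤ r → ∀ (n : ℕ) (G : SimpleGraph (Fin n)), G ∈ C n →
    (wcol G r : ℝ) ≤ K * (r : ℝ) ^ c

end Pool.Agent.H67.PC
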