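import Mathlib
import Pool.Agent.H67.PC.Defs

/-! Connectivity inside finite vertex sets. -/

namespace Pool.Agent.H67.PC

open Relation

variable {V : Type*}

/-- One step of a walk of `G` that ends inside `S`. -/
def StepIn (G : SimpleGraph V) (S : Set V) (a b : V) : Prop := G.Adj a b ∧ b ∈ S

/-- `x` can be reached from `y` by a walk all of whose vertices after the first lie in `S`. -/
def Reach (G : SimpleGraph V) (S : Set V) (y x : V) : Prop := ReflTransGen (StepIn G S) y x

/-- `S` contains `y` and each vertex of `S` is reachable from `y` inside `S`. -/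
def ConnFrom (G : SimpleGraph V) (y : V) (S : Set V) : Prop := y ∈ S ∧ ∀ x ∈ S, Reach G S y x

/-- The component of `y` inside `A` (if `y ∈ A`). -/
def compIn (G : SimpleGraph V) (A : Set V) (y : V) : Set V := {x | Reach G A y x}

variable {G : SimpleGraph V}

lemma Reach.mono {S T : Set V} (h : S ⊆ T) {y x : V} (hr : Reach G S y x) : Reach G T y x :=
  ReflTransGen.mono (fun _ _ hab => ⟨hab.1, h hab.2⟩) _ _ hr

lemma Reach.mem {S : Set V} {y x : V} (hr : Reach G S y x) (hy : y ∈ S) : x ∈ S := by
  induction hr with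
  | refl => exact hy
  | tail _ h _ => exact h.2

lemma Reach.symm {S : Set V} {y x : V} (hr : Reach G S y x) (hy : y ∈ S) : Reach G S x y := by
  induction hr with
  | refl => exact ReflTransGen.refl
  | tail h1 h2 ih =>
    rename_i b c
    exact ReflTransGen.head ⟨h2.1.symm, Reach.mem h1 hy⟩ ih

lemma Reach.trans {S : Set V} {y x z : V} (h1 : Reach G S y x) (h2 : Reach G S x z) :
    Reach G S y z := ReflTransGen.trans h1 h2

lemma compIn_subset {A : Set V} {y : V} (hy : y ∈ A) : compIn G A y ⊆ A :=
  fun _ hx => Reach.mem hx hy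

lemma mem_compIn_self {A : Set V} {y : V} : y ∈ compIn G A y := ReflTransGen.refl

lemma connFrom_compIn {A : Set V} {y : V} : ConnFrom G y (compIn G A y) := by
  refine ⟨ReflTransGen.refl, ?_⟩
  intro x hx
  have hx' : ReflTransGen (StepIn G A) y x := hx
  induction hx' with
  | refl => exact ReflTransGen.refl
  | tail h1 h2 ih =>
    rename_i b c
    exact ReflTransGen.tail (ih h1) ⟨h2.1, hx⟩

/-- Either `x` is reached avoiding `B`, or the walk crosses into `B`. -/
lemma reach_or_cross {A B : Set V} {y x : V} (h : Reach G A y x) :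
    Reach G (A \ B) y x ∨ ∃ p q, Reach G (A \ B) y p ∧ G.Adj p q ∧ q ∈ B ∧ q ∈ A := by
  induction h with
  | refl => exact Or.inl ReflTransGen.refl
  | tail h1 h2 ih =>
    rename_i b c
    rcases ih with ih | ih
    · by_cases hc : c ∈ B
      · exact Or.inr ⟨b, c, ih, h2.1, hc, h2.2⟩
      · exact Or.inl (ReflTransGen.tail ih ⟨h2.1, h2.2, hc⟩)
    · exact Or.inr ih

lemma cross {A B : Set V} {y x : V} (hy : y ∉ B) (hx : x ∈ B) (h : Reach G A y x) :
    ∃ p q, Reach G (A \ B) y p ∧ G.Adj p q ∧ q ∈ B ∧ q ∈ A := by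
  rcases reach_or_cross (B := B) h with h | h
  · rcases ReflTransGen.cases_tail h with h | ⟨c, _, h⟩
    · exact absurd (h ▸ hx) hy
    · exact absurd hx h.2.2
  · exact h

lemma ConnFrom.union {y x : V} {S T : Set V} (hS : ConnFrom G y S) (hT : ConnFrom G x T)
    (hy : y ∈ T) : ConnFrom G x (S ∪ T) := by
  refine ⟨Or.inr hT.1, ?_⟩
  intro z hz
  have h1 : Reach G (S ∪ T) x y := (hT.2 y hy).mono Set.subset_union_right
  rcases hz with hz | hz
  · exact h1.trans ((hS.2 z hz).mono Set.subset_union_left)
  · exact (hT.2 z hz).mono Set.subset_union_right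

lemma ConnFrom.insert {y u x : V} {S : Set V} (hS : ConnFrom G y S) (hx : x ∈ S)
    (ha : G.Adj x u) : ConnFrom G y (insert u S) := by
  refine ⟨Or.inr hS.1, ?_⟩
  intro z hz
  rcases hz with hz | hz
  · subst hz
    exact ReflTransGen.tail ((hS.2 x hx).mono (Set.subset_insert _ _)) ⟨ha, Set.mem_insert _ _⟩
  · exact (hS.2 z hz).mono (Set.subset_insert _ _)

lemma ConnFrom.recenter {y x : V} {S : Set V} (hS : ConnFrom G y S) (hx : x ∈ S) :
    ConnFrom G x S := by
  refine ⟨hx, ?_⟩
  intro z hz
  exact ((hS.2 x hx).symm hS.1).trans (hS.2 z hz)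

lemma Reach.exists_walk {S : Set V} {y x : V} (h : Reach G S y x) (hy : y ∈ S) :
    ∃ w : G.Walk y x, ∀ a ∈ w.support, a ∈ S := by
  induction h with
  | refl => exact ⟨SimpleGraph.Walk.nil, by simp [hy]⟩
  | tail h1 h2 ih =>
    rename_i b c
    obtain ⟨w, hw⟩ := ih
    refine ⟨w.concat h2.1, ?_⟩
    intro a ha
    simp only [SimpleGraph.Walk.support_concat, List.mem_append, List.mem_singleton] at ha
    rcases ha with ha | ha
    · exact hw a ha
    · exact ha ▸ h2.2

lemma reach_of_walk {S : Set V} {y x : V} (w : G.Walk y x) (hw : ∀ a ∈ w.support, a ∈ S) :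
    Reach G S y x := by
  induction w with
  | nil => exact ReflTransGen.refl
  | cons h p ih =>
    refine ReflTransGen.head ⟨h, hw _ ?_⟩ (ih ?_)
    · simp
    · intro a ha
      exact hw a (by simp [ha])

/-- A connected set with at most `r` vertices has radius at most `r` from any base point. -/
lemma ConnFrom.radiusFrom {y : V} {S : Finset V} {r : ℕ} (hS : ConnFrom G y (S : Set V))
    (hr : S.card ≤ r + 1) : RadiusFrom G y (S : Set V) r := by
  classical
  intro x hx
  obtain ⟨w, hw⟩ := (hS.2 x hx).exists_walk hS.1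
  refine ⟨w.bypass, ?_, fun a ha => hw a (w.support_bypass_subset_support ha)⟩
  have hp := w.bypass_isPath
  have h1 : w.bypass.support.toFinset ⊆ S := by
    intro a ha
    have := hw a (w.support_bypass_subset_support (List.mem_toFinset.mp ha))
    exact_mod_cast this
  have h2 : w.bypass.support.toFinset.card = w.bypass.length + 1 := by
    rw [List.toFinset_card_of_nodup hp.support_nodup, SimpleGraph.Walk.length_support]
  have h3 := Finset.card_le_card h1
  omega

lemma RadiusFrom.union {c : V} {S T : Set V} {r : ℕ} (hS : RadiusFrom G c S r)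
    (hT : RadiusFrom G c T r) : RadiusFrom G c (S ∪ T) r := by
  intro x hx
  rcases hx with hx | hx
  · obtain ⟨w, h1, h2⟩ := hS x hx
    exact ⟨w, h1, fun a ha => Or.inl (h2 a ha)⟩
  · obtain ⟨w, h1, h2⟩ := hT x hx
    exact ⟨w, h1, fun a ha => Or.inr (h2 a ha)⟩

end Pool.Agent.H67.PC
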