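import Mathlib
import Pool.Agent.H67.PC.Conn

/-! The greedy construction of a dense shallow minor from well spread sources. -/

namespace Pool.Agent.H67.PC

open Finset

variable {V : Type*} [Fintype V] [DecidableEq V] {κ : Type*}

/-- mass of the targets of source `a` whose connector passes through `v`. -/
noncomputable def hit (mu : V → ℝ) (D : κ → Finset V) (S : κ → V → Finset V) (a : κ) (v : V) : ℝ :=
  ∑ u ∈ (D a).filter (fun u => v ∈ S a u), mu u

/-- overlap of two sources. -/
noncomputable def ovl (mu : V → ℝ) (D : κ → Finset V) (S : κ → V → Finset V) (a b : κ) : ℝ :=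
  ∑ v, hit mu D S a v * hit mu D S b v

section
variable {mu : V → ℝ} {D : κ → Finset V} {S : κ → V → Finset V}

lemma hit_nonneg (hmu : ∀ v, 0 ≤ mu v) (a : κ) (v : V) : 0 ≤ hit mu D S a v :=
  Finset.sum_nonneg fun u _ => hmu u

lemma ovl_comm (a b : κ) : ovl mu D S a b = ovl mu D S b a := by
  unfold ovl
  exact Finset.sum_congr rfl fun v _ => mul_comm _ _

lemma swap_sum (a : κ) (g : V → ℝ) :
    ∑ u ∈ D a, mu u * ∑ x ∈ S a u, g x = ∑ x, g x * hit mu D S a x := by
  unfold hit
  have h1 : ∀ u ∈ D a, mu u * ∑ x ∈ S a u, g x = ∑ x, if x ∈ S a u then g x * mu u else 0 := by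
    intro u _
    rw [Finset.mul_sum, ← Finset.sum_filter]
    rw [Finset.filter_mem_eq_inter, Finset.univ_inter]
    exact Finset.sum_congr rfl fun x _ => mul_comm _ _
  rw [Finset.sum_congr rfl h1, Finset.sum_comm]
  refine Finset.sum_congr rfl fun x _ => ?_
  rw [Finset.mul_sum, Finset.sum_filter]

lemma sum_hit (a : κ) : ∑ x, hit mu D S a x = ∑ u ∈ D a, mu u * (S a u).card := by
  have := swap_sum (mu := mu) (D := D) (S := S) a (fun _ => 1)
  simp only [one_mul, Finset.sum_const, nsmul_eq_mul, mul_one] at this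
  exact this.symm

end

/-- The invariant of the greedy construction after `n` steps. -/
structure Inv (G : SimpleGraph V) (y : κ → V) (h : κ → V → ℝ) (R : ℕ) (o K C : ℝ) (n : ℕ)
    (Z : κ → Finset V) : Prop where
  mem : ∀ c, y c ∈ Z c
  rad : ∀ c, RadiusFrom G (y c) (Z c : Set V) R
  disj : ∀ c c', c ≠ c' → Disjoint (Z c) (Z c')
  card : ∀ c, ((Z c).card : ℝ) ≤ 1 + n * R
  sum : ∀ c c', c ≠ c' → ∑ x ∈ Z c, h c' x ≤ C * o + 2 * K * n

/-- Adding suitable sets to the branch sets preserves the invariant. -/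
lemma Inv.add {G : SimpleGraph V} {y : κ → V} {h : κ → V → ℝ} {R : ℕ} {o K C : ℝ} {n : ℕ}
    {Z A : κ → Finset V} (hh : ∀ c v, 0 ≤ h c v) (hZ : Inv G y h R o K C n Z)
    (rad : ∀ c, RadiusFrom G (y c) (A c : Set V) R)
    (disj : ∀ c c', c ≠ c' → Disjoint (A c) (Z c'))
    (disj' : ∀ c c', c ≠ c' → Disjoint (A c) (A c'))
    (card : ∀ c, (A c).card ≤ R)
    (sum : ∀ c c', c ≠ c' → ∑ x ∈ A c, h c' x ≤ 2 * K) :
    Inv G y h R o K C (n + 1) (fun c => Z c ∪ A c) where
  mem c := Finset.mem_union_left _ (hZ.mem c)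
  rad c := by
    have := (hZ.rad c).union (rad c)
    simpa using this
  disj c c' hcc := by
    rw [Finset.disjoint_union_left, Finset.disjoint_union_right, Finset.disjoint_union_right]
    exact ⟨⟨hZ.disj c c' hcc, (disj c' c hcc.symm).symm⟩, disj c c' hcc, disj' c c' hcc⟩
  card c := by
    have h1 : ((Z c ∪ A c).card : ℝ) ≤ (Z c).card + (A c).card := by
      exact_mod_cast Finset.card_union_le _ _
    have h2 : ((A c).card : ℝ) ≤ R := by exact_mod_cast card c
    have h3 := hZ.card c
    push_cast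
    linarith
  sum c c' hcc := by
    have h1 : ∑ x ∈ Z c ∪ A c, h c' x ≤ ∑ x ∈ Z c, h c' x + ∑ x ∈ A c, h c' x := by
      rw [← Finset.sum_union_inter]
      exact le_add_of_nonneg_right (Finset.sum_nonneg fun x _ => hh c' x)
    have h2 := hZ.sum c c' hcc
    have h3 := sum c c' hcc
    push_cast
    linarith


/-- The penalty of a vertex with respect to the branch set of `c`. -/
noncomputable def pen (Z : κ → Finset V) (h : κ → V → ℝ) (K : ℝ) (c : κ) (x : V) : ℝ :=
  (if x ∈ Z c then 1 else 0) + h c x / K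

lemma pen_nonneg {Z : κ → Finset V} {h : κ → V → ℝ} {K : ℝ} (hK : 0 < K)
    (hh : ∀ c v, 0 ≤ h c v) (c : κ) (x : V) : 0 ≤ pen Z h K c x := by
  unfold pen
  have := div_nonneg (hh c x) hK.le
  split_ifs <;> linarith

lemma exists_target [Fintype κ] [DecidableEq κ] {G : SimpleGraph V} {y : κ → V} {mu : V → ℝ}
    {D : κ → Finset V} {S : κ → V → Finset V} (hmu : ∀ v, 0 ≤ mu v) {R : ℕ} {C o K θ η : ℝ}
    (hR : ∀ a, ∑ x, hit mu D S a x ≤ R) (hη : ∀ v, mu v ≤ η) (hη0 : 0 ≤ η) (hK : 0 < K)
    (ho : 0 ≤ o) (hC : 0 ≤ C)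
    (hovl : ∀ a b, a ≠ b → ovl mu D S a b ≤ o)
    {n : ℕ} {Z : κ → Finset V} (hZ : Inv G y (hit mu D S) R o K C n Z)
    (hnum : 2 * (Fintype.card κ * (C * o + 2 * K * n + o / K))
      + η * (Fintype.card κ * (1 + n * R + R / K)) < θ)
    {a b : κ} (hθ : θ ≤ ∑ u ∈ D a ∩ D b, mu u) :
    ∃ u ∈ D a ∩ D b, (∀ c, c ≠ a → Disjoint (S a u) (Z c)) ∧
      (∀ c, c ≠ b → Disjoint (S b u) (Z c)) ∧ (∀ c, u ∉ Z c) ∧
      (∀ c, c ≠ a → ∑ x ∈ S a u, hit mu D S c x ≤ K) ∧
      (∀ c, c ≠ b → ∑ x ∈ S b u, hit mu D S c x ≤ K) ∧ (∀ c, hit mu D S c u ≤ K) := by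
  set h := hit mu D S with hh
  have hpos : ∀ c v, 0 ≤ h c v := fun c v => hit_nonneg hmu c v
  have ppos : ∀ c x, 0 ≤ pen Z h K c x := pen_nonneg hK hpos
  set g : κ → V → ℝ := fun c0 x => ∑ c ∈ univ.erase c0, pen Z h K c x with hg
  have gpos : ∀ c0 x, 0 ≤ g c0 x := fun c0 x => Finset.sum_nonneg fun c _ => ppos c x
  set F : V → ℝ := fun u => ∑ x ∈ S a u, g a x + ∑ x ∈ S b u, g b x + ∑ c, pen Z h K c u with hF
  -- expectation over one source
  have key : ∀ c0, ∑ x, g c0 x * h c0 x ≤ Fintype.card κ * (C * o + 2 * K * n + o / K) := by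
    intro c0
    have h1 : ∑ x, g c0 x * h c0 x = ∑ c ∈ univ.erase c0, (∑ x ∈ Z c, h c0 x + ovl mu D S c c0 / K) := by
      simp only [hg]
      simp_rw [Finset.sum_mul]
      rw [Finset.sum_comm]
      refine Finset.sum_congr rfl fun c _ => ?_
      unfold pen ovl
      simp_rw [add_mul]
      rw [Finset.sum_add_distrib, Finset.sum_div]
      congr 1
      · simp
      · exact Finset.sum_congr rfl fun x _ => by rw [← hh]; ring
    rw [h1]
    have h2 : ∀ c ∈ univ.erase c0, (∑ x ∈ Z c, h c0 x + ovl mu D S c c0 / K)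
        ≤ C * o + 2 * K * n + o / K := by
      intro c hc
      have hne : c ≠ c0 := (Finset.mem_erase.mp hc).1
      have := hZ.sum c c0 hne
      have h3 : ovl mu D S c c0 / K ≤ o / K := div_le_div_of_nonneg_right (hovl c c0 hne) hK.le
      linarith
    refine (Finset.sum_le_card_nsmul _ _ _ h2).trans ?_
    rw [nsmul_eq_mul]
    have h3 : (((univ : Finset κ).erase c0).card : ℝ) ≤ Fintype.card κ := by
      exact_mod_cast Finset.card_le_univ _
    have h4 : 0 ≤ C * o + 2 * K * n + o / K := by positivity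
    exact mul_le_mul_of_nonneg_right h3 h4
  have key2 : ∑ x, (∑ c, pen Z h K c x) ≤ Fintype.card κ * (1 + n * R + R / K) := by
    rw [Finset.sum_comm]
    have h2 : ∀ c ∈ (univ : Finset κ), ∑ x, pen Z h K c x ≤ 1 + n * R + R / K := by
      intro c _
      unfold pen
      rw [Finset.sum_add_distrib, ← Finset.sum_div]
      have h3 : ∑ x, (if x ∈ Z c then (1 : ℝ) else 0) = (Z c).card := by simp
      rw [h3]
      have h4 := hZ.card c
      have h5 : (∑ x, h c x) / K ≤ R / K := div_le_div_of_nonneg_right (hR c) hK.le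
      linarith
    refine (Finset.sum_le_card_nsmul _ _ _ h2).trans ?_
    rw [nsmul_eq_mul]
    simp
  have exF : ∑ u ∈ D a ∩ D b, mu u * F u < ∑ u ∈ D a ∩ D b, mu u := by
    refine lt_of_lt_of_le (lt_of_le_of_lt ?_ hnum) hθ
    have e1 : ∑ u ∈ D a ∩ D b, mu u * F u = ∑ u ∈ D a ∩ D b, mu u * ∑ x ∈ S a u, g a x +
        ∑ u ∈ D a ∩ D b, mu u * ∑ x ∈ S b u, g b x +
        ∑ u ∈ D a ∩ D b, mu u * ∑ c, pen Z h K c u := by
      rw [← Finset.sum_add_distrib, ← Finset.sum_add_distrib]
      exact Finset.sum_congr rfl fun u _ => by simp only [hF]; ring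
    have e2 : ∑ u ∈ D a ∩ D b, mu u * ∑ x ∈ S a u, g a x
        ≤ Fintype.card κ * (C * o + 2 * K * n + o / K) := by
      refine le_trans ?_ (key a)
      rw [hh, ← swap_sum]
      refine Finset.sum_le_sum_of_subset_of_nonneg Finset.inter_subset_left ?_
      intro u _ _
      exact mul_nonneg (hmu u) (Finset.sum_nonneg fun x _ => gpos a x)
    have e3 : ∑ u ∈ D a ∩ D b, mu u * ∑ x ∈ S b u, g b x
        ≤ Fintype.card κ * (C * o + 2 * K * n + o / K) := by
      refine le_trans ?_ (key b)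
      rw [hh, ← swap_sum]
      refine Finset.sum_le_sum_of_subset_of_nonneg Finset.inter_subset_right ?_
      intro u _ _
      exact mul_nonneg (hmu u) (Finset.sum_nonneg fun x _ => gpos b x)
    have e4 : ∑ u ∈ D a ∩ D b, mu u * ∑ c, pen Z h K c u
        ≤ η * (Fintype.card κ * (1 + n * R + R / K)) := by
      have e5 : ∑ u ∈ D a ∩ D b, mu u * ∑ c, pen Z h K c u ≤ ∑ u, η * ∑ c, pen Z h K c u := by
        refine le_trans (Finset.sum_le_sum (g := fun u => η * ∑ c, pen Z h K c u) ?_)
          (Finset.sum_le_sum_of_subset_of_nonneg (Finset.subset_univ _) ?_)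
        · intro u _
          exact mul_le_mul_of_nonneg_right (hη u) (Finset.sum_nonneg fun c _ => ppos c u)
        · intro u _ _
          exact mul_nonneg hη0 (Finset.sum_nonneg fun c _ => ppos c u)
      rw [← Finset.mul_sum] at e5
      exact e5.trans (mul_le_mul_of_nonneg_left key2 hη0)
    rw [e1]
    linarith
  obtain ⟨u, hu, hlt⟩ := Finset.exists_lt_of_sum_lt exF
  have hFu : F u < 1 := by
    by_contra hcon
    push Not at hcon
    have := mul_le_mul_of_nonneg_left hcon (hmu u)
    linarith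
  have s1 : 0 ≤ ∑ x ∈ S a u, g a x := Finset.sum_nonneg fun x _ => gpos a x
  have s2 : 0 ≤ ∑ x ∈ S b u, g b x := Finset.sum_nonneg fun x _ => gpos b x
  have s3 : 0 ≤ ∑ c, pen Z h K c u := Finset.sum_nonneg fun c _ => ppos c u
  have b1 : ∑ x ∈ S a u, g a x < 1 := by simp only [hF] at hFu; linarith
  have b2 : ∑ x ∈ S b u, g b x < 1 := by simp only [hF] at hFu; linarith
  have b3 : ∑ c, pen Z h K c u < 1 := by simp only [hF] at hFu; linarith
  have pen_le : ∀ c0 c x, c ≠ c0 → pen Z h K c x ≤ g c0 x := by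
    intro c0 c x hc
    simp only [hg]
    exact Finset.single_le_sum (f := fun c => pen Z h K c x) (fun c _ => ppos c x)
      (Finset.mem_erase.mpr ⟨hc, Finset.mem_univ _⟩)
  have disj : ∀ c0 (T : Finset V), ∑ x ∈ T, g c0 x < 1 → ∀ c, c ≠ c0 → Disjoint T (Z c) := by
    intro c0 T hT c hc
    rw [Finset.disjoint_left]
    intro x hx hxc
    have h1 : g c0 x ≤ ∑ x ∈ T, g c0 x := Finset.single_le_sum (fun x _ => gpos c0 x) hx
    have h2 := pen_le c0 c x hc
    have h3 : 1 ≤ pen Z h K c x := by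
      unfold pen
      rw [if_pos hxc]
      have := div_nonneg (hpos c x) hK.le
      linarith
    linarith
  have small : ∀ c0 (T : Finset V), ∑ x ∈ T, g c0 x < 1 → ∀ c, c ≠ c0 → ∑ x ∈ T, h c x ≤ K := by
    intro c0 T hT c hc
    have h1 : ∑ x ∈ T, h c x / K ≤ ∑ x ∈ T, g c0 x := by
      refine Finset.sum_le_sum fun x _ => ?_
      refine le_trans ?_ (pen_le c0 c x hc)
      unfold pen
      split_ifs <;> linarith
    rw [← Finset.sum_div] at h1
    have h2 : (∑ x ∈ T, h c x) / K < 1 := lt_of_le_of_lt h1 hT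
    rw [div_lt_one hK] at h2
    exact h2.le
  refine ⟨u, hu, disj a _ b1, disj b _ b2, ?_, small a _ b1, small b _ b2, ?_⟩
  · intro c hc
    have h1 : pen Z h K c u ≤ ∑ c, pen Z h K c u :=
      Finset.single_le_sum (fun c _ => ppos c u) (Finset.mem_univ c)
    have h3 : 1 ≤ pen Z h K c u := by
      unfold pen
      rw [if_pos hc]
      have := div_nonneg (hpos c u) hK.le
      linarith
    linarith
  · intro c
    have h1 : pen Z h K c u ≤ ∑ c, pen Z h K c u :=
      Finset.single_le_sum (fun c _ => ppos c u) (Finset.mem_univ c)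
    have h3 : h c u / K ≤ pen Z h K c u := by
      unfold pen
      split_ifs <;> linarith
    have h4 : h c u / K < 1 := by linarith
    rw [div_lt_one hK] at h4
    exact h4.le

/-- One step of the greedy construction. -/
lemma greedy_step [Fintype κ] [DecidableEq κ] {G : SimpleGraph V} {y : κ → V} {mu : V → ℝ}
    {D : κ → Finset V} {S : κ → V → Finset V} (hmu : ∀ v, 0 ≤ mu v) {R : ℕ} {C o K θ η : ℝ}
    (hS : ∀ c, ∀ u ∈ D c, ConnFrom G (y c) (S c u : Set V) ∧ u ∉ S c u ∧
      (∃ x ∈ S c u, G.Adj x u) ∧ (S c u).card < R)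
    (hR : ∀ a, ∑ x, hit mu D S a x ≤ R) (hη : ∀ v, mu v ≤ η) (hη0 : 0 ≤ η) (hK : 0 < K)
    (ho : 0 ≤ o) (hC : 0 ≤ C)
    (hovl : ∀ a b, a ≠ b → ovl mu D S a b ≤ o)
    {n : ℕ} {Z : κ → Finset V} (hZ : Inv G y (hit mu D S) R o K C n Z)
    (hnum : 2 * (Fintype.card κ * (C * o + 2 * K * n + o / K))
      + η * (Fintype.card κ * (1 + n * R + R / K)) < θ)
    {a b : κ} (hab : a ≠ b) (hθ : θ ≤ ∑ u ∈ D a ∩ D b, mu u) :
    ∃ Z' : κ → Finset V, Inv G y (hit mu D S) R o K C (n + 1) Z' ∧ (∀ c, Z c ⊆ Z' c) ∧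
      ∃ x ∈ Z' a, ∃ x' ∈ Z' b, G.Adj x x' := by
  classical
  obtain ⟨u, hu, h1, h2, h3, h4, h5, h6⟩ :=
    exists_target hmu hR hη hη0 hK ho hC hovl hZ hnum hθ
  have hua : u ∈ D a := (Finset.mem_inter.mp hu).1
  have hub : u ∈ D b := (Finset.mem_inter.mp hu).2
  obtain ⟨ca, nua, ⟨xa, hxa, hxau⟩, carda⟩ := hS a u hua
  obtain ⟨cb, nub, ⟨xb, hxb, hxbu⟩, cardb⟩ := hS b u hub
  have hyb : y a ∉ S b u := by
    have := (h2 a hab)
    rw [Finset.disjoint_right] at this
    exact this (hZ.mem a)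
  have hyu : y a ≠ u := fun h => h3 a (h ▸ hZ.mem a)
  have hyA : y a ∈ ((S a u : Set V) \ (S b u : Set V)) := ⟨ca.1, by simpa using hyb⟩
  set cp : Finset V := (S a u).filter (fun x => Reach G ((S a u : Set V) \ (S b u : Set V)) (y a) x)
    with hcp
  have hcpset : (cp : Set V) = compIn G ((S a u : Set V) \ (S b u : Set V)) (y a) := by
    ext x
    simp only [hcp, Finset.coe_filter, Set.mem_ofPred_eq, compIn]
    constructor
    · exact fun h => h.2
    · intro h
      exact ⟨by simpa using (Reach.mem h hyA).1, h⟩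
  have cpsub : cp ⊆ S a u := Finset.filter_subset _ _
  have cpdisj : ∀ x ∈ cp, x ∉ S b u := by
    intro x hx
    have : x ∈ (cp : Set V) := by simpa using hx
    rw [hcpset] at this
    have := (compIn_subset hyA this).2
    simpa using this
  have cpcard : cp.card < R := lt_of_le_of_lt (Finset.card_le_card cpsub) carda
  have cprad : RadiusFrom G (y a) (cp : Set V) R := by
    refine ConnFrom.radiusFrom ?_ (by omega)
    rw [hcpset]
    exact connFrom_compIn
  have ibcard : (insert u (S b u)).card ≤ R := by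
    have := Finset.card_insert_le u (S b u)
    omega
  have ibrad : RadiusFrom G (y b) ((insert u (S b u) : Finset V) : Set V) R := by
    refine ConnFrom.radiusFrom ?_ (by omega)
    rw [Finset.coe_insert]
    exact cb.insert (by simpa using hxb) hxbu
  set A : κ → Finset V := fun c => if c = a then cp else if c = b then insert u (S b u) else ∅ with hA
  have hAa : A a = cp := by simp [hA]
  have hAb : A b = insert u (S b u) := by simp [hA, hab.symm]
  have hAc : ∀ c, c ≠ a → c ≠ b → A c = ∅ := by intro c h1 h2; simp [hA, h1, h2]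
  refine ⟨fun c => Z c ∪ A c, ?_, fun c => Finset.subset_union_left, ?_⟩
  · refine Inv.add (fun c v => hit_nonneg hmu c v) hZ ?_ ?_ ?_ ?_ ?_
    · intro c
      by_cases hca : c = a
      · subst hca; rw [hAa]; exact cprad
      · by_cases hcb : c = b
        · subst hcb; rw [hAb]; exact ibrad
        · rw [hAc c hca hcb]
          intro x hx
          simp at hx
    · intro c c' hcc
      by_cases hca : c = a
      · subst hca; rw [hAa]
        exact Finset.disjoint_of_subset_left cpsub (h1 c' hcc.symm)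
      · by_cases hcb : c = b
        · subst hcb; rw [hAb, Finset.disjoint_insert_left]
          exact ⟨h3 c', h2 c' hcc.symm⟩
        · rw [hAc c hca hcb]; simp
    · have hab' : Disjoint cp (insert u (S b u)) := by
        rw [Finset.disjoint_left]
        intro x hx hx'
        rcases Finset.mem_insert.mp hx' with h | h
        · exact nua (h ▸ cpsub hx)
        · exact cpdisj x hx h
      intro c c' hcc
      by_cases hca : c = a
      · subst hca; rw [hAa]
        by_cases hcb : c' = b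
        · subst hcb; rw [hAb]; exact hab'
        · rw [hAc c' hcc.symm hcb]; simp
      · by_cases hcb : c = b
        · subst hcb; rw [hAb]
          by_cases hca' : c' = a
          · subst hca'; rw [hAa]; exact hab'.symm
          · rw [hAc c' hca' hcc.symm]; simp
        · rw [hAc c hca hcb]; simp
    · intro c
      by_cases hca : c = a
      · subst hca; rw [hAa]; exact cpcard.le
      · by_cases hcb : c = b
        · subst hcb; rw [hAb]; exact ibcard
        · rw [hAc c hca hcb]; simp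
    · intro c c' hcc
      by_cases hca : c = a
      · subst hca; rw [hAa]
        have := Finset.sum_le_sum_of_subset_of_nonneg (f := hit mu D S c') cpsub
          (fun x _ _ => hit_nonneg hmu c' x)
        have h7 := h4 c' hcc.symm
        linarith
      · by_cases hcb : c = b
        · subst hcb; rw [hAb, Finset.sum_insert nub]
          have h7 := h5 c' hcc.symm
          have h8 := h6 c'
          linarith
        · rw [hAc c hca hcb]; simp; linarith
  · have hreach : Reach G (insert u (S a u : Set V)) (y a) u := by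
      refine Relation.ReflTransGen.tail ((ca.2 xa (by simpa using hxa)).mono
        (Set.subset_insert _ _)) ⟨hxau, Set.mem_insert _ _⟩
    obtain ⟨p, q, hp, hpq, hqB, hqA⟩ := cross (B := insert u (S b u : Set V))
      (by simp only [Set.mem_insert_iff, not_or]; exact ⟨hyu, by simpa using hyb⟩)
      (Set.mem_insert _ _) hreach
    have hp' : Reach G ((S a u : Set V) \ (S b u : Set V)) (y a) p := by
      refine hp.mono ?_
      intro x hx
      simp only [Set.mem_sdiff, Set.mem_insert_iff, not_or] at hx ⊢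
      rcases hx with ⟨h | h, h', h''⟩
      · exact absurd h h'
      · exact ⟨h, h''⟩
    refine ⟨p, ?_, q, ?_, hpq⟩
    · refine Finset.mem_union_right _ ?_
      rw [hAa]
      have : p ∈ (cp : Set V) := by rw [hcpset]; exact hp'
      simpa using this
    · refine Finset.mem_union_right _ ?_
      rw [hAb]
      have : q ∈ ((insert u (S b u) : Finset V) : Set V) := by rw [Finset.coe_insert]; exact hqB
      simpa using this

/-- Realising a set of pairs. -/
lemma greedy_embed [Fintype κ] [DecidableEq κ] {G : SimpleGraph V} {y : κ → V} {mu : V → ℝ}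
    {D : κ → Finset V} {S : κ → V → Finset V} (hmu : ∀ v, 0 ≤ mu v) {R : ℕ} {C o K θ η : ℝ}
    (hS : ∀ c, ∀ u ∈ D c, ConnFrom G (y c) (S c u : Set V) ∧ u ∉ S c u ∧
      (∃ x ∈ S c u, G.Adj x u) ∧ (S c u).card < R)
    (hR : ∀ a, ∑ x, hit mu D S a x ≤ R) (hη : ∀ v, mu v ≤ η) (hη0 : 0 ≤ η) (hK : 0 < K)
    (ho : 0 ≤ o) (hC : 0 ≤ C)
    (hovl : ∀ a b, a ≠ b → ovl mu D S a b ≤ o)
    (hy : ∀ c c', c ≠ c' → y c ≠ y c') (hyh : ∀ c c', c ≠ c' → hit mu D S c' (y c) ≤ C * o)
    {m : ℕ}
    (hnum : 2 * (Fintype.card κ * (C * o + 2 * K * m + o / K))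
      + η * (Fintype.card κ * (1 + m * R + R / K)) < θ)
    (E : Finset (κ × κ)) (hE : E.card ≤ m)
    (hE' : ∀ e ∈ E, e.1 ≠ e.2 ∧ θ ≤ ∑ u ∈ D e.1 ∩ D e.2, mu u) :
    ∃ Z : κ → Finset V, Inv G y (hit mu D S) R o K C E.card Z ∧
      ∀ e ∈ E, ∃ x ∈ Z e.1, ∃ x' ∈ Z e.2, G.Adj x x' := by
  classical
  induction E using Finset.induction_on with
  | empty =>
    refine ⟨fun c => {y c}, ?_, by simp⟩
    constructor
    · intro c; simp
    · intro c x hx
      simp only [Finset.coe_singleton, Set.mem_singleton_iff] at hx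
      subst hx
      exact ⟨SimpleGraph.Walk.nil, by simp, by simp⟩
    · intro c c' hcc
      simp only [Finset.disjoint_singleton]
      exact hy c c' hcc
    · intro c; simp
    · intro c c' hcc
      simpa using hyh c c' hcc
  | insert e E he ih =>
    have hcard : (insert e E).card = E.card + 1 := Finset.card_insert_of_notMem he
    obtain ⟨Z, hZ, hZE⟩ := ih (by omega) (fun e' he' => hE' e' (Finset.mem_insert_of_mem he'))
    have hm : (E.card : ℝ) ≤ m := by
      have : E.card ≤ m := by omega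
      exact_mod_cast this
    have hnum' : 2 * (Fintype.card κ * (C * o + 2 * K * E.card + o / K))
      + η * (Fintype.card κ * (1 + E.card * R + R / K)) < θ := by
      refine lt_of_le_of_lt ?_ hnum
      have hRR : (0 : ℝ) ≤ R := Nat.cast_nonneg R
      gcongr
    obtain ⟨h1, h2⟩ := hE' e (Finset.mem_insert_self _ _)
    obtain ⟨Z', hZ', hsub, hadj⟩ := greedy_step hmu hS hR hη hη0 hK ho hC hovl hZ hnum' h1 h2
    refine ⟨Z', by rw [hcard]; exact hZ', ?_⟩
    intro e' he'
    rcases Finset.mem_insert.mp he' with h | h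
    · subst h; exact hadj
    · obtain ⟨x, hx, x', hx', hadj'⟩ := hZE e' h
      exact ⟨x, hsub _ hx, x', hsub _ hx', hadj'⟩

end Pool.Agent.H67.PC
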