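import Mathlib
import Pool.Agent.H67.PC.Core

/-! Counting good pairs, and the resulting dense shallow minor. -/

namespace Pool.Agent.H67.PC

open Finset

variable {V : Type*} [Fintype V] [DecidableEq V]

lemma sum_inter_eq {t : ℕ} (mu : V → ℝ) (D : Fin t → Finset V) :
    ∑ e : Fin t × Fin t, ∑ u ∈ D e.1 ∩ D e.2, mu u =
      ∑ u, mu u * (∑ a, if u ∈ D a then (1 : ℝ) else 0) ^ 2 := by
  have h1 : ∀ e : Fin t × Fin t, ∑ u ∈ D e.1 ∩ D e.2, mu u =
      ∑ u, mu u * ((if u ∈ D e.1 then (1 : ℝ) else 0) * (if u ∈ D e.2 then (1 : ℝ) else 0)) := by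
    intro e
    have : D e.1 ∩ D e.2 = univ.filter (fun u => u ∈ D e.1 ∧ u ∈ D e.2) := by
      ext u; simp
    rw [this, Finset.sum_filter]
    refine Finset.sum_congr rfl fun u _ => ?_
    by_cases h : u ∈ D e.1 <;> by_cases h' : u ∈ D e.2 <;> simp [h, h']
  rw [Finset.sum_congr rfl fun e _ => h1 e, Finset.sum_comm]
  refine Finset.sum_congr rfl fun u _ => ?_
  rw [← Finset.mul_sum, pow_two, Fintype.sum_prod_type, Finset.sum_mul_sum]

lemma pairs_count {t : ℕ} {mu : V → ℝ} (hmu : ∀ v, 0 ≤ mu v) (hmu1 : ∑ v, mu v ≤ 1)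
    {D : Fin t → Finset V} {C : ℝ} (hC : 1 ≤ C) (hD : ∀ a, 1 / C ≤ ∑ u ∈ D a, mu u)
    (ht : 2 * C ^ 2 ≤ t) :
    (t : ℝ) ^ 2 / (4 * C ^ 2) ≤ ((univ : Finset (Fin t × Fin t)).filter
      (fun e => e.1 ≠ e.2 ∧ 1 / (4 * C ^ 2) ≤ ∑ u ∈ D e.1 ∩ D e.2, mu u)).card := by
  classical
  have hC0 : 0 < C := by linarith
  set n : V → ℝ := fun u => ∑ a, if u ∈ D a then (1 : ℝ) else 0 with hn
  have hsum1 : (t : ℝ) / C ≤ ∑ u, mu u * n u := by
    have h1 : ∑ u, mu u * n u = ∑ a, ∑ u ∈ D a, mu u := by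
      simp only [hn]
      simp_rw [Finset.mul_sum]
      rw [Finset.sum_comm]
      refine Finset.sum_congr rfl fun a _ => ?_
      simp
    rw [h1]
    have h2 : ∑ a : Fin t, (1 / C) ≤ ∑ a, ∑ u ∈ D a, mu u :=
      Finset.sum_le_sum fun a _ => hD a
    have h3 : ∑ a : Fin t, (1 / C) = (t : ℝ) / C := by simp; ring
    linarith
  set m : ℝ := t / C with hm
  have hm0 : 0 ≤ m := by positivity
  have hlow : m ^ 2 ≤ ∑ u, mu u * n u ^ 2 := by
    have h1 : 0 ≤ ∑ u, mu u * (n u - m) ^ 2 :=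
      Finset.sum_nonneg fun u _ => mul_nonneg (hmu u) (sq_nonneg _)
    have h2 : ∑ u, mu u * (n u - m) ^ 2 =
        ∑ u, mu u * n u ^ 2 - 2 * m * ∑ u, mu u * n u + m ^ 2 * ∑ u, mu u := by
      rw [Finset.mul_sum, Finset.mul_sum, ← Finset.sum_sub_distrib, ← Finset.sum_add_distrib]
      exact Finset.sum_congr rfl fun u _ => by ring
    have h3 : m ^ 2 * ∑ u, mu u ≤ m ^ 2 * 1 := mul_le_mul_of_nonneg_left hmu1 (sq_nonneg _)
    have h4 : 2 * m * m ≤ 2 * m * ∑ u, mu u * n u := mul_le_mul_of_nonneg_left hsum1 (by positivity)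
    nlinarith
  rw [← sum_inter_eq] at hlow
  set good := (univ : Finset (Fin t × Fin t)).filter
      (fun e => e.1 ≠ e.2 ∧ 1 / (4 * C ^ 2) ≤ ∑ u ∈ D e.1 ∩ D e.2, mu u) with hgood
  have hup : ∑ e : Fin t × Fin t, ∑ u ∈ D e.1 ∩ D e.2, mu u ≤
      ∑ e : Fin t × Fin t, ((if e.1 = e.2 then (1 : ℝ) else 0) + (if e ∈ good then (1 : ℝ) else 0)
        + 1 / (4 * C ^ 2)) := by
    refine Finset.sum_le_sum fun e _ => ?_
    have h1 : ∑ u ∈ D e.1 ∩ D e.2, mu u ≤ 1 :=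
      (Finset.sum_le_sum_of_subset_of_nonneg (Finset.subset_univ _) fun u _ _ => hmu u).trans hmu1
    have h2 : (0 : ℝ) ≤ 1 / (4 * C ^ 2) := by positivity
    by_cases h3 : e.1 = e.2
    · rw [if_pos h3]
      split_ifs <;> linarith
    · rw [if_neg h3]
      by_cases h4 : 1 / (4 * C ^ 2) ≤ ∑ u ∈ D e.1 ∩ D e.2, mu u
      · have : e ∈ good := by simp only [hgood, mem_filter, mem_univ, true_and]; exact ⟨h3, h4⟩
        rw [if_pos this]
        linarith
      · push Not at h4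
        split_ifs <;> linarith
  rw [Finset.sum_add_distrib, Finset.sum_add_distrib] at hup
  have e1 : ∑ e : Fin t × Fin t, (if e.1 = e.2 then (1 : ℝ) else 0) = t := by
    rw [Fintype.sum_prod_type]
    simp
  have e2 : ∑ e : Fin t × Fin t, (if e ∈ good then (1 : ℝ) else 0) = good.card := by
    simp
  have e3 : ∑ _e : Fin t × Fin t, 1 / (4 * C ^ 2) = (t : ℝ) ^ 2 * (1 / (4 * C ^ 2)) := by
    simp only [sum_const, card_univ, Fintype.card_prod, Fintype.card_fin, nsmul_eq_mul]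
    push_cast
    ring
  rw [e1, e2, e3] at hup
  have h5 : m ^ 2 = (t : ℝ) ^ 2 / C ^ 2 := by rw [hm, div_pow]
  rw [h5] at hlow
  have hC2 : 0 < C ^ 2 := by positivity
  have h6 : (t : ℝ) ≤ (t : ℝ) ^ 2 / (2 * C ^ 2) := by
    rw [le_div_iff₀ (by positivity)]
    nlinarith [Nat.cast_nonneg (α := ℝ) t]
  have h7 : (t : ℝ) ^ 2 / C ^ 2 = 4 * ((t : ℝ) ^ 2 / (4 * C ^ 2)) := by
    field_simp
  have h8 : (t : ℝ) ^ 2 / (2 * C ^ 2) = 2 * ((t : ℝ) ^ 2 / (4 * C ^ 2)) := by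
    field_simp; norm_num
  have h9 : (t : ℝ) ^ 2 * (1 / (4 * C ^ 2)) = (t : ℝ) ^ 2 / (4 * C ^ 2) := by ring
  rw [h9] at hup
  rw [h7] at hlow
  rw [h8] at h6
  linarith

theorem core_minor {t : ℕ} {G : SimpleGraph V} {y : Fin t → V} {mu : V → ℝ}
    {D : Fin t → Finset V} {S : Fin t → V → Finset V} (hmu : ∀ v, 0 ≤ mu v)
    (hmu1 : ∑ v, mu v ≤ 1) {R : ℕ} {C o K η : ℝ}
    (hS : ∀ c, ∀ u ∈ D c, ConnFrom G (y c) (S c u : Set V) ∧ u ∉ S c u ∧
      (∃ x ∈ S c u, G.Adj x u) ∧ (S c u).card < R)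
    (hη : ∀ v, mu v ≤ η) (hη0 : 0 ≤ η) (hK : 0 < K) (ho : 0 ≤ o) (hC : 1 ≤ C)
    (hD : ∀ a, 1 / C ≤ ∑ u ∈ D a, mu u) (ht : 2 * C ^ 2 ≤ t)
    (hovl : ∀ a b, a ≠ b → ovl mu D S a b ≤ o)
    (hnum : 2 * (t * (C * o + 2 * K * (t : ℝ) ^ 2 + o / K))
      + η * (t * (1 + (t : ℝ) ^ 2 * R + R / K)) < 1 / (4 * C ^ 2)) :
    ∃ H : SimpleGraph (Fin t), IsDepthMinor R H G ∧
      (t : ℝ) ^ 2 / (8 * C ^ 2) ≤ H.edgeSet.ncard := by
  classical
  have hC0 : 0 < C := by linarith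
  have hpos : ∀ c v, 0 ≤ hit mu D S c v := fun c v => hit_nonneg hmu c v
  have hself : ∀ c, 1 / C ≤ hit mu D S c (y c) := by
    intro c
    refine (hD c).trans (le_of_eq ?_)
    unfold hit
    refine Finset.sum_congr ?_ fun _ _ => rfl
    rw [Finset.filter_true_of_mem]
    intro u hu
    exact (hS c u hu).1.1
  have hyh : ∀ c c', c ≠ c' → hit mu D S c' (y c) ≤ C * o := by
    intro c c' hcc
    have h1 : hit mu D S c (y c) * hit mu D S c' (y c) ≤ ovl mu D S c c' :=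
      Finset.single_le_sum (f := fun v => hit mu D S c v * hit mu D S c' v)
        (fun v _ => mul_nonneg (hpos c v) (hpos c' v)) (Finset.mem_univ (y c))
    have h2 := hovl c c' hcc
    have h3 : 1 / C * hit mu D S c' (y c) ≤ hit mu D S c (y c) * hit mu D S c' (y c) :=
      mul_le_mul_of_nonneg_right (hself c) (hpos _ _)
    have h4 : 1 / C * hit mu D S c' (y c) ≤ o := by linarith
    rw [one_div, inv_mul_le_iff₀ hC0] at h4
    exact h4
  have ht0 : (1 : ℝ) ≤ t := by nlinarith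
  have hRR : (0 : ℝ) ≤ R := Nat.cast_nonneg R
  have hsmall : C * o < 1 / C := by
    have h1 : 2 * (t * (C * o)) < 1 / (4 * C ^ 2) := by
      refine lt_of_le_of_lt ?_ hnum
      have e1 : 0 ≤ 2 * K * (t : ℝ) ^ 2 := by positivity
      have e2 : 0 ≤ o / K := by positivity
      have e3 : 0 ≤ η * (t * (1 + (t : ℝ) ^ 2 * R + R / K)) := by positivity
      have e4 : (t : ℝ) * (C * o) ≤ t * (C * o + 2 * K * (t : ℝ) ^ 2 + o / K) :=
        mul_le_mul_of_nonneg_left (by linarith) (by linarith)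
      linarith
    have h2 : C * o ≤ t * (C * o) := le_mul_of_one_le_left (by positivity) ht0
    have h3 : 1 / (4 * C ^ 2) ≤ 1 / C := by
      apply one_div_le_one_div_of_le hC0
      nlinarith
    have h4 : 0 ≤ C * o := by positivity
    linarith
  have hy : ∀ c c', c ≠ c' → y c ≠ y c' := by
    intro c c' hcc h
    have h1 := hyh c c' hcc
    rw [h] at h1
    have h2 := hself c'
    linarith
  have hR : ∀ a, ∑ x, hit mu D S a x ≤ R := by
    intro a
    rw [sum_hit]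
    have h1 : ∑ u ∈ D a, mu u * (S a u).card ≤ ∑ u ∈ D a, mu u * R := by
      refine Finset.sum_le_sum fun u hu => mul_le_mul_of_nonneg_left ?_ (hmu u)
      exact_mod_cast (hS a u hu).2.2.2.le
    rw [← Finset.sum_mul] at h1
    have h2 : ∑ u ∈ D a, mu u ≤ 1 :=
      (Finset.sum_le_sum_of_subset_of_nonneg (Finset.subset_univ _) fun u _ _ => hmu u).trans hmu1
    have h3 : (∑ u ∈ D a, mu u) * R ≤ 1 * R := mul_le_mul_of_nonneg_right h2 hRR
    linarith
  set E : Finset (Fin t × Fin t) := (univ : Finset (Fin t × Fin t)).filter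
      (fun e => e.1 ≠ e.2 ∧ 1 / (4 * C ^ 2) ≤ ∑ u ∈ D e.1 ∩ D e.2, mu u) with hE
  have hEcard : E.card ≤ t ^ 2 := by
    refine (Finset.card_le_univ E).trans ?_
    simp [pow_two]
  have hcount : (t : ℝ) ^ 2 / (4 * C ^ 2) ≤ E.card := pairs_count hmu hmu1 hC hD ht
  obtain ⟨Z, hZ, hZE⟩ := greedy_embed (κ := Fin t) (m := t ^ 2) (θ := 1 / (4 * C ^ 2)) hmu hS hR hη
    hη0 hK ho hC0.le hovl hy hyh (by
      rw [Fintype.card_fin]; push_cast; exact hnum) E hEcard (by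
      intro e he
      simpa [hE] using he)
  set H : SimpleGraph (Fin t) := SimpleGraph.fromRel (fun a b => (a, b) ∈ E) with hH
  have hEsymm : ∀ a b, (a, b) ∈ E → (b, a) ∈ E := by
    intro a b hab
    simp only [hE, mem_filter, mem_univ, true_and] at hab ⊢
    refine ⟨hab.1.symm, ?_⟩
    rw [Finset.inter_comm]
    exact hab.2
  have hHadj : ∀ a b, H.Adj a b ↔ (a, b) ∈ E := by
    intro a b
    rw [hH, SimpleGraph.fromRel_adj]
    constructor
    · rintro ⟨_, h | h⟩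
      · exact h
      · exact hEsymm _ _ h
    · intro h
      refine ⟨?_, Or.inl h⟩
      simp only [hE, mem_filter, mem_univ, true_and] at h
      exact h.1
  refine ⟨H, ⟨fun c => (Z c : Set V), ?_, ?_, ?_⟩, ?_⟩
  · intro c
    exact ⟨y c, by simpa using hZ.mem c, hZ.rad c⟩
  · intro a b hab
    exact Finset.disjoint_coe.mpr (hZ.disj a b hab)
  · intro a b hab
    obtain ⟨x, hx, x', hx', h⟩ := hZE (a, b) ((hHadj a b).mp hab)
    exact ⟨x, by simpa using hx, x', by simpa using hx', h⟩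
  · have h1 : 2 * H.edgeSet.ncard = E.card := by
      have h2 : H.edgeSet.ncard = H.edgeFinset.card := by
        rw [← SimpleGraph.coe_edgeFinset, Set.ncard_coe_finset]
      rw [h2, ← SimpleGraph.sum_degrees_eq_twice_card_edges]
      have h3 : E.card = ∑ e : Fin t × Fin t, if e ∈ E then 1 else 0 := by simp
      rw [h3, Fintype.sum_prod_type]
      refine Finset.sum_congr rfl fun a _ => ?_
      rw [← SimpleGraph.card_neighborFinset_eq_degree, SimpleGraph.neighborFinset_eq_filter]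
      rw [Finset.card_filter]
      refine Finset.sum_congr rfl fun b _ => ?_
      simp only [hHadj]
    have h4 : (2 : ℝ) * H.edgeSet.ncard = E.card := by exact_mod_cast h1
    have h5 : (t : ℝ) ^ 2 / (4 * C ^ 2) = 2 * ((t : ℝ) ^ 2 / (8 * C ^ 2)) := by
      field_simp; norm_num
    linarith

end Pool.Agent.H67.PC
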