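import Mathlib
import Pool.Agent.H67.PC.Conn

/-! Subdivisions: every ordered adjacent pair of `A` gives a path with `m` inner vertices. -/

namespace Pool.Agent.H67.PC

open Sum

/-- Vertices of the subdivision: originals, and inner vertices `(a, b, s)`. -/
abbrev SubV (α : Type) (m : ℕ) := α ⊕ (α × α × Fin m)

/-- Directed steps along the subdivided paths. -/
def SubRel {α : Type} (A : SimpleGraph α) (m : ℕ) : SubV α m → SubV α m → Prop
  | inl a, inr (b, c, s) => a = b ∧ A.Adj b c ∧ s.val = 0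
  | inr (b, c, s), inl d => d = c ∧ A.Adj b c ∧ s.val + 1 = m
  | inr (b, c, s), inr (b', c', s') => b' = b ∧ c' = c ∧ A.Adj b c ∧ s'.val = s.val + 1
  | inl _, inl _ => False

/-- The subdivision of `A`: each ordered adjacent pair `(b, c)` is joined by a path with `m` inner
vertices. -/
def Sub {α : Type} (A : SimpleGraph α) (m : ℕ) : SimpleGraph (SubV α m) where
  Adj x y := SubRel A m x y ∨ SubRel A m y x
  symm := ⟨fun _ _ h => h.symm⟩
  loopless := ⟨by
    rintro (a | ⟨b, c, s⟩) h
    · rcases h with h | h <;> exact h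
    · rcases h with h | h <;> · have := h.2.2.2; omega⟩

/-- The `s`-th vertex of the path from `a` to `b`. -/
def pos {α : Type} {m : ℕ} (a b : α) (s : ℕ) : SubV α m :=
  if s = 0 then inl a else if h : s - 1 < m then inr (a, b, ⟨s - 1, h⟩) else inl b

lemma pos_adj {α : Type} {A : SimpleGraph α} {m : ℕ} (hm : 1 ≤ m) {a b : α} (hab : A.Adj a b)
    {s : ℕ} (hs : s ≤ m) : (Sub A m).Adj (pos a b s) (pos a b (s + 1)) := by
  refine Or.inl ?_
  unfold pos
  rcases Nat.eq_zero_or_pos s with h | h
  · subst h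
    have : (0 : ℕ) < m := by omega
    simp only [↓reduceIte, Nat.zero_add, Nat.one_ne_zero, Nat.sub_self, this, ↓reduceDIte]
    exact ⟨rfl, hab, rfl⟩
  · have h1 : s ≠ 0 := by omega
    have h2 : s - 1 < m := by omega
    have h3 : s + 1 ≠ 0 := by omega
    simp only [h1, h3, ↓reduceIte, h2, ↓reduceDIte, Nat.add_sub_cancel]
    split_ifs with h4
    · refine ⟨rfl, rfl, hab, ?_⟩
      show s = s - 1 + 1
      omega
    · refine ⟨rfl, hab, ?_⟩
      show s - 1 + 1 = m
      omega

/-- A walk following a sequence of consecutive adjacent vertices. -/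
lemma exists_walk_of_seq {V : Type*} {G : SimpleGraph V} (p : ℕ → V) (n : ℕ)
    (h : ∀ s, s < n → G.Adj (p s) (p (s + 1))) :
    ∃ w : G.Walk (p 0) (p n), w.length = n ∧ ∀ x ∈ w.support, ∃ s, s ≤ n ∧ x = p s := by
  induction n with
  | zero => exact ⟨SimpleGraph.Walk.nil, rfl, fun x hx => ⟨0, le_rfl, by simpa using hx⟩⟩
  | succ n ih =>
    obtain ⟨w, hw1, hw2⟩ := ih fun s hs => h s (by omega)
    refine ⟨w.concat (h n (by omega)), by simp [hw1], ?_⟩
    intro x hx
    simp only [SimpleGraph.Walk.support_concat, List.mem_append, List.mem_singleton] at hx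
    rcases hx with hx | hx
    · obtain ⟨s, hs, hx⟩ := hw2 x hx
      exact ⟨s, by omega, hx⟩
    · exact ⟨n + 1, le_rfl, hx⟩

/-- The pulled back order. -/
abbrev pull {V V' : Type*} (L : LinearOrder V') (f : V → V') (hf : Function.Injective f) :
    LinearOrder V := @LinearOrder.lift' V V' L f hf

lemma wreach_map {V V' : Type*} {G : SimpleGraph V} {G' : SimpleGraph V'} (L : LinearOrder V')
    (f : V → V') (hf : Function.Injective f) (hadj : ∀ a b, G.Adj a b → G'.Adj (f a) (f b))
    (r : ℕ) (u v : V) (h : v ∈ WReach G (pull L f hf) r u) : f v ∈ WReach G' L r (f u) := by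
  obtain ⟨w, hp, hlen, hmin⟩ := h
  let g : G →g G' := ⟨f, fun {a b} hab => hadj a b hab⟩
  refine ⟨w.map g, SimpleGraph.Walk.IsPath.map hf hp, by simpa using hlen, ?_⟩
  intro x hx
  rw [SimpleGraph.Walk.support_map, List.mem_map] at hx
  obtain ⟨a, ha, rfl⟩ := hx
  exact hmin a ha

lemma sreach_map {V V' : Type*} {G : SimpleGraph V} {G' : SimpleGraph V'} (L : LinearOrder V')
    (f : V → V') (hf : Function.Injective f) (hadj : ∀ a b, G.Adj a b → G'.Adj (f a) (f b))
    (r : ℕ) (u v : V) (h : v ∈ SReach G (pull L f hf) r u) : f v ∈ SReach G' L r (f u) := by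
  obtain ⟨hle, w, hp, hlen, hint⟩ := h
  let g : G →g G' := ⟨f, fun {a b} hab => hadj a b hab⟩
  refine ⟨hle, w.map g, SimpleGraph.Walk.IsPath.map hf hp, by simpa using hlen, ?_⟩
  intro x hx hxu hxv
  rw [SimpleGraph.Walk.support_map, List.mem_map] at hx
  obtain ⟨a, ha, rfl⟩ := hx
  exact hint a ha (fun h => hxu (by rw [h]; rfl)) (fun h => hxv (by rw [h]; rfl))

lemma mem_wreach_of_walk {V : Type*} {G : SimpleGraph V} (L : LinearOrder V) {r : ℕ} {u v : V}
    (w : G.Walk u v) (hlen : w.length ≤ r) (hmin : ∀ x ∈ w.support, L.le v x) :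
    v ∈ WReach G L r u := by
  classical
  exact ⟨w.bypass, w.bypass_isPath, (w.length_bypass_le_length).trans hlen,
    fun x hx => hmin x (w.support_bypass_subset_support hx)⟩

end Pool.Agent.H67.PC
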