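import Mathlib
import Pool.Agent.H67.PC.Subdiv

/-! The recursive graphs whose subdivisions have large weak colouring numbers. -/

namespace Pool.Agent.H67.PC

open Sum

/-- One step of the recursion: `N` copies of `A` are attached to each vertex of a core copy. -/
def NextRel {α : Type} {N : ℕ} (A : SimpleGraph α) :
    α ⊕ (α × Fin N × α) → α ⊕ (α × Fin N × α) → Prop
  | inl a, inl b => A.Adj a b
  | inl a, inr (u, _, _) => a = u
  | inr (u, _, _), inl a => a = u
  | inr (u, i, w), inr (u', i', w') => u = u' ∧ i = i' ∧ A.Adj w w'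

/-- `N` copies of `A` are attached to each vertex of a core copy of `A`. -/
def Next {α : Type} (N : ℕ) (A : SimpleGraph α) : SimpleGraph (α ⊕ (α × Fin N × α)) where
  Adj := NextRel A
  symm := ⟨by
    rintro (a | ⟨u, i, w⟩) (b | ⟨u', i', w'⟩) h
    · exact A.symm.symm _ _ h
    · exact h
    · exact h
    · exact ⟨h.1.symm, h.2.1.symm, A.symm.symm _ _ h.2.2⟩⟩
  loopless := ⟨by
    rintro (a | ⟨u, i, w⟩) h
    · exact A.loopless.irrefl _ h
    · exact A.loopless.irrefl _ h.2.2⟩

/-- Vertices of the `k`-th tower graph. -/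
def AV (N : ℕ) : ℕ → Type
  | 0 => Unit
  | k + 1 => AV N k ⊕ (AV N k × Fin N × AV N k)

/-- The tower graphs. -/
def Tower (N : ℕ) : ∀ k, SimpleGraph (AV N k)
  | 0 => ⊥
  | k + 1 => Next N (Tower N k)

lemma finite_AV (N : ℕ) : ∀ k, Finite (AV N k)
  | 0 => inferInstanceAs (Finite Unit)
  | k + 1 => by
    have := finite_AV N k
    exact inferInstanceAs (Finite (AV N k ⊕ (AV N k × Fin N × AV N k)))

/-- Functoriality of subdivisions. -/
def subMap {α α' : Type} {m : ℕ} (g : α → α') : SubV α m → SubV α' m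
  | inl a => inl (g a)
  | inr (b, c, s) => inr (g b, g c, s)

lemma subMap_injective {α α' : Type} {m : ℕ} {g : α → α'} (hg : Function.Injective g) :
    Function.Injective (subMap (m := m) g) := by
  rintro (a | ⟨b, c, s⟩) (a' | ⟨b', c', s'⟩) h
  · simp only [subMap, inl.injEq] at h
    rw [hg h]
  · simp [subMap] at h
  · simp [subMap] at h
  · simp only [subMap, inr.injEq, Prod.mk.injEq] at h
    rw [hg h.1, hg h.2.1, h.2.2]

lemma subMap_adj {α α' : Type} {m : ℕ} {A : SimpleGraph α} {A' : SimpleGraph α'} {g : α → α'}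
    (hadj : ∀ a b, A.Adj a b → A'.Adj (g a) (g b)) (x y : SubV α m) (h : (Sub A m).Adj x y) :
    (Sub A' m).Adj (subMap g x) (subMap g y) := by
  have key : ∀ x y : SubV α m, SubRel A m x y → SubRel A' m (subMap g x) (subMap g y) := by
    rintro (a | ⟨b, c, s⟩) (a' | ⟨b', c', s'⟩) h
    · exact h
    · exact ⟨by rw [h.1], hadj _ _ h.2.1, h.2.2⟩
    · exact ⟨by rw [h.1], hadj _ _ h.2.1, h.2.2⟩
    · exact ⟨by rw [h.1], by rw [h.2.1], hadj _ _ h.2.2.1, h.2.2.2⟩
  rcases h with h | h
  · exact Or.inl (key _ _ h)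
  · exact Or.inr (key _ _ h)

/-- In every order some original vertex weakly reaches `2 ^ k` vertices. -/
def LB {α : Type} (A : SimpleGraph α) (m k : ℕ) : Prop :=
  ∀ L : LinearOrder (SubV α m), ∃ v : α, 2 ^ k ≤ (WReach (Sub A m) L (k * (m + 1)) (inl v)).ncard

lemma wreach_mono {V : Type*} {G : SimpleGraph V} (L : LinearOrder V) {r r' : ℕ} (h : r ≤ r')
    (u : V) : WReach G L r u ⊆ WReach G L r' u := by
  rintro v ⟨w, h1, h2, h3⟩
  exact ⟨w, h1, h2.trans h, h3⟩

lemma lb_zero (N m : ℕ) : LB (Tower N 0) m 0 := by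
  intro L
  refine ⟨(), ?_⟩
  have : Finite (SubV (AV N 0) m) := by
    have := finite_AV N 0
    infer_instance
  rw [pow_zero, Nat.one_le_iff_ne_zero, Ne, Set.ncard_eq_zero (Set.toFinite _), ← Ne,
    ← Set.nonempty_iff_ne_empty]
  exact ⟨inl (), SimpleGraph.Walk.nil, by simp, by simp, by
    intro x hx
    simp only [SimpleGraph.Walk.support_nil, List.mem_singleton] at hx
    rw [hx]⟩

lemma lb_next {α : Type} [Finite α] {A : SimpleGraph α} {m k N : ℕ} (hm : 1 ≤ m)
    (h : LB A m k) (hN : 2 ^ (k + 1) ≤ N) : LB (Next N A) m (k + 1) := by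
  classical
  intro L
  have hfin : Finite (SubV (α ⊕ (α × Fin N × α)) m) := inferInstance
  have ginj : Function.Injective (inl : α → α ⊕ (α × Fin N × α)) := inl_injective
  obtain ⟨u, hu⟩ := h (pull L (subMap inl) (subMap_injective ginj))
  have cinj : ∀ i : Fin N, Function.Injective (fun w : α => (inr (u, i, w) : α ⊕ (α × Fin N × α))) := by
    intro i a b hab
    simpa using hab
  have hcopy : ∀ i : Fin N, ∃ w, 2 ^ k ≤ (WReach (Sub A m)
      (pull L (subMap (fun w : α => (inr (u, i, w) : α ⊕ (α × Fin N × α))))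
        (subMap_injective (cinj i))) (k * (m + 1)) (inl w)).ncard := fun i => h _
  choose w hw using hcopy
  set y : SubV (α ⊕ (α × Fin N × α)) m := inl (inl u) with hy
  set P : Fin N → ℕ → SubV (α ⊕ (α × Fin N × α)) m := fun i s =>
    pos (inl u) (inr (u, i, w i)) s with hP
  have hP0 : ∀ i, P i 0 = y := fun i => by simp [hP, pos, hy]
  have hPm : ∀ i, P i (m + 1) = inl (inr (u, i, w i)) := fun i => by simp [hP, pos]
  have hPadj : ∀ i s, s < m + 1 → (Sub (Next N A) m).Adj (P i s) (P i (s + 1)) := by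
    intro i s hs
    exact pos_adj hm (show (Next N A).Adj (inl u) (inr (u, i, w i)) from rfl) (by omega)
  by_cases hcase : ∃ i, ∀ s, s ≤ m + 1 → L.le y (P i s)
  · obtain ⟨i, hi⟩ := hcase
    refine ⟨inr (u, i, w i), ?_⟩
    set X1 := (subMap (m := m) (inl : α → α ⊕ (α × Fin N × α))) ''
      (WReach (Sub A m) (pull L (subMap inl) (subMap_injective ginj)) (k * (m + 1)) (inl u)) with hX1
    set X2 := (subMap (m := m) (fun w : α => (inr (u, i, w) : α ⊕ (α × Fin N × α)))) ''
      (WReach (Sub A m) (pull L (subMap (fun w : α => (inr (u, i, w) : α ⊕ (α × Fin N × α))))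
        (subMap_injective (cinj i))) (k * (m + 1)) (inl (w i))) with hX2
    have hc1 : 2 ^ k ≤ X1.ncard := by
      rw [hX1, Set.ncard_image_of_injective _ (subMap_injective ginj)]
      exact hu
    have hc2 : 2 ^ k ≤ X2.ncard := by
      rw [hX2, Set.ncard_image_of_injective _ (subMap_injective (cinj i))]
      exact hw i
    have hdisj : Disjoint X1 X2 := by
      rw [Set.disjoint_left]
      rintro x ⟨a, _, rfl⟩ ⟨b, _, hb⟩
      rcases a with a | ⟨a1, a2, s⟩ <;> rcases b with b | ⟨b1, b2, s'⟩ <;> simp [subMap] at hb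
    have hsub : X1 ∪ X2 ⊆ WReach (Sub (Next N A) m) L ((k + 1) * (m + 1)) (inl (inr (u, i, w i))) := by
      rintro x (⟨a, ha, rfl⟩ | ⟨a, ha, rfl⟩)
      · have h1 := wreach_map (G' := Sub (Next N A) m) L (subMap inl) (subMap_injective ginj)
          (subMap_adj (A' := Next N A) (fun a b hab => hab)) _ _ _ ha
        obtain ⟨w1, _, hlen, hmin⟩ := h1
        obtain ⟨w2, hlen2, hsup2⟩ := exists_walk_of_seq (P i) (m + 1) (hPadj i)
        have hw2 : ∃ w3 : (Sub (Next N A) m).Walk (inl (inr (u, i, w i))) y,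
            w3.length = m + 1 ∧ ∀ x ∈ w3.support, ∃ s, s ≤ m + 1 ∧ x = P i s := by
          rw [← hP0 i, ← hPm i]
          exact ⟨w2.reverse, by simpa using hlen2, fun x hx => hsup2 x (by simpa using hx)⟩
        obtain ⟨w3, hlen3, hsup3⟩ := hw2
        have hle : L.le (subMap inl a) y := hmin _ w1.start_mem_support
        refine mem_wreach_of_walk L (w3.append w1) ?_ ?_
        · rw [SimpleGraph.Walk.length_append, hlen3]
          calc m + 1 + w1.length ≤ m + 1 + k * (m + 1) := by omega
            _ = (k + 1) * (m + 1) := by ring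
        · intro x hx
          rw [SimpleGraph.Walk.mem_support_append_iff] at hx
          rcases hx with hx | hx
          · obtain ⟨s, hs, rfl⟩ := hsup3 x hx
            exact L.le_trans _ _ _ hle (hi s hs)
          · exact hmin x hx
      · have h1 := wreach_map (G' := Sub (Next N A) m) L
          (subMap (fun w : α => (inr (u, i, w) : α ⊕ (α × Fin N × α)))) (subMap_injective (cinj i))
          (subMap_adj (A' := Next N A) (fun a b hab => ⟨rfl, rfl, hab⟩)) _ _ _ ha
        exact wreach_mono L (Nat.mul_le_mul_right _ (by omega)) _ h1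
    calc 2 ^ (k + 1) = 2 ^ k + 2 ^ k := by ring
      _ ≤ X1.ncard + X2.ncard := add_le_add hc1 hc2
      _ = (X1 ∪ X2).ncard := (Set.ncard_union_eq hdisj (Set.toFinite _) (Set.toFinite _)).symm
      _ ≤ _ := Set.ncard_le_ncard hsub (Set.toFinite _)
  · push Not at hcase
    refine ⟨inl u, ?_⟩
    have hex : ∀ i, ∃ s, s ≤ m + 1 ∧ L.lt (P i s) y := by
      intro i
      obtain ⟨s, hs, hlt⟩ := hcase i
      exact ⟨s, hs, hlt⟩
    set s : Fin N → ℕ := fun i => Nat.find (hex i) with hs
    have hs1 : ∀ i, s i ≤ m + 1 := fun i => (Nat.find_spec (hex i)).1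
    have hs2 : ∀ i, L.lt (P i (s i)) y := fun i => (Nat.find_spec (hex i)).2
    have hs3 : ∀ i s', s' < s i → L.le y (P i s') := by
      intro i s' hs'
      have h1 := Nat.find_min (hex i) hs'
      push Not at h1
      exact le_of_not_gt (fun hlt => absurd hlt (not_lt.mpr (h1 (by have := hs1 i; omega))))
    have hs0 : ∀ i, s i ≠ 0 := by
      intro i h0
      have h1 := hs2 i
      rw [h0, hP0] at h1
      exact absurd h1 (lt_irrefl y)
    have hinj : Function.Injective fun i => P i (s i) := by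
      intro i i' hii
      have h1 := hs0 i
      have h2 := hs0 i'
      simp only [hP, pos, h1, h2, ↓reduceIte] at hii
      split_ifs at hii
      · simp only [inr.injEq, Prod.mk.injEq] at hii
        exact hii.2.1.2.1
      · simp only [inl.injEq, inr.injEq, Prod.mk.injEq] at hii
        exact hii.2.1
    have hsub : Set.range (fun i => P i (s i)) ⊆
        WReach (Sub (Next N A) m) L ((k + 1) * (m + 1)) (inl (inl u)) := by
      rintro x ⟨i, rfl⟩
      obtain ⟨w2, hlen2, hsup2⟩ := exists_walk_of_seq (P i) (s i)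
        (fun s' hs' => hPadj i s' (by have := hs1 i; omega))
      have hw2 : ∃ w3 : (Sub (Next N A) m).Walk y (P i (s i)),
            w3.length = s i ∧ ∀ x ∈ w3.support, ∃ s', s' ≤ s i ∧ x = P i s' := by
        rw [← hP0 i]
        exact ⟨w2, hlen2, hsup2⟩
      obtain ⟨w3, hlen3, hsup3⟩ := hw2
      refine mem_wreach_of_walk L w3 ?_ ?_
      · rw [hlen3]
        refine (hs1 i).trans ?_
        exact Nat.le_mul_of_pos_left _ (by omega)
      · intro x hx
        obtain ⟨s', hs', rfl⟩ := hsup3 x hx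
        rcases Nat.lt_or_eq_of_le hs' with h | h
        · exact L.le_trans _ _ _ (le_of_lt (hs2 i)) (hs3 i s' h)
        · rw [h]
    calc 2 ^ (k + 1) ≤ N := hN
      _ = (Set.range (fun i => P i (s i))).ncard := by
        rw [← Set.image_univ, Set.ncard_image_of_injective _ hinj, Set.ncard_univ]
        simp
      _ ≤ _ := Set.ncard_le_ncard hsub (Set.toFinite _)

lemma lb_tower (N m : ℕ) (hm : 1 ≤ m) : ∀ k, 2 ^ k ≤ N → LB (Tower N k) m k
  | 0, _ => lb_zero N m
  | k + 1, h => by
    have := finite_AV N k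
    have h1 : 2 ^ k ≤ N := by
      refine le_trans ?_ h
      exact Nat.pow_le_pow_right (by norm_num) (by omega)
    exact lb_next (α := AV N k) hm (lb_tower N m hm k h1) h

end Pool.Agent.H67.PC
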