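import Mathlib
import Pool.Agent.H67.PC.Tower

/-! The natural order on the towers and their subdivisions. -/

namespace Pool.Agent.H67.PC

open Sum

/-- The lexicographic order on `α ⊕ (β × γ × δ)`. -/
@[reducible] noncomputable def lexOrder {α β γ δ : Type} (MA : LinearOrder α) (MB : LinearOrder β)
    (MC : LinearOrder γ) (MD : LinearOrder δ) : LinearOrder (α ⊕ (β × γ × δ)) :=
  letI := MA; letI := MB; letI := MC; letI := MD
  LinearOrder.lift' (fun x : α ⊕ (β × γ × δ) =>
    (match x with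
    | inl a => toLex (inl a)
    | inr (b, c, d) => toLex (inr (toLex (b, toLex (c, d)))) : α ⊕ₗ (β ×ₗ (γ ×ₗ δ)))) (by
      rintro (a | ⟨b, c, d⟩) (a' | ⟨b', c', d'⟩) h
      · simpa using h
      · simp at h
      · simp at h
      · simpa using h)

section
variable {α β γ δ : Type} (MA : LinearOrder α) (MB : LinearOrder β)
    (MC : LinearOrder γ) (MD : LinearOrder δ)

lemma lex_inl_inl (a a' : α) : (lexOrder MA MB MC MD).le (inl a) (inl a') ↔ MA.le a a' := by
  let _ := MA; let _ := MB; let _ := MC; let _ := MD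
  show (toLex (inl a) : α ⊕ₗ (β ×ₗ (γ ×ₗ δ))) ≤ toLex (inl a') ↔ a ≤ a'
  exact Sum.Lex.inl_le_inl_iff

lemma lex_inl_inl_lt (a a' : α) : (lexOrder MA MB MC MD).lt (inl a) (inl a') ↔ MA.lt a a' := by
  let _ := MA; let _ := MB; let _ := MC; let _ := MD
  show (toLex (inl a) : α ⊕ₗ (β ×ₗ (γ ×ₗ δ))) < toLex (inl a') ↔ a < a'
  exact Sum.Lex.inl_lt_inl_iff

lemma lex_inl_inr (a : α) (t : β × γ × δ) : (lexOrder MA MB MC MD).lt (inl a) (inr t) := by
  let _ := MA; let _ := MB; let _ := MC; let _ := MD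
  obtain ⟨b, c, d⟩ := t
  show (toLex (inl a) : α ⊕ₗ (β ×ₗ (γ ×ₗ δ))) < toLex (inr (toLex (b, toLex (c, d))))
  exact Sum.Lex.inl_lt_inr _ _

lemma lex_inr_inr (b : β) (c : γ) (d d' : δ) :
    (lexOrder MA MB MC MD).le (inr (b, c, d)) (inr (b, c, d')) ↔ MD.le d d' := by
  let _ := MA; let _ := MB; let _ := MC; let _ := MD
  show (toLex (inr (toLex (b, toLex (c, d)))) : α ⊕ₗ (β ×ₗ (γ ×ₗ δ))) ≤
    toLex (inr (toLex (b, toLex (c, d')))) ↔ d ≤ d'
  rw [Sum.Lex.inr_le_inr_iff, Prod.Lex.toLex_le_toLex]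
  simp [Prod.Lex.toLex_le_toLex]

lemma lex_inr_inr_lt (b : β) (c : γ) (d d' : δ) :
    (lexOrder MA MB MC MD).lt (inr (b, c, d)) (inr (b, c, d')) ↔ MD.lt d d' := by
  let _ := MA; let _ := MB; let _ := MC; let _ := MD
  show (toLex (inr (toLex (b, toLex (c, d)))) : α ⊕ₗ (β ×ₗ (γ ×ₗ δ))) <
    toLex (inr (toLex (b, toLex (c, d')))) ↔ d < d'
  rw [Sum.Lex.inr_lt_inr_iff, Prod.Lex.toLex_lt_toLex]
  simp [Prod.Lex.toLex_lt_toLex]

lemma not_lex_inr_inl (a : α) (t : β × γ × δ) : ¬ (lexOrder MA MB MC MD).le (inr t) (inl a) := by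
  have h := lex_inl_inr MA MB MC MD a t
  let _ := lexOrder MA MB MC MD
  exact not_le.mpr h

end

/-- The smaller vertices adjacent to a vertex reached from `v` above `v`. -/
def Back {V : Type*} (G : SimpleGraph V) (L : LinearOrder V) (v : V) : Set V :=
  {x | L.lt x v ∧ ∃ p, Reach G {y | L.le v y} v p ∧ G.Adj p x}

lemma sreach_subset {V : Type*} (G : SimpleGraph V) (L : LinearOrder V) (r : ℕ) (v : V) :
    SReach G L r v ⊆ insert v (Back G L v) := by
  rintro x ⟨hle, w, _, _, hint⟩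
  by_cases hxv : x = v
  · exact Or.inl hxv
  · refine Or.inr ⟨lt_of_le_of_ne hle hxv, ?_⟩
    have hreach : Reach G {a | a ∈ w.support} v x := reach_of_walk w (fun a ha => ha)
    obtain ⟨p, q, hp, hpq, hqB, _⟩ := cross (B := {x}) (by simpa using Ne.symm hxv) (by simp) hreach
    have hq : q = x := by simpa using hqB
    subst hq
    refine ⟨p, hp.mono ?_, hpq⟩
    rintro a ⟨ha, haq⟩
    by_cases hav : a = v
    · rw [hav]; exact L.le_refl _
    · exact le_of_lt (hint a ha hav (by simpa using haq))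

lemma reach_next {α : Type} {N : ℕ} {A : SimpleGraph α} (M : LinearOrder α)
    (MN : LinearOrder (Fin N)) (a : α) {p : α ⊕ (α × Fin N × α)}
    (h : Reach (Next N A) {y | (lexOrder M M MN M).le (inl a) y} (inl a) p) :
    (∃ c, p = inl c ∧ Reach A {y | M.le a y} a c) ∨
      ∃ u i w, p = inr (u, i, w) ∧ Reach A {y | M.le a y} a u := by
  induction h with
  | refl => exact Or.inl ⟨a, rfl, Relation.ReflTransGen.refl⟩
  | tail h1 h2 ih =>
    rename_i p q
    obtain ⟨hadj, hq⟩ := h2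
    rcases ih with ⟨c, rfl, hc⟩ | ⟨u, i, w, rfl, hu⟩
    · rcases q with c' | ⟨u, i, w⟩
      · refine Or.inl ⟨c', rfl, Relation.ReflTransGen.tail hc ⟨hadj, ?_⟩⟩
        exact (lex_inl_inl M M MN M a c').mp hq
      · have hadj' : c = u := hadj
        subst hadj'
        exact Or.inr ⟨c, i, w, rfl, hc⟩
    · rcases q with c' | ⟨u', i', w'⟩
      · have hadj' : c' = u := hadj
        subst hadj'
        exact Or.inl ⟨c', rfl, hu⟩
      · have hadj' : u = u' ∧ i = i' ∧ A.Adj w w' := hadj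
        obtain ⟨rfl, rfl, _⟩ := hadj'
        exact Or.inr ⟨u, i, w', rfl, hu⟩

lemma reach_next' {α : Type} {N : ℕ} {A : SimpleGraph α} (M : LinearOrder α)
    (MN : LinearOrder (Fin N)) (u : α) (i : Fin N) (w : α) {p : α ⊕ (α × Fin N × α)}
    (h : Reach (Next N A) {y | (lexOrder M M MN M).le (inr (u, i, w)) y} (inr (u, i, w)) p) :
    ∃ w', p = inr (u, i, w') ∧ Reach A {y | M.le w y} w w' := by
  induction h with
  | refl => exact ⟨w, rfl, Relation.ReflTransGen.refl⟩
  | tail h1 h2 ih =>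
    rename_i p q
    obtain ⟨hadj, hq⟩ := h2
    obtain ⟨w', rfl, hw'⟩ := ih
    rcases q with c' | ⟨u', i', w''⟩
    · exact (not_lex_inr_inl M M MN M c' (u, i, w) hq).elim
    · have hadj' : u = u' ∧ i = i' ∧ A.Adj w' w'' := hadj
      obtain ⟨rfl, rfl, h3⟩ := hadj'
      exact ⟨w'', rfl, Relation.ReflTransGen.tail hw' ⟨h3, (lex_inr_inr M M MN M u i w w'').mp hq⟩⟩

lemma back_next {α : Type} [Finite α] {N k : ℕ} {A : SimpleGraph α} (M : LinearOrder α)
    (MN : LinearOrder (Fin N)) (h : ∀ a, (Back A M a).ncard ≤ k) (v : α ⊕ (α × Fin N × α)) :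
    (Back (Next N A) (lexOrder M M MN M) v).ncard ≤ k + 1 := by
  rcases v with a | ⟨u, i, w⟩
  · have hsub : Back (Next N A) (lexOrder M M MN M) (inl a) ⊆ inl '' Back A M a := by
      rintro x ⟨hlt, p, hp, hpx⟩
      rcases x with b | t
      · have hlt' : M.lt b a := (lex_inl_inl_lt M M MN M b a).mp hlt
        refine ⟨b, ⟨hlt', ?_⟩, rfl⟩
        rcases reach_next M MN a hp with ⟨c, rfl, hc⟩ | ⟨u, i, w, rfl, hu⟩
        · exact ⟨c, hc, hpx⟩
        · have hb : b = u := hpx
          subst hb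
          have h1 : M.le a b := Reach.mem hu (M.le_refl a)
          exact absurd hlt' (by let _ := M; exact not_lt.mpr h1)
      · exact (not_lex_inr_inl M M MN M a t
          (@le_of_lt _ (lexOrder M M MN M).toPreorder _ _ hlt)).elim
    refine (Set.ncard_le_ncard hsub (Set.toFinite _)).trans ?_
    rw [Set.ncard_image_of_injective _ inl_injective]
    exact (h a).trans (Nat.le_succ k)
  · have hsub : Back (Next N A) (lexOrder M M MN M) (inr (u, i, w)) ⊆
        insert (inl u) ((fun w' => inr (u, i, w')) '' Back A M w) := by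
      rintro x ⟨hlt, p, hp, hpx⟩
      obtain ⟨w', rfl, hw'⟩ := reach_next' M MN u i w hp
      rcases x with b | ⟨u', i', w''⟩
      · have hb : b = u := hpx
        rw [hb]
        exact Or.inl rfl
      · have hadj' : u = u' ∧ i = i' ∧ A.Adj w' w'' := hpx
        obtain ⟨rfl, rfl, h3⟩ := hadj'
        exact Or.inr ⟨w'', ⟨(lex_inr_inr_lt M M MN M u i w'' w).mp hlt, w', hw', h3⟩, rfl⟩
    refine (Set.ncard_le_ncard hsub (Set.toFinite _)).trans ?_
    refine (Set.ncard_insert_le _ _).trans ?_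
    have h1 := Set.ncard_image_le (f := fun w' => (inr (u, i, w') : α ⊕ (α × Fin N × α)))
      (Set.toFinite (Back A M w))
    have h2 := h w
    omega

/-- The natural order on the towers. -/
lemma exists_tower_order (N : ℕ) : ∀ k, ∃ M : LinearOrder (AV N k), ∀ a,
    (Back (Tower N k) M a).ncard ≤ k
  | 0 => by
    obtain ⟨M⟩ : Nonempty (LinearOrder (AV N 0)) := ⟨inferInstanceAs (LinearOrder Unit)⟩
    refine ⟨M, fun a => ?_⟩
    have : Back (Tower N 0) M a = ∅ := by
      ext x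
      simp only [Set.mem_empty_iff_false, iff_false]
      rintro ⟨h, _⟩
      have hxa : x = a := by
        have : Subsingleton (AV N 0) := inferInstanceAs (Subsingleton Unit)
        exact Subsingleton.elim _ _
      rw [hxa] at h
      exact absurd h (lt_irrefl a)
    rw [this]
    simp
  | k + 1 => by
    obtain ⟨M, hM⟩ := exists_tower_order N k
    have := finite_AV N k
    exact ⟨lexOrder M M inferInstance M, back_next (α := AV N k) M inferInstance hM⟩

end Pool.Agent.H67.PC
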