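import Mathlib
import Pool.Agent.H67.PC.Defs

/-! Polynomial strong colouring numbers give polynomial expansion. -/

namespace Pool.Agent.H67.PC

open Finset

lemma first_below {V : Type*} {G : SimpleGraph V} (L : LinearOrder V) (u : V) {a v : V}
    (w : G.Walk a v) (hv : L.lt v u) (ha : L.le u a) :
    ∃ q, L.lt q u ∧ q ∈ w.support ∧ ∃ w' : G.Walk a q, w'.length ≤ w.length ∧
      ∀ x ∈ w'.support, x ≠ q → L.le u x := by
  let _ := L
  induction w with
  | nil => exact absurd hv (not_lt.mpr ha)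
  | cons h p ih =>
    rename_i a b v
    by_cases hb : b < u
    · refine ⟨b, hb, by simp, SimpleGraph.Walk.cons h SimpleGraph.Walk.nil, by simp, ?_⟩
      intro x hx hxb
      simp only [SimpleGraph.Walk.support_cons, SimpleGraph.Walk.support_nil, List.mem_cons,
        List.not_mem_nil, or_false] at hx
      rcases hx with hx | hx
      · rw [hx]; exact ha
      · exact absurd hx hxb
    · obtain ⟨q, hq1, hq2, w', hw1, hw2⟩ := ih hv (not_lt.mp hb)
      refine ⟨q, hq1, by simp [hq2], SimpleGraph.Walk.cons h w', ?_, ?_⟩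
      · simp only [SimpleGraph.Walk.length_cons]; omega
      · intro x hx hxq
        simp only [SimpleGraph.Walk.support_cons, List.mem_cons] at hx
        rcases hx with hx | hx
        · rw [hx]; exact ha
        · exact hw2 x hx hxq

theorem minor_edges_le {V W : Type*} [Finite V] [Fintype W] {G : SimpleGraph V}
    (L : LinearOrder V) {r k : ℕ} (hk : ∀ u, (SReach G L (4 * r + 1) u).ncard ≤ k)
    {H : SimpleGraph W} (hH : IsDepthMinor r H G) : H.edgeSet.ncard ≤ k * Fintype.card W := by
  classical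
  let _ := L
  obtain ⟨S, hrad, hdisj, hadj⟩ := hH
  have hmin : ∀ a, ∃ m ∈ S a, ∀ x ∈ S a, m ≤ x := by
    intro a
    obtain ⟨c, hc, _⟩ := hrad a
    exact Set.exists_min_image (S a) id (Set.toFinite _) ⟨c, hc⟩
  choose m hm1 hm2 using hmin
  have huniq : ∀ a b x, x ∈ S a → x ∈ S b → a = b := by
    intro a b x ha hb
    by_contra h
    exact Set.disjoint_left.mp (hdisj a b h) ha hb
  have hminj : Function.Injective m := fun a b hab => huniq a b (m a) (hm1 a) (hab ▸ hm1 b)
  -- for an edge `a b` with `m b < m a` a vertex of `S b` is strongly reachable from `m a`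
  have hreach : ∀ a b, H.Adj a b → m b < m a → ∃ q ∈ S b, q ∈ SReach G L (4 * r + 1) (m a) := by
    intro a b hab hlt
    obtain ⟨ca, hca, ra⟩ := hrad a
    obtain ⟨cb, hcb, rb⟩ := hrad b
    obtain ⟨x, hx, y, hy, hxy⟩ := hadj a b hab
    obtain ⟨w1, l1, s1⟩ := ra (m a) (hm1 a)
    obtain ⟨w2, l2, s2⟩ := ra x hx
    obtain ⟨w3, l3, s3⟩ := rb y hy
    obtain ⟨w4, l4, s4⟩ := rb (m b) (hm1 b)
    set w : G.Walk (m a) (m b) :=
      (w1.reverse.append w2).append (SimpleGraph.Walk.cons hxy (w3.reverse.append w4)) with hw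
    have hlen : w.length ≤ 4 * r + 1 := by
      simp only [hw, SimpleGraph.Walk.length_append, SimpleGraph.Walk.length_reverse,
        SimpleGraph.Walk.length_cons]
      omega
    have hsup : ∀ z ∈ w.support, z ∈ S a ∨ z ∈ S b := by
      intro z hz
      simp only [hw, SimpleGraph.Walk.mem_support_append_iff, SimpleGraph.Walk.support_reverse,
        List.mem_reverse, SimpleGraph.Walk.support_cons, List.mem_cons] at hz
      rcases hz with (hz | hz) | hz | hz | hz
      · exact Or.inl (s1 z hz)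
      · exact Or.inl (s2 z hz)
      · exact Or.inl (hz ▸ hx)
      · exact Or.inr (s3 z hz)
      · exact Or.inr (s4 z hz)
    obtain ⟨q, hq1, hq2, w', hw1, hw2⟩ := first_below L (m a) w hlt le_rfl
    have hq1' : q < m a := hq1
    refine ⟨q, ?_, ?_⟩
    · rcases hsup q hq2 with h | h
      · exact absurd hq1' (not_lt.mpr (hm2 a q h))
      · exact h
    · refine ⟨hq1'.le, w'.bypass, w'.bypass_isPath, ?_, ?_⟩
      · exact (w'.length_bypass_le_length.trans hw1).trans hlen
      · intro z hz hza hzq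
        have h1 : m a ≤ z := hw2 z (w'.support_bypass_subset_support hz) hzq
        exact lt_of_le_of_ne h1 (Ne.symm hza)
  set X : Finset (W × W) := univ.filter (fun p => H.Adj p.1 p.2 ∧ m p.2 < m p.1) with hX
  have h1 : H.edgeSet.ncard ≤ X.card := by
    have h2 : H.edgeSet ⊆ ((X.image (fun p => s(p.1, p.2)) : Finset (Sym2 W)) : Set (Sym2 W)) := by
      intro e he
      induction e using Sym2.ind with
      | _ a b =>
        have hab : H.Adj a b := he
        simp only [Finset.coe_image, Set.mem_image, Finset.mem_coe]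
        rcases lt_trichotomy (m a) (m b) with h | h | h
        · exact ⟨(b, a), by simp only [hX, mem_filter, mem_univ, true_and]; exact ⟨hab.symm, h⟩,
            Sym2.eq_swap⟩
        · exact absurd (hminj h) hab.ne
        · exact ⟨(a, b), by simp only [hX, mem_filter, mem_univ, true_and]; exact ⟨hab, h⟩, rfl⟩
    refine (Set.ncard_le_ncard h2 (Finset.finite_toSet _)).trans ?_
    rw [Set.ncard_coe_finset]
    exact Finset.card_image_le
  refine h1.trans ?_
  refine (Finset.card_le_mul_card_image (f := Prod.fst) X k ?_).trans ?_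
  · intro a _
    refine le_trans ?_ (hk (m a))
    have hsel : ∀ p : W × W, ∃ q, p ∈ X.filter (fun p => p.1 = a) →
        q ∈ S p.2 ∧ q ∈ SReach G L (4 * r + 1) (m a) := by
      intro p
      by_cases hp : p ∈ X.filter (fun p => p.1 = a)
      · have hp' := hp
        simp only [hX, mem_filter, mem_univ, true_and] at hp'
        obtain ⟨⟨h2, h3⟩, h4⟩ := hp'
        subst h4
        obtain ⟨q, hq1, hq2⟩ := hreach p.1 p.2 h2 h3
        exact ⟨q, fun _ => ⟨hq1, hq2⟩⟩
      · exact ⟨m a, fun h => absurd h hp⟩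
    choose q hq using hsel
    have h5 : ((X.filter (fun p => p.1 = a)).card) =
        ((X.filter (fun p => p.1 = a) : Finset (W × W)) : Set (W × W)).ncard := by
      rw [Set.ncard_coe_finset]
    rw [h5]
    refine Set.ncard_le_ncard_of_injOn q ?_ ?_ (Set.toFinite _)
    · intro p hp
      exact (hq p hp).2
    · intro p hp p' hp' heq
      have e1 := (hq p hp).1
      have e2 := (hq p' hp').1
      have e3 : p.2 = p'.2 := huniq _ _ (q p) e1 (heq ▸ e2)
      have e4 : p.1 = a := (Finset.mem_filter.mp hp).2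
      have e5 : p'.1 = a := (Finset.mem_filter.mp hp').2
      exact Prod.ext (e4.trans e5.symm) e3
  · exact Nat.mul_le_mul_left _ (Finset.card_le_univ _)

lemma exists_order_col {V : Type*} [Finite V] (G : SimpleGraph V) (r : ℕ) :
    ∃ L : LinearOrder V, ∀ u, (SReach G L r u).ncard ≤ col G r := by
  have hne : {k | ∃ L : LinearOrder V, ∀ u, (SReach G L r u).ncard ≤ k}.Nonempty := by
    have := Fintype.ofFinite V
    obtain ⟨L⟩ : Nonempty (LinearOrder V) :=
      ⟨LinearOrder.lift' (Fintype.equivFin V) (Fintype.equivFin V).injective⟩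
    refine ⟨Nat.card V, L, fun u => ?_⟩
    exact Set.ncard_le_card _
  exact Nat.sInf_mem hne

theorem expansion_of_polyCol (C : GraphClass) (hC : PolyCol C) : PolyExpansion C := by
  obtain ⟨c, K, h⟩ := hC
  set n0 : ℕ := ⌈c⌉₊ with hn0
  refine ⟨Polynomial.C |K| * (Polynomial.C 4 * Polynomial.X + 1) ^ n0, ?_⟩
  intro r n G hG m H hH
  obtain ⟨L, hL⟩ := exists_order_col G (4 * r + 1)
  have h1 := minor_edges_le L hL hH
  rw [Fintype.card_fin] at h1
  have h2 : (H.edgeSet.ncard : ℝ) ≤ (col G (4 * r + 1) : ℝ) * m := by exact_mod_cast h1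
  refine h2.trans (mul_le_mul_of_nonneg_right ?_ (Nat.cast_nonneg m))
  have h3 := h (4 * r + 1) (by omega) n G hG
  refine h3.trans ?_
  simp only [Polynomial.eval_mul, Polynomial.eval_C, Polynomial.eval_pow, Polynomial.eval_add,
    Polynomial.eval_X, Polynomial.eval_one]
  have hbase : (1 : ℝ) ≤ ((4 * r + 1 : ℕ) : ℝ) := by push_cast; linarith [Nat.cast_nonneg (α := ℝ) r]
  have h4 : ((4 * r + 1 : ℕ) : ℝ) ^ c ≤ ((4 * r + 1 : ℕ) : ℝ) ^ n0 := by
    rw [← Real.rpow_natCast]
    exact Real.rpow_le_rpow_of_exponent_le hbase (Nat.le_ceil c)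
  have h5 : (0 : ℝ) ≤ ((4 * r + 1 : ℕ) : ℝ) ^ c := by positivity
  have h6 : ((4 * r + 1 : ℕ) : ℝ) = 4 * r + 1 := by push_cast; ring
  rw [← h6]
  calc K * ((4 * r + 1 : ℕ) : ℝ) ^ c ≤ |K| * ((4 * r + 1 : ℕ) : ℝ) ^ c :=
        mul_le_mul_of_nonneg_right (le_abs_self K) h5
    _ ≤ |K| * ((4 * r + 1 : ℕ) : ℝ) ^ n0 := mul_le_mul_of_nonneg_left h4 (abs_nonneg K)

end Pool.Agent.H67.PC
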