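import Mathlib
import Pool.Agent.H67.PC.Natural
import Pool.Agent.H67.PC.Norin

/-! A monotone class with linear strong and superpolynomial weak colouring numbers. -/

namespace Pool.Agent.H67.PC

open Sum

section
variable {α : Type} {A : SimpleGraph α} {m : ℕ} (M : LinearOrder α)

lemma reach_sub (MF : LinearOrder (Fin m)) (a : α) {p : SubV α m}
    (h : Reach (Sub A m) {y | (lexOrder M M M MF).le (inl a) y} (inl a) p) :
    (∃ c, p = inl c ∧ Reach A {y | M.le a y} a c) ∨
      ∃ c c' s, p = inr (c, c', s) ∧ A.Adj c c' ∧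
        (Reach A {y | M.le a y} a c ∨ Reach A {y | M.le a y} a c') := by
  induction h with
  | refl => exact Or.inl ⟨a, rfl, Relation.ReflTransGen.refl⟩
  | tail h1 h2 ih =>
    rename_i p q
    obtain ⟨hadj, hq⟩ := h2
    rcases ih with ⟨c, rfl, hc⟩ | ⟨c, c', s, rfl, hcc, hc⟩
    · rcases q with d | ⟨d, d', s⟩
      · rcases hadj with h | h <;> exact h.elim
      · rcases hadj with h | h
        · obtain ⟨h1, h2, _⟩ := h
          subst h1
          exact Or.inr ⟨c, d', s, rfl, h2, Or.inl hc⟩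
        · obtain ⟨h1, h2, _⟩ := h
          subst h1
          exact Or.inr ⟨d, c, s, rfl, h2, Or.inr hc⟩
    · rcases q with d | ⟨d, d', s'⟩
      · have hd : M.le a d := (lex_inl_inl M M M MF a d).mp hq
        rcases hadj with h | h
        · obtain ⟨h1, h2, _⟩ := h
          subst h1
          rcases hc with hc | hc
          · exact Or.inl ⟨d, rfl, Relation.ReflTransGen.tail hc ⟨h2, hd⟩⟩
          · exact Or.inl ⟨d, rfl, hc⟩
        · obtain ⟨h1, h2, _⟩ := h
          subst h1
          rcases hc with hc | hc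
          · exact Or.inl ⟨d, rfl, hc⟩
          · exact Or.inl ⟨d, rfl, Relation.ReflTransGen.tail hc ⟨h2.symm, hd⟩⟩
      · rcases hadj with h | h
        · obtain ⟨h1, h2, _⟩ := h
          subst h1; subst h2
          exact Or.inr ⟨d, d', s', rfl, hcc, hc⟩
        · obtain ⟨h1, h2, _⟩ := h
          subst h1; subst h2
          exact Or.inr ⟨_, _, s', rfl, hcc, hc⟩

lemma back_sub_inl (MF : LinearOrder (Fin m)) (a : α) :
    Back (Sub A m) (lexOrder M M M MF) (inl a) ⊆ inl '' Back A M a := by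
  rintro x ⟨hlt, p, hp, hpx⟩
  rcases x with b | t
  · have hlt' : M.lt b a := (lex_inl_inl_lt M M M MF b a).mp hlt
    have hno : ¬ Reach A {y | M.le a y} a b := by
      intro h
      have h1 : M.le a b := Reach.mem h (M.le_refl a)
      exact absurd hlt' (@not_lt_of_ge _ M.toPreorder _ _ h1)
    refine ⟨b, ⟨hlt', ?_⟩, rfl⟩
    rcases reach_sub M MF a hp with ⟨c, rfl, hc⟩ | ⟨c, c', s, rfl, hcc, hc⟩
    · rcases hpx with h | h <;> exact h.elim
    · rcases hpx with h | h
      · obtain ⟨h1, h2, _⟩ := h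
        subst h1
        rcases hc with hc | hc
        · exact ⟨c, hc, hcc⟩
        · exact absurd hc hno
      · obtain ⟨h1, h2, _⟩ := h
        subst h1
        rcases hc with hc | hc
        · exact absurd hc hno
        · exact ⟨c', hc, hcc.symm⟩
  · exact (not_lex_inr_inl M M M MF a t
      (@le_of_lt _ (lexOrder M M M MF).toPreorder _ _ hlt)).elim

lemma reach_sub' (MF : LinearOrder (Fin m)) (c c' : α) (s : Fin m) {p : SubV α m}
    (h : Reach (Sub A m) {y | (lexOrder M M M MF).le (inr (c, c', s)) y} (inr (c, c', s)) p) :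
    ∃ s', p = inr (c, c', s') ∧ MF.le s s' := by
  induction h with
  | refl => exact ⟨s, rfl, MF.le_refl s⟩
  | tail h1 h2 ih =>
    rename_i p q
    obtain ⟨hadj, hq⟩ := h2
    obtain ⟨s', rfl, hs'⟩ := ih
    rcases q with d | ⟨d, d', s''⟩
    · exact (not_lex_inr_inl M M M MF d (c, c', s) hq).elim
    · have : c = d ∧ c' = d' := by
        rcases hadj with h | h
        · exact ⟨h.1.symm, h.2.1.symm⟩
        · exact ⟨h.1, h.2.1⟩
      obtain ⟨rfl, rfl⟩ := this
      exact ⟨s'', rfl, (lex_inr_inr M M M MF c c' s s'').mp hq⟩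

lemma back_sub_inr (c c' : α) (s : Fin m) :
    (Back (Sub A m) (lexOrder M M M inferInstance) (inr (c, c', s))).ncard ≤ 3 := by
  classical
  set T : Set (SubV α m) := {x | ∃ s' : Fin m, s'.val + 1 = s.val ∧ x = inr (c, c', s')} with hT
  have hTsub : T.Subsingleton := by
    rintro x ⟨s1, h1, rfl⟩ y ⟨s2, h2, rfl⟩
    have : s1 = s2 := Fin.ext (by omega)
    rw [this]
  have hTfin : T.Finite := hTsub.finite
  have hsub : Back (Sub A m) (lexOrder M M M inferInstance) (inr (c, c', s)) ⊆
      insert (inl c) (insert (inl c') T) := by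
    rintro x ⟨hlt, p, hp, hpx⟩
    obtain ⟨s', rfl, hs'⟩ := reach_sub' M inferInstance c c' s hp
    have hs1 : s.val ≤ s'.val := hs'
    rcases x with d | ⟨d, d', s''⟩
    · rcases hpx with h | h
      · rw [h.1]; exact Or.inr (Or.inl rfl)
      · rw [h.1]; exact Or.inl rfl
    · have : c = d ∧ c' = d' ∧ (s''.val = s'.val + 1 ∨ s'.val = s''.val + 1) := by
        rcases hpx with h | h
        · exact ⟨h.1.symm, h.2.1.symm, Or.inl h.2.2.2⟩
        · exact ⟨h.1, h.2.1, Or.inr h.2.2.2⟩
      obtain ⟨rfl, rfl, h3⟩ := this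
      have h4 : s'' < s := (lex_inr_inr_lt M M M inferInstance c c' s'' s).mp hlt
      have h5 : s''.val < s.val := h4
      exact Or.inr (Or.inr ⟨s'', by omega, rfl⟩)
  have h1 : T.ncard ≤ 1 := by
    have : Finite T := hTfin
    exact Set.ncard_le_one_iff_subsingleton.mpr hTsub
  have h2 := Set.ncard_insert_le (inl c' : SubV α m) T
  have h3 := Set.ncard_insert_le (inl c : SubV α m) (insert (inl c') T)
  have h4 := Set.ncard_le_ncard hsub ((hTfin.insert _).insert _)
  omega

end

/-- A potential function measuring the distance from an original vertex. -/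
noncomputable def pot {α : Type} (m : ℕ) (a : α) : SubV α m → ℕ := by
  classical
  exact fun x => match x with
  | inl c => if c = a then 0 else m + 1
  | inr (c, c', s) => if c = a then s.val + 1 else if c' = a then m - s.val else m + 1

lemma pot_rel {α : Type} {A : SimpleGraph α} {m : ℕ} (a : α) {x y : SubV α m}
    (h : SubRel A m x y) : pot m a y ≤ pot m a x + 1 ∧ pot m a x ≤ pot m a y + 1 := by
  classical
  rcases x with c | ⟨c, c', s⟩ <;> rcases y with d | ⟨d, d', s'⟩
  · exact h.elim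
  · obtain ⟨rfl, h2, h3⟩ := h
    have hne : c ≠ d' := h2.ne
    unfold pot
    dsimp only
    by_cases h1 : c = a
    · simp [h1, h3]
    · by_cases h4 : d' = a
      · simp only [h1, h4, h3, ↓reduceIte]
        omega
      · simp [h1, h4]
  · obtain ⟨rfl, h2, h3⟩ := h
    have hne : c ≠ d := h2.ne
    unfold pot
    dsimp only
    by_cases h1 : c = a
    · have h5 : d ≠ a := fun h => hne (h1.trans h.symm)
      simp only [h1, h5, ↓reduceIte]
      omega
    · by_cases h4 : d = a
      · simp only [h1, h4, ↓reduceIte]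
        omega
      · simp only [h1, h4, ↓reduceIte]
        omega
  · obtain ⟨rfl, rfl, h2, h3⟩ := h
    unfold pot
    dsimp only
    have := s.2
    have := s'.2
    split_ifs <;> omega

lemma pot_walk {α : Type} {A : SimpleGraph α} {m : ℕ} (a : α) {x y : SubV α m}
    (w : (Sub A m).Walk x y) : pot m a y ≤ pot m a x + w.length := by
  induction w with
  | nil => simp
  | cons h p ih =>
    rename_i u v w
    rw [SimpleGraph.Walk.length_cons]
    have h1 : pot m a v ≤ pot m a u + 1 := by
      rcases h with h | h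
      · exact (pot_rel a h).1
      · exact (pot_rel a h).2
    omega

lemma sub_length {α : Type} {A : SimpleGraph α} {m : ℕ} {a b : α} (hab : b ≠ a)
    (w : (Sub A m).Walk (inl a) (inl b)) : m + 1 ≤ w.length := by
  classical
  have := pot_walk a w
  simpa [pot, hab] using this

lemma sreach_sub {α : Type} [Finite α] {A : SimpleGraph α} {m k : ℕ} (M : LinearOrder α)
    (h : ∀ a, (Back A M a).ncard ≤ k) (hk : k ≤ m) (r : ℕ) (v : SubV α m) :
    (SReach (Sub A m) (lexOrder M M M inferInstance) r v).ncard ≤ r + 4 := by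
  rcases v with a | ⟨c, c', s⟩
  · rcases Nat.lt_or_ge m r with hr | hr
    · have h1 := Set.ncard_le_ncard (sreach_subset (Sub A m) (lexOrder M M M inferInstance) r
        (inl a)) (Set.toFinite _)
      have h2 := Set.ncard_insert_le (inl a : SubV α m)
        (Back (Sub A m) (lexOrder M M M inferInstance) (inl a))
      have h3 := Set.ncard_le_ncard (back_sub_inl (A := A) (m := m) M inferInstance a)
        (Set.toFinite _)
      rw [Set.ncard_image_of_injective _ inl_injective] at h3
      have h4 := h a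
      omega
    · have hsub : SReach (Sub A m) (lexOrder M M M inferInstance) r (inl a) ⊆ {inl a} := by
        rintro x ⟨hle, w, _, hlen, _⟩
        rcases x with b | t
        · by_cases hab : b = a
          · rw [hab]; rfl
          · have := sub_length hab w
            omega
        · exact (not_lex_inr_inl M M M inferInstance a t hle).elim
      have h1 := Set.ncard_le_ncard hsub (Set.toFinite _)
      rw [Set.ncard_singleton] at h1
      omega
  · have h1 := Set.ncard_le_ncard (sreach_subset (Sub A m) (lexOrder M M M inferInstance) r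
        (inr (c, c', s))) (Set.toFinite _)
    have h2 := Set.ncard_insert_le (inr (c, c', s) : SubV α m)
        (Back (Sub A m) (lexOrder M M M inferInstance) (inr (c, c', s)))
    have h3 := back_sub_inr (A := A) M c c' s
    omega

/-- The class of all subgraphs of the subdivided towers. -/
def TowerClass : GraphClass := fun n => {G | ∃ k : ℕ, ∃ f : Fin n → SubV (AV (2 ^ k) k) (k + 1),
  Function.Injective f ∧ ∀ a b, G.Adj a b → (Sub (Tower (2 ^ k) k) (k + 1)).Adj (f a) (f b)}

lemma towerClass_monotone : Monotone TowerClass := by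
  rintro n G ⟨k, f, hf, hadj⟩ m H ⟨g, hg, hgadj⟩
  exact ⟨k, f ∘ g, hf.comp hg, fun a b hab => hadj _ _ (hgadj a b hab)⟩

lemma towerClass_col {n : ℕ} {G : SimpleGraph (Fin n)} (hG : G ∈ TowerClass n) (r : ℕ) :
    col G r ≤ r + 4 := by
  obtain ⟨k, f, hf, hadj⟩ := hG
  obtain ⟨M, hM⟩ := exists_tower_order (2 ^ k) k
  have := finite_AV (2 ^ k) k
  refine Nat.sInf_le ⟨pull (lexOrder M M M inferInstance) f hf, fun u => ?_⟩
  refine le_trans ?_ (sreach_sub (A := Tower (2 ^ k) k) (m := k + 1) M hM (Nat.le_succ k) r (f u))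
  refine Set.ncard_le_ncard_of_injOn f ?_ (hf.injOn) (Set.toFinite _)
  intro v hv
  exact sreach_map _ f hf hadj r u v hv

lemma towerClass_polyCol : PolyCol TowerClass := by
  refine ⟨1, 5, fun r hr n G hG => ?_⟩
  rw [Real.rpow_one]
  have h1 := towerClass_col hG r
  have h2 : col G r ≤ 5 * r := by omega
  exact_mod_cast h2

lemma exists_order_wcol {V : Type*} [Finite V] (G : SimpleGraph V) (r : ℕ) :
    ∃ L : LinearOrder V, ∀ u, (WReach G L r u).ncard ≤ wcol G r := by
  have hne : {k | ∃ L : LinearOrder V, ∀ u, (WReach G L r u).ncard ≤ k}.Nonempty := by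
    have := Fintype.ofFinite V
    obtain ⟨L⟩ : Nonempty (LinearOrder V) :=
      ⟨LinearOrder.lift' (Fintype.equivFin V) (Fintype.equivFin V).injective⟩
    refine ⟨Nat.card V, L, fun u => ?_⟩
    exact Set.ncard_le_card _
  exact Nat.sInf_mem hne

lemma towerClass_wcol (k : ℕ) : ∃ (n : ℕ) (G : SimpleGraph (Fin n)), G ∈ TowerClass n ∧
    2 ^ k ≤ wcol G (k * (k + 2)) := by
  have := finite_AV (2 ^ k) k
  have hfin : Finite (SubV (AV (2 ^ k) k) (k + 1)) := inferInstance
  obtain ⟨n, ⟨e⟩⟩ := Finite.exists_equiv_fin (SubV (AV (2 ^ k) k) (k + 1))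
  set G : SimpleGraph (Fin n) := (Sub (Tower (2 ^ k) k) (k + 1)).comap e.symm with hG
  have hadj : ∀ a b, (Sub (Tower (2 ^ k) k) (k + 1)).Adj a b → G.Adj (e a) (e b) := by
    intro a b hab
    simp only [hG, SimpleGraph.comap_adj, Equiv.symm_apply_apply]
    exact hab
  refine ⟨n, G, ⟨k, e.symm, e.symm.injective, fun a b hab => hab⟩, ?_⟩
  obtain ⟨L, hL⟩ := exists_order_wcol G (k * (k + 2))
  obtain ⟨v, hv⟩ := lb_tower (2 ^ k) (k + 1) (by omega) k le_rfl (pull L e e.injective)
  refine hv.trans (le_trans ?_ (hL (e (inl v))))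
  refine Set.ncard_le_ncard_of_injOn e ?_ (e.injective.injOn) (Set.toFinite _)
  intro x hx
  exact wreach_map L e e.injective hadj _ _ x hx

lemma towerClass_not_polyWcol : ¬ PolyWcol TowerClass := by
  rintro ⟨c, K, h⟩
  set n0 : ℕ := ⌈c⌉₊ with hn0
  have htend := tendsto_pow_const_div_const_pow_of_one_lt (2 * n0) (r := (2 : ℝ)) (by norm_num)
  set D : ℝ := |K| * 3 ^ n0 + 1 with hD
  have hD0 : 0 < D := by positivity
  have hev := (htend.eventually_lt_const (show (0 : ℝ) < 1 / D by positivity)).and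
    (Filter.eventually_ge_atTop 1)
  obtain ⟨k, hk1, hk2⟩ := hev.exists
  obtain ⟨n, G, hG, hw⟩ := towerClass_wcol k
  have hr : 1 ≤ k * (k + 2) := by
    have : 1 * 1 ≤ k * (k + 2) := Nat.mul_le_mul hk2 (by omega)
    omega
  have h1 := h (k * (k + 2)) hr n G hG
  have h2 : ((2 : ℝ) ^ k) ≤ (wcol G (k * (k + 2)) : ℝ) := by exact_mod_cast hw
  have hbase : (1 : ℝ) ≤ ((k * (k + 2) : ℕ) : ℝ) := by exact_mod_cast hr
  have h3 : ((k * (k + 2) : ℕ) : ℝ) ^ c ≤ ((k * (k + 2) : ℕ) : ℝ) ^ n0 := by
    rw [← Real.rpow_natCast]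
    exact Real.rpow_le_rpow_of_exponent_le hbase (Nat.le_ceil c)
  have h4 : ((k * (k + 2) : ℕ) : ℝ) ≤ 3 * (k : ℝ) ^ 2 := by
    have : k * (k + 2) ≤ 3 * k ^ 2 := by nlinarith
    exact_mod_cast this
  have h5 : ((k * (k + 2) : ℕ) : ℝ) ^ n0 ≤ (3 * (k : ℝ) ^ 2) ^ n0 :=
    pow_le_pow_left₀ (by positivity) h4 n0
  have h6 : (3 * (k : ℝ) ^ 2) ^ n0 = 3 ^ n0 * (k : ℝ) ^ (2 * n0) := by
    rw [mul_pow, ← pow_mul]
  have h7 : K * ((k * (k + 2) : ℕ) : ℝ) ^ c ≤ |K| * (3 ^ n0 * (k : ℝ) ^ (2 * n0)) := by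
    calc K * ((k * (k + 2) : ℕ) : ℝ) ^ c ≤ |K| * ((k * (k + 2) : ℕ) : ℝ) ^ c :=
          mul_le_mul_of_nonneg_right (le_abs_self K) (by positivity)
      _ ≤ |K| * (3 ^ n0 * (k : ℝ) ^ (2 * n0)) := by
          apply mul_le_mul_of_nonneg_left _ (abs_nonneg K)
          linarith
  have h8 : (k : ℝ) ^ (2 * n0) * D < 2 ^ k := by
    rw [div_lt_div_iff₀ (by positivity) hD0, one_mul] at hk1
    exact hk1
  have h9 : |K| * (3 ^ n0 * (k : ℝ) ^ (2 * n0)) ≤ (k : ℝ) ^ (2 * n0) * D := by
    have h10 : (0 : ℝ) ≤ (k : ℝ) ^ (2 * n0) := by positivity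
    have h11 : (k : ℝ) ^ (2 * n0) * D = |K| * (3 ^ n0 * (k : ℝ) ^ (2 * n0)) + (k : ℝ) ^ (2 * n0) := by
      rw [hD]; ring
    linarith
  linarith

end Pool.Agent.H67.PC
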