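import Mathlib
import Pool.Agent.H67.PC.Count

/-! Choosing sources at random and building a dense shallow minor. -/

namespace Pool.Agent.H67.PC

open Finset

variable {V : Type*} [Fintype V] [DecidableEq V]

lemma choose_sources {ι : Type*} (I : Finset ι) (lam : ι → ℝ) (hlam : ∀ i ∈ I, 0 ≤ lam i)
    (hsum : ∑ i ∈ I, lam i = 1) (w : ι → ι → ℝ) (hw : ∀ i j, w i j = w j i)
    (hw0 : ∀ i j, 0 ≤ w i j) {δ o : ℝ} (hδ0 : 0 ≤ δ)
    (hδ : ∀ i ∈ I, ∑ i' ∈ I, lam i' * w i i' ≤ δ) (t : ℕ) (ht : t * δ < o) :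
    ∃ c : Fin t → ι, (∀ a, c a ∈ I) ∧ ∀ a b, a ≠ b → w (c a) (c b) ≤ o := by
  classical
  have hne : I.Nonempty := by
    rw [Finset.nonempty_iff_ne_empty]
    intro h
    rw [h] at hsum
    simp at hsum
  obtain ⟨i0, hi0⟩ := hne
  have main : ∀ k : ℕ, k ≤ t → ∃ c : ℕ → ι, (∀ a, a < k → c a ∈ I) ∧
      ∀ a b, a < k → b < k → a ≠ b → w (c a) (c b) ≤ o := by
    intro k
    induction k with
    | zero => intro _; exact ⟨fun _ => i0, by simp, by simp⟩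
    | succ k ih =>
      intro hk
      obtain ⟨c, hc1, hc2⟩ := ih (by omega)
      have h1 : ∑ i' ∈ I, lam i' * ∑ a ∈ range k, w (c a) i' < ∑ i' ∈ I, lam i' * o := by
        have e1 : ∑ i' ∈ I, lam i' * ∑ a ∈ range k, w (c a) i' =
            ∑ a ∈ range k, ∑ i' ∈ I, lam i' * w (c a) i' := by
          simp_rw [Finset.mul_sum]
          rw [Finset.sum_comm]
        have e2 : ∑ a ∈ range k, ∑ i' ∈ I, lam i' * w (c a) i' ≤ ∑ a ∈ range k, δ :=
          Finset.sum_le_sum fun a ha => hδ _ (hc1 a (Finset.mem_range.mp ha))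
        have e3 : ∑ a ∈ range k, δ = k * δ := by simp
        have e4 : (k : ℝ) * δ ≤ t * δ := by
          refine mul_le_mul_of_nonneg_right ?_ hδ0
          have : k ≤ t := by omega
          exact_mod_cast this
        rw [← Finset.sum_mul, hsum, one_mul]
        linarith
      obtain ⟨i, hi, hlt⟩ := Finset.exists_lt_of_sum_lt h1
      have h2 : ∑ a ∈ range k, w (c a) i < o := lt_of_mul_lt_mul_left hlt (hlam i hi)
      refine ⟨Function.update c k i, ?_, ?_⟩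
      · intro a ha
        by_cases hak : a = k
        · subst hak; simpa using hi
        · rw [Function.update_of_ne hak]
          exact hc1 a (by omega)
      · have h3 : ∀ a, a < k → w (c a) i ≤ o := by
          intro a ha
          exact (Finset.single_le_sum (f := fun a => w (c a) i) (fun a _ => hw0 _ _)
            (Finset.mem_range.mpr ha)).trans h2.le
        intro a b ha hb hab
        by_cases hak : a = k
        · subst hak
          have hbk : b < a := by omega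
          rw [Function.update_self, Function.update_of_ne (by omega), hw]
          exact h3 b hbk
        · by_cases hbk : b = k
          · subst hbk
            rw [Function.update_self, Function.update_of_ne hak]
            exact h3 a (by omega)
          · rw [Function.update_of_ne hak, Function.update_of_ne hbk]
            exact hc2 a b (by omega) (by omega) hab
  obtain ⟨c, h1, h2⟩ := main t le_rfl
  refine ⟨fun a => c a, fun a => h1 a a.2, fun a b hab => h2 a b a.2 b.2 ?_⟩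
  intro h
  exact hab (Fin.ext h)

lemma numerics {C t R Q : ℝ} (hC : 1 ≤ C) (ht : 1 ≤ t) (hR : 1 ≤ R)
    (hQ : 5001 * C ^ 4 * t ^ 7 * R ^ 3 ≤ Q) :
    2 * (t * (C * (1 / (50 * C ^ 2 * t ^ 3)) ^ 2 + 2 * (1 / (50 * C ^ 2 * t ^ 3)) * t ^ 2
      + (1 / (50 * C ^ 2 * t ^ 3)) ^ 2 / (1 / (50 * C ^ 2 * t ^ 3))))
      + 1 / Q * (t * (1 + t ^ 2 * R + R / (1 / (50 * C ^ 2 * t ^ 3)))) < 1 / (4 * C ^ 2) := by
  have hC0 : 0 < C := by linarith
  have ht0 : 0 < t := by linarith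
  have hR0 : 0 < R := by linarith
  have hbase : 0 < 5001 * C ^ 4 * t ^ 7 * R ^ 3 := by positivity
  have hQ0 : 0 < Q := lt_of_lt_of_le hbase hQ
  have e1 : 2 * (t * (C * (1 / (50 * C ^ 2 * t ^ 3)) ^ 2 + 2 * (1 / (50 * C ^ 2 * t ^ 3)) * t ^ 2
      + (1 / (50 * C ^ 2 * t ^ 3)) ^ 2 / (1 / (50 * C ^ 2 * t ^ 3)))) =
      (1 / C ^ 2) * (1 / 1250 * (1 / (C * t ^ 5)) + 2 / 25 + 1 / 25 * (1 / t ^ 2)) := by
    field_simp
    ring
  have e2 : 1 / Q * (t * (1 + t ^ 2 * R + R / (1 / (50 * C ^ 2 * t ^ 3)))) =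
      (t * (1 + t ^ 2 * R + 50 * C ^ 2 * t ^ 3 * R)) / Q := by
    field_simp
  rw [e1, e2]
  have h1 : 1 / (C * t ^ 5) ≤ 1 := by
    rw [div_le_one (by positivity)]
    have := one_le_pow₀ ht (n := 5)
    nlinarith
  have h2 : 1 / t ^ 2 ≤ 1 := by
    rw [div_le_one (by positivity)]
    exact one_le_pow₀ ht
  have h3 : (t * (1 + t ^ 2 * R + 50 * C ^ 2 * t ^ 3 * R)) / Q ≤ 1 / C ^ 2 * (52 / 5001) := by
    rw [div_le_iff₀ hQ0]
    have h4 : t * (1 + t ^ 2 * R + 50 * C ^ 2 * t ^ 3 * R) ≤ 52 * (C ^ 2 * t ^ 7 * R ^ 3) := by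
      have t7 : (1 : ℝ) ≤ t ^ 6 := one_le_pow₀ ht
      have t4 : (1 : ℝ) ≤ t ^ 4 := one_le_pow₀ ht
      have t3 : (1 : ℝ) ≤ t ^ 3 := one_le_pow₀ ht
      have c2 : (1 : ℝ) ≤ C ^ 2 := one_le_pow₀ hC
      have r2 : (1 : ℝ) ≤ R ^ 2 := one_le_pow₀ hR
      have r3 : (1 : ℝ) ≤ R ^ 3 := one_le_pow₀ hR
      have a1 : t * 1 ≤ C ^ 2 * t ^ 7 * R ^ 3 := by
        have : t * 1 = 1 * (t * 1) * 1 := by ring
        rw [this]
        have h5 : C ^ 2 * t ^ 7 * R ^ 3 = C ^ 2 * (t * t ^ 6) * R ^ 3 := by ring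
        rw [h5]
        gcongr
      have a2 : t * (t ^ 2 * R) ≤ C ^ 2 * t ^ 7 * R ^ 3 := by
        have : t * (t ^ 2 * R) = 1 * (t ^ 3 * 1) * (R * 1) := by ring
        rw [this]
        have h5 : C ^ 2 * t ^ 7 * R ^ 3 = C ^ 2 * (t ^ 3 * t ^ 4) * (R * R ^ 2) := by ring
        rw [h5]
        gcongr
      have a3 : t * (50 * C ^ 2 * t ^ 3 * R) ≤ 50 * (C ^ 2 * t ^ 7 * R ^ 3) := by
        have : t * (50 * C ^ 2 * t ^ 3 * R) = 50 * (C ^ 2 * (t ^ 4 * 1) * (R * 1)) := by ring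
        rw [this]
        have h5 : C ^ 2 * t ^ 7 * R ^ 3 = C ^ 2 * (t ^ 4 * t ^ 3) * (R * R ^ 2) := by ring
        rw [h5]
        gcongr
      linarith
    have h5 : 1 / C ^ 2 * (52 / 5001) * (5001 * C ^ 4 * t ^ 7 * R ^ 3) =
        52 * (C ^ 2 * t ^ 7 * R ^ 3) := by
      field_simp
    calc t * (1 + t ^ 2 * R + 50 * C ^ 2 * t ^ 3 * R) ≤ 52 * (C ^ 2 * t ^ 7 * R ^ 3) := h4
      _ = 1 / C ^ 2 * (52 / 5001) * (5001 * C ^ 4 * t ^ 7 * R ^ 3) := h5.symm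
      _ ≤ 1 / C ^ 2 * (52 / 5001) * Q := by
        apply mul_le_mul_of_nonneg_left hQ
        positivity
  have h6 : (1 / C ^ 2) * (1 / 1250 * (1 / (C * t ^ 5)) + 2 / 25 + 1 / 25 * (1 / t ^ 2)) ≤
      (1 / C ^ 2) * (1 / 1250 + 2 / 25 + 1 / 25) := by
    apply mul_le_mul_of_nonneg_left _ (by positivity)
    linarith
  have h7 : 1 / (4 * C ^ 2) = 1 / C ^ 2 * (1 / 4) := by
    field_simp
  rw [h7]
  have h8 : 0 < 1 / C ^ 2 := by positivity
  nlinarith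

theorem dense_minor {ι : Type*} {G : SimpleGraph V} (I : Finset ι) (lam : ι → ℝ)
    (hlam : ∀ i ∈ I, 0 ≤ lam i) (hsum : ∑ i ∈ I, lam i = 1) (y : ι → V) (D : ι → Finset V)
    (S : ι → V → Finset V) {mu : V → ℝ} (hmu : ∀ v, 0 ≤ mu v) (hmu1 : ∑ v, mu v ≤ 1)
    {R : ℕ} (hR1 : 1 ≤ R) {C Q : ℝ} (hC : 1 ≤ C)
    (hS : ∀ i ∈ I, ∀ u ∈ D i, ConnFrom G (y i) (S i u : Set V) ∧ u ∉ S i u ∧
      (∃ x ∈ S i u, G.Adj x u) ∧ (S i u).card < R)
    (hη : ∀ v, mu v ≤ 1 / Q) (hD : ∀ i ∈ I, 1 / C ≤ ∑ u ∈ D i, mu u)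
    (hav : ∀ v, ∑ i ∈ I, lam i * hit mu D S i v ≤ 2 * (R : ℝ) ^ 2 / Q)
    {t : ℕ} (ht : 2 * C ^ 2 ≤ t) (hQ : 5001 * C ^ 4 * (t : ℝ) ^ 7 * (R : ℝ) ^ 3 ≤ Q) :
    ∃ H : SimpleGraph (Fin t), IsDepthMinor R H G ∧
      (t : ℝ) ^ 2 / (8 * C ^ 2) ≤ H.edgeSet.ncard := by
  classical
  have hC0 : 0 < C := by linarith
  have ht1 : (1 : ℝ) ≤ t := by nlinarith
  have ht0 : (0 : ℝ) < t := by linarith
  have hRR : (1 : ℝ) ≤ R := by exact_mod_cast hR1
  have hR0 : (0 : ℝ) < R := by linarith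
  have hQ0 : 0 < Q := lt_of_lt_of_le (by positivity) hQ
  have hpos : ∀ c v, 0 ≤ hit mu D S c v := fun c v => hit_nonneg hmu c v
  have hRs : ∀ i ∈ I, ∑ x, hit mu D S i x ≤ R := by
    intro i hi
    rw [sum_hit]
    have h1 : ∑ u ∈ D i, mu u * (S i u).card ≤ ∑ u ∈ D i, mu u * R := by
      refine Finset.sum_le_sum fun u hu => mul_le_mul_of_nonneg_left ?_ (hmu u)
      exact_mod_cast (hS i hi u hu).2.2.2.le
    rw [← Finset.sum_mul] at h1
    have h2 : ∑ u ∈ D i, mu u ≤ 1 :=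
      (Finset.sum_le_sum_of_subset_of_nonneg (Finset.subset_univ _) fun u _ _ => hmu u).trans hmu1
    have h3 : (∑ u ∈ D i, mu u) * R ≤ 1 * R := mul_le_mul_of_nonneg_right h2 hR0.le
    linarith
  set K : ℝ := 1 / (50 * C ^ 2 * (t : ℝ) ^ 3) with hK
  have hK0 : 0 < K := by positivity
  obtain ⟨c, hc1, hc2⟩ := choose_sources I lam hlam hsum (fun i j => ovl mu D S i j)
    (fun i j => ovl_comm i j) (fun i j => Finset.sum_nonneg fun v _ => mul_nonneg (hpos i v) (hpos j v))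
    (δ := 2 * (R : ℝ) ^ 2 / Q * R) (o := K ^ 2) (by positivity) (by
      intro i hi
      have e1 : ∑ i' ∈ I, lam i' * ovl mu D S i i' =
          ∑ v, hit mu D S i v * ∑ i' ∈ I, lam i' * hit mu D S i' v := by
        unfold ovl
        simp_rw [Finset.mul_sum]
        rw [Finset.sum_comm]
        refine Finset.sum_congr rfl fun v _ => Finset.sum_congr rfl fun i' _ => ?_
        ring
      rw [e1]
      have e2 : ∑ v, hit mu D S i v * ∑ i' ∈ I, lam i' * hit mu D S i' v ≤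
          ∑ v, hit mu D S i v * (2 * (R : ℝ) ^ 2 / Q) :=
        Finset.sum_le_sum fun v _ => mul_le_mul_of_nonneg_left (hav v) (hpos i v)
      rw [← Finset.sum_mul] at e2
      have e3 : (∑ v, hit mu D S i v) * (2 * (R : ℝ) ^ 2 / Q) ≤ R * (2 * (R : ℝ) ^ 2 / Q) :=
        mul_le_mul_of_nonneg_right (hRs i hi) (by positivity)
      linarith) t (by
      rw [hK]
      have h1 : (t : ℝ) * (2 * (R : ℝ) ^ 2 / Q * R) = (2 * t * (R : ℝ) ^ 3) / Q := by
        field_simp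
      rw [h1, div_lt_iff₀ hQ0]
      have h2 : 2 * (t : ℝ) * (R : ℝ) ^ 3 * 5001 =
          (1 / (50 * C ^ 2 * (t : ℝ) ^ 3)) ^ 2 * (5001 * C ^ 4 * (t : ℝ) ^ 7 * (R : ℝ) ^ 3) * 5000 := by
        field_simp
        ring
      have h3 : (1 / (50 * C ^ 2 * (t : ℝ) ^ 3)) ^ 2 * (5001 * C ^ 4 * (t : ℝ) ^ 7 * (R : ℝ) ^ 3) ≤
          (1 / (50 * C ^ 2 * (t : ℝ) ^ 3)) ^ 2 * Q := mul_le_mul_of_nonneg_left hQ (by positivity)
      have h4 : 0 < 2 * (t : ℝ) * (R : ℝ) ^ 3 := by positivity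
      nlinarith)
  exact core_minor (y := fun a => y (c a)) (D := fun a => D (c a)) (S := fun a => S (c a))
    hmu hmu1 (fun a => hS (c a) (hc1 a)) hη (by positivity) hK0 (by positivity) hC
    (fun a => hD (c a) (hc1 a)) ht (fun a b hab => hc2 a b hab) (numerics hC ht1 hRR hQ)

end Pool.Agent.H67.PC
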