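import Mathlib

/-! Ville's theorem of the alternative. -/

namespace Pool.Agent.H67.PC

open Finset

theorem ville {ι α : Type*} [Fintype ι] [Fintype α] (a : ι → α → ℝ)
    (h : ∀ ζ : α → ℝ, (∀ v, 0 ≤ ζ v) → ∃ i, 0 ≤ ∑ v, a i v * ζ v) :
    ∃ ν : ι → ℝ, (∀ i, 0 ≤ ν i) ∧ 0 < ∑ i, ν i ∧ ∀ v, 0 ≤ ∑ i, ν i * a i v := by
  classical
  set O : Set (ι → ℝ) := {w | ∀ i, w i < 0} with hO
  set A : Set (ι → ℝ) := {w | ∃ ζ : α → ℝ, (∀ v, 0 ≤ ζ v) ∧ ∀ i, w i = ∑ v, a i v * ζ v} with hA
  have hOopen : IsOpen O := by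
    have : O = ⋂ i, {w : ι → ℝ | w i < 0} := by ext w; simp [hO]
    rw [this]
    exact isOpen_iInter_of_finite fun i => isOpen_lt (continuous_apply i) continuous_const
  have hOconv : Convex ℝ O := by
    intro x hx y hy s t hs ht hst i
    have h1 := hx i
    have h2 := hy i
    simp only [Pi.add_apply, Pi.smul_apply, smul_eq_mul]
    rcases hs.eq_or_lt with h3 | h3
    · have : t = 1 := by linarith
      subst this; rw [← h3]; linarith
    · have h4 := mul_neg_of_pos_of_neg h3 h1
      have h5 := mul_nonpos_of_nonneg_of_nonpos ht h2.le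
      linarith
  have hAconv : Convex ℝ A := by
    rintro x ⟨ζ, hζ, hx⟩ y ⟨ξ, hξ, hy⟩ s t hs ht hst
    refine ⟨fun v => s * ζ v + t * ξ v, fun v => add_nonneg (mul_nonneg hs (hζ v)) (mul_nonneg ht (hξ v)), ?_⟩
    intro i
    simp only [Pi.add_apply, Pi.smul_apply, smul_eq_mul, hx i, hy i]
    rw [Finset.mul_sum, Finset.mul_sum, ← Finset.sum_add_distrib]
    exact Finset.sum_congr rfl fun v _ => by ring
  have hdisj : Disjoint O A := by
    rw [Set.disjoint_left]
    rintro w hw ⟨ζ, hζ, hw'⟩
    obtain ⟨i, hi⟩ := h ζ hζ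
    have := hw i
    rw [hw' i] at this
    linarith
  obtain ⟨f, u, hf1, hf2⟩ := geometric_hahn_banach_open hOconv hOopen hAconv hdisj
  have hu0 : u ≤ 0 := by
    have := hf2 0 ⟨0, by simp, by simp⟩
    simpa using this
  set one : ι → ℝ := fun _ => 1 with hone
  have hneg : ∀ ε : ℝ, 0 < ε → -ε * f one < u := by
    intro ε hε
    have : (-ε) • one ∈ O := by
      intro i; simp [hone, hε]
    have h1 := hf1 _ this
    rwa [map_smul, smul_eq_mul] at h1
  have hf1pos : 0 < f one := by
    have := hneg 1 one_pos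
    linarith
  have hu : u = 0 := by
    refine le_antisymm hu0 ?_
    by_contra hcon
    push Not at hcon
    have h1 := hneg (-u / (2 * f one)) (by
      apply div_pos (by linarith) (by linarith))
    have h2 : -(-u / (2 * f one)) * f one = u / 2 := by
      field_simp
    linarith
  subst hu
  set ν : ι → ℝ := fun i => f (Pi.single i 1) with hν
  have hfsum : ∀ w : ι → ℝ, f w = ∑ i, w i * ν i := by
    intro w
    have : w = ∑ i, w i • (Pi.single i 1 : ι → ℝ) := by
      ext j
      simp [Finset.sum_apply, Pi.single_apply]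
    conv_lhs => rw [this]
    rw [map_sum]
    exact Finset.sum_congr rfl fun i _ => by rw [map_smul, smul_eq_mul]
  refine ⟨ν, ?_, ?_, ?_⟩
  · intro i
    by_contra hcon
    push Not at hcon
    have hm : -(Pi.single i 1 : ι → ℝ) - (-ν i / (2 * f one)) • one ∈ O := by
      intro j
      have hp : 0 < -ν i / (2 * f one) := div_pos (by linarith) (by linarith)
      simp only [Pi.sub_apply, Pi.neg_apply, Pi.smul_apply, smul_eq_mul, hone, mul_one]
      have : 0 ≤ (Pi.single i (1 : ℝ) : ι → ℝ) j := by
        by_cases hij : j = i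
        · subst hij; simp
        · simp [hij]
      linarith
    have h1 := hf1 _ hm
    rw [map_sub, map_neg, map_smul, smul_eq_mul] at h1
    have h2 : -ν i / (2 * f one) * f one = -ν i / 2 := by field_simp
    rw [h2] at h1
    have h3 : f (Pi.single i 1) = ν i := rfl
    rw [h3] at h1
    linarith
  · have := hfsum one
    simp only [hone, one_mul] at this
    rw [← this]
    exact hf1pos
  · intro v
    have h1 := hf2 (fun i => a i v) ⟨Pi.single v 1, ?_, ?_⟩
    · rw [hfsum] at h1
      simpa [mul_comm] using h1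
    · intro w
      by_cases hij : w = v
      · subst hij; simp
      · simp [hij]
    · intro i
      simp [Pi.single_apply]

end Pool.Agent.H67.PC
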