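import Mathlib
import Pool.Agent.H67.PC.Dense
import Pool.Agent.H67.PC.Ville

/-! Good sets and their extension by one vertex. -/

namespace Pool.Agent.H67.PC

open Finset

variable {V : Type*} [Fintype V] [DecidableEq V]

/-- `S` is a connected set containing `y`, avoiding `P` and `u`, with a vertex adjacent to `u`. -/
def IsConn (G : SimpleGraph V) (P : Finset V) (y u : V) (S : Finset V) : Prop :=
  ConnFrom G y (S : Set V) ∧ Disjoint S P ∧ u ∉ S ∧ ∃ x ∈ S, G.Adj x u

/-- The cost of a set. -/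
def cost (z : V → ℝ) (S : Finset V) : ℝ := ∑ x ∈ S, (1 + z x)

/-- A valid selection of small connectors from `y` to the members of `D`. -/
def Valid (G : SimpleGraph V) (P : Finset V) (R : ℕ) (y : V) (D : Finset V) (S : V → Finset V) :
    Prop := ∀ u ∈ D, IsConn G P y u (S u) ∧ (S u).card < R

/-- The value of a selection. -/
noncomputable def Phi (R : ℝ) (z : V → ℝ) (D : Finset V) (S : V → Finset V) : ℝ :=
  ∑ u ∈ D, z u * (1 - cost z (S u) / R)

/-- Admissible fractional placements. -/
def Adm (G : SimpleGraph V) (Q : ℕ → ℝ) (P : Finset V) (z : V → ℝ) : Prop :=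
  (∀ v, 0 ≤ z v ∧ z v ≤ 1) ∧ (∀ v ∈ P, z v = 1) ∧
    ∀ (j : ℕ) (y : V) (D : Finset V) (S : V → Finset V), Valid G P (2 ^ j) y D S →
      Phi (2 ^ j) z D S ≤ Q j

/-- Good sets. -/
def Good (G : SimpleGraph V) (Q : ℕ → ℝ) (P : Finset V) : Prop := ∃ z, Adm G Q P z

lemma cost_nonneg {z : V → ℝ} (hz : ∀ v, 0 ≤ z v) (S : Finset V) : 0 ≤ cost z S :=
  Finset.sum_nonneg fun x _ => by have := hz x; linarith

lemma cost_le {z : V → ℝ} (hz : ∀ v, z v ≤ 1) (S : Finset V) : cost z S ≤ 2 * S.card := by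
  unfold cost
  have : ∑ x ∈ S, (1 + z x) ≤ ∑ x ∈ S, 2 := Finset.sum_le_sum fun x _ => by
    have := hz x; linarith
  simp only [sum_const, nsmul_eq_mul] at this
  linarith

lemma cost_union_le {z : V → ℝ} (hz : ∀ v, 0 ≤ z v) (S T : Finset V) :
    cost z (S ∪ T) ≤ cost z S + cost z T := by
  unfold cost
  rw [← Finset.sum_union_inter]
  exact le_add_of_nonneg_right (Finset.sum_nonneg fun x _ => by have := hz x; linarith)

lemma cost_mono {z : V → ℝ} (hz : ∀ v, 0 ≤ z v) {S T : Finset V} (h : S ⊆ T) :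
    cost z S ≤ cost z T :=
  Finset.sum_le_sum_of_subset_of_nonneg h fun x _ _ => by have := hz x; linarith

/-- The empty set is good. -/
lemma good_empty {G : SimpleGraph V} {Q : ℕ → ℝ} (hQ : ∀ j, 0 ≤ Q j) : Good G Q ∅ := by
  refine ⟨fun _ => 0, fun _ => ⟨le_rfl, zero_le_one⟩, by simp, ?_⟩
  intro j y D S _
  unfold Phi
  simpa using hQ j

lemma Phi_le_card {R : ℝ} (hR : 0 < R) {z : V → ℝ} (hz : ∀ v, 0 ≤ z v ∧ z v ≤ 1) (D : Finset V)
    (S : V → Finset V) : Phi R z D S ≤ Fintype.card V := by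
  unfold Phi
  have h1 : ∑ u ∈ D, z u * (1 - cost z (S u) / R) ≤ ∑ u ∈ D, 1 := by
    refine Finset.sum_le_sum fun u _ => ?_
    have h2 := div_nonneg (cost_nonneg (fun v => (hz v).1) (S u)) hR.le
    have h3 := hz u
    nlinarith [mul_nonneg h3.1 h2]
  refine h1.trans ?_
  simp only [sum_const, nsmul_eq_mul, mul_one]
  exact_mod_cast Finset.card_le_univ D

lemma continuous_Phi (R : ℝ) (D : Finset V) (S : V → Finset V) :
    Continuous fun z : V → ℝ => Phi R z D S := by
  unfold Phi cost
  refine continuous_finsetSum _ fun u _ => ?_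
  refine (continuous_apply u).mul ?_
  refine continuous_const.sub ?_
  refine Continuous.div_const ?_ _
  refine continuous_finsetSum _ fun x _ => ?_
  exact continuous_const.add (continuous_apply x)

lemma exists_max {G : SimpleGraph V} {Q : ℕ → ℝ} {P : Finset V} (h : Good G Q P) :
    ∃ z, Adm G Q P z ∧ ∀ z', Adm G Q P z' → ∑ v, z' v ≤ ∑ v, z v := by
  have hclosed : IsClosed {z : V → ℝ | Adm G Q P z} := by
    have : {z : V → ℝ | Adm G Q P z} = {z | ∀ v, 0 ≤ z v ∧ z v ≤ 1} ∩ ({z | ∀ v ∈ P, z v = 1} ∩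
        {z | ∀ (j : ℕ) (y : V) (D : Finset V) (S : V → Finset V), Valid G P (2 ^ j) y D S →
          Phi (2 ^ j) z D S ≤ Q j}) := by
      ext z; simp [Adm]
    rw [this]
    refine IsClosed.inter ?_ (IsClosed.inter ?_ ?_)
    · simp only [Set.ofPred_forall, Set.ofPred_and]
      refine isClosed_iInter fun v => IsClosed.inter ?_ ?_
      · exact isClosed_le continuous_const (continuous_apply v)
      · exact isClosed_le (continuous_apply v) continuous_const
    · simp only [Set.ofPred_forall]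
      refine isClosed_iInter fun v => isClosed_iInter fun _ => ?_
      exact isClosed_eq (continuous_apply v) continuous_const
    · simp only [Set.ofPred_forall]
      refine isClosed_iInter fun j => isClosed_iInter fun y => isClosed_iInter fun D =>
        isClosed_iInter fun S => isClosed_iInter fun _ => ?_
      exact isClosed_le (continuous_Phi _ D S) continuous_const
  have hcompact : IsCompact {z : V → ℝ | Adm G Q P z} := by
    refine IsCompact.of_isClosed_subset (isCompact_Icc (a := (fun _ => 0 : V → ℝ))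
      (b := (fun _ => 1 : V → ℝ))) hclosed ?_
    intro z hz
    exact ⟨fun v => (hz.1 v).1, fun v => (hz.1 v).2⟩
  obtain ⟨z, hz, hmax⟩ := hcompact.exists_isMaxOn (f := fun z : V → ℝ => ∑ v, z v) h
    (continuous_finsetSum _ fun v _ => continuous_apply v).continuousOn
  exact ⟨z, hz, fun z' hz' => hmax hz'⟩

/-- The first-order coefficient of a selection in the direction `v`. -/
noncomputable def coef (R : ℝ) (z : V → ℝ) (D : Finset V) (S : V → Finset V) (v : V) : ℝ :=
  (if v ∈ D then 1 - cost z (S v) / R else 0) -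
    hit z (fun _ : Unit => D) (fun _ : Unit => S) () v / R

lemma perturb {R : ℝ} (hR : 0 < R) {z ζ : V → ℝ} (hζ : ∀ v, 0 ≤ ζ v) {ε : ℝ}
    (D : Finset V) (S : V → Finset V) :
    Phi R (fun v => z v + ε * ζ v) D S ≤ Phi R z D S + ε * ∑ v, coef R z D S v * ζ v := by
  have h1 : ∑ v, coef R z D S v * ζ v = ∑ u ∈ D, ζ u * (1 - cost z (S u) / R) -
      (∑ u ∈ D, z u * ∑ x ∈ S u, ζ x) / R := by
    have h2 := swap_sum (mu := z) (D := fun _ : Unit => D) (S := fun _ : Unit => S) () ζ
    rw [h2, Finset.sum_div, ← Finset.sum_filter_add_sum_filter_not univ (fun v => v ∈ D)]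
    unfold coef
    simp_rw [sub_mul]
    rw [Finset.sum_filter_add_sum_filter_not, Finset.sum_sub_distrib]
    congr 1
    · have : ∀ x, (if x ∈ D then 1 - cost z (S x) / R else 0) * ζ x =
          if x ∈ D then ζ x * (1 - cost z (S x) / R) else 0 := by
        intro x; split_ifs <;> ring
      simp_rw [this]
      simp
    · exact Finset.sum_congr rfl fun x _ => by ring
  have h3 : Phi R (fun v => z v + ε * ζ v) D S = Phi R z D S +
      ε * (∑ u ∈ D, ζ u * (1 - cost z (S u) / R) - (∑ u ∈ D, z u * ∑ x ∈ S u, ζ x) / R) -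
      ε ^ 2 * (∑ u ∈ D, ζ u * ∑ x ∈ S u, ζ x) / R := by
    unfold Phi
    rw [mul_sub, Finset.sum_div, Finset.mul_sum, Finset.mul_sum, ← Finset.sum_sub_distrib,
      ← Finset.sum_add_distrib, Finset.mul_sum, Finset.sum_div, ← Finset.sum_sub_distrib]
    refine Finset.sum_congr rfl fun u _ => ?_
    have h4 : cost (fun v => z v + ε * ζ v) (S u) = cost z (S u) + ε * ∑ x ∈ S u, ζ x := by
      unfold cost
      rw [Finset.mul_sum, ← Finset.sum_add_distrib]
      exact Finset.sum_congr rfl fun x _ => by ring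
    rw [h4]
    field_simp
    ring
  rw [h3, h1]
  have h5 : 0 ≤ ε ^ 2 * (∑ u ∈ D, ζ u * ∑ x ∈ S u, ζ x) / R := by
    apply div_nonneg _ hR.le
    apply mul_nonneg (sq_nonneg _)
    exact Finset.sum_nonneg fun u _ => mul_nonneg (hζ u) (Finset.sum_nonneg fun x _ => hζ x)
  linarith

end Pool.Agent.H67.PC
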