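import Mathlib
import Pool.Agent.H67.PC.Good

/-! The contradiction from a stuck fractional placement. -/

namespace Pool.Agent.H67.PC

open Finset

variable {V : Type*} [Fintype V] [DecidableEq V]

/-- `x` can be joined to `y` by a connected set with at most `R` vertices avoiding `P`. -/
def Near (G : SimpleGraph V) (P : Finset V) (R : ℕ) (y x : V) : Prop :=
  ∃ T : Finset V, ConnFrom G y (T : Set V) ∧ x ∈ T ∧ Disjoint T P ∧ T.card ≤ R

/-- Turning a connector from `y` into a connector from `x`. -/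
lemma reroute {G : SimpleGraph V} {P : Finset V} {R : ℕ} {y x u : V} {S : Finset V}
    (hxy : Near G P R y x) (hS : IsConn G P y u S) (hxu : x ≠ u) :
    ∃ (T S' : Finset V), T.card ≤ R ∧ S' ⊆ T ∪ S ∧ IsConn G P x u S' := by
  classical
  obtain ⟨T, hT1, hT2, hT3, hT4⟩ := hxy
  obtain ⟨hc, hd, hu, p0, hp0, hpu⟩ := hS
  have hTx : ConnFrom G x (T : Set V) := hT1.recenter (by simpa using hT2)
  have hA : ConnFrom G x ((S : Set V) ∪ (T : Set V)) := hc.union hTx hT1.1
  set A : Set V := (S : Set V) ∪ (T : Set V) with hAdef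
  have hp0A : p0 ∈ A := Or.inl (by simpa using hp0)
  have hreach : Reach G (insert u A) x u :=
    Relation.ReflTransGen.tail ((hA.2 p0 hp0A).mono (Set.subset_insert _ _))
      ⟨hpu, Set.mem_insert _ _⟩
  obtain ⟨p, q, hp, hpq, hqB, _⟩ := cross (B := {u}) (by simpa using hxu) (by simp) hreach
  have hq : q = u := by simpa using hqB
  subst hq
  have hp' : Reach G (A \ {q}) x p := by
    refine hp.mono ?_
    intro a ha
    rcases ha with ⟨ha | ha, ha'⟩
    · exact absurd ha ha'
    · exact ⟨ha, ha'⟩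
  have hxA : x ∈ A \ {q} := ⟨hA.1, by simpa using hxu⟩
  set S' : Finset V := (T ∪ S).filter (fun v => Reach G (A \ {q}) x v) with hS'
  have hS'set : (S' : Set V) = compIn G (A \ {q}) x := by
    ext v
    simp only [hS', Finset.coe_filter, Set.mem_ofPred_eq, compIn, Finset.mem_union]
    constructor
    · exact fun h => h.2
    · intro h
      refine ⟨?_, h⟩
      have := (Reach.mem h hxA).1
      rcases this with h' | h'
      · exact Or.inr (by simpa using h')
      · exact Or.inl (by simpa using h')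
  have hS'mem : ∀ v, v ∈ S' ↔ v ∈ compIn G (A \ {q}) x := by
    intro v
    rw [← hS'set]; simp
  refine ⟨T, S', hT4, Finset.filter_subset _ _, ?_, ?_, ?_, p, ?_, hpq⟩
  · rw [hS'set]; exact connFrom_compIn
  · refine Finset.disjoint_of_subset_left (Finset.filter_subset _ _) ?_
    rw [Finset.disjoint_union_left]
    exact ⟨hT3, hd⟩
  · rw [hS'mem]
    intro h
    have := (compIn_subset hxA h).2
    simp at this
  · rw [hS'mem]; exact hp'

theorem no_stuck {G : SimpleGraph V} {Q : ℕ → ℝ} {P : Finset V} {z : V → ℝ} {C : ℝ} (hC : 1 ≤ C)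
    (hQpos : ∀ j, 0 < Q j) (hQC : ∀ j, 4 * Q (j + 2) + 1 ≤ C * Q j)
    (hminor : ∀ j, ∃ t : ℕ, 2 * C ^ 2 ≤ t ∧
      5001 * C ^ 4 * (t : ℝ) ^ 7 * ((2 ^ j : ℕ) : ℝ) ^ 3 ≤ Q j ∧
      ∀ H : SimpleGraph (Fin t), IsDepthMinor (2 ^ j) H G →
        (H.edgeSet.ncard : ℝ) < (t : ℝ) ^ 2 / (8 * C ^ 2))
    (hz : Adm G Q P z) {ι : Type*} [Fintype ι] (jj : ι → ℕ) (y : ι → V) (D : ι → Finset V)
    (S : ι → V → Finset V) (hvalid : ∀ i, Valid G P (2 ^ jj i) (y i) (D i) (S i))
    (hact : ∀ i, Q (jj i) ≤ Phi (2 ^ jj i) z (D i) (S i)) (nu : ι → ℝ) (hnu : ∀ i, 0 ≤ nu i)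
    (hnu1 : 0 < ∑ i, nu i)
    (hcoef : ∀ v, v ∉ P → 0 ≤ ∑ i, nu i * coef (2 ^ jj i) z (D i) (S i) v) : False := by
  classical
  have hz0 : ∀ v, 0 ≤ z v := fun v => (hz.1 v).1
  have hz1 : ∀ v, z v ≤ 1 := fun v => (hz.1 v).2
  have hC0 : 0 < C := by linarith
  -- the masses
  set N : ℕ → V → ℝ := fun j x =>
    ∑ i ∈ univ.filter (fun i => jj i = j ∧ Near G P (2 ^ j) (y i) x), nu i with hN
  have hN0 : ∀ j x, 0 ≤ N j x := fun j x => Finset.sum_nonneg fun i _ => hnu i
  set J : ℕ := (univ.sup jj) + 1 with hJ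
  have hJ' : ∀ i, jj i < J := fun i =>
    Nat.lt_succ_of_le (Finset.le_sup (f := jj) (Finset.mem_univ i))
  -- near-ness from gain
  have hnear : ∀ i v, v ∉ P → v ∈ D i → Near G P (2 ^ jj i) (y i) v := by
    intro i v hv hvD
    obtain ⟨⟨hc, hd, hu, x, hx, hxv⟩, hcard⟩ := hvalid i v hvD
    refine ⟨insert v (S i v), ?_, Finset.mem_insert_self _ _, ?_, ?_⟩
    · rw [Finset.coe_insert]; exact hc.insert (by simpa using hx) hxv
    · rw [Finset.disjoint_insert_left]; exact ⟨hv, hd⟩
    · rw [Finset.card_insert_of_notMem hu]; omega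
  -- loads
  have hload : ∀ v, v ∉ P →
      ∑ i, nu i * (hit z D S i v / 2 ^ jj i) ≤ ∑ j ∈ range J, N j v := by
    intro v hv
    have h1 := hcoef v hv
    have h2 : ∑ i, nu i * coef (2 ^ jj i) z (D i) (S i) v =
        ∑ i, nu i * (if v ∈ D i then 1 - cost z (S i v) / 2 ^ jj i else 0) -
        ∑ i, nu i * (hit z D S i v / 2 ^ jj i) := by
      rw [← Finset.sum_sub_distrib]
      refine Finset.sum_congr rfl fun i _ => ?_
      unfold coef hit
      ring
    have h3 : ∑ i, nu i * (if v ∈ D i then 1 - cost z (S i v) / 2 ^ jj i else 0) ≤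
        ∑ i, (if Near G P (2 ^ jj i) (y i) v then nu i else 0) := by
      refine Finset.sum_le_sum fun i _ => ?_
      by_cases hvD : v ∈ D i
      · rw [if_pos hvD, if_pos (hnear i v hv hvD)]
        have h4 : 0 ≤ cost z (S i v) / 2 ^ jj i := div_nonneg (cost_nonneg hz0 _) (by positivity)
        nlinarith [hnu i, mul_nonneg (hnu i) h4]
      · rw [if_neg hvD, mul_zero]
        split_ifs
        · exact hnu i
        · exact le_rfl
    have h4 : ∑ i, (if Near G P (2 ^ jj i) (y i) v then nu i else 0) = ∑ j ∈ range J, N j v := by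
      have h5 : ∀ i, (if Near G P (2 ^ jj i) (y i) v then nu i else 0) =
          ∑ j ∈ range J, (if jj i = j ∧ Near G P (2 ^ j) (y i) v then nu i else 0) := by
        intro i
        rw [Finset.sum_eq_single (jj i)]
        · simp
        · intro j _ hj
          rw [if_neg]
          rintro ⟨h, _⟩
          exact hj h.symm
        · intro h
          exact absurd (Finset.mem_range.mpr (hJ' i)) h
      rw [Finset.sum_congr rfl fun i _ => h5 i, Finset.sum_comm]
      refine Finset.sum_congr rfl fun j _ => ?_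
      simp only [hN]
      rw [Finset.sum_filter]
    linarith
  -- the maximiser
  have hex : ∃ i, 0 < nu i := by
    by_contra hcon
    push Not at hcon
    have : ∑ i, nu i ≤ 0 := Finset.sum_nonpos fun i _ => hcon i
    linarith
  obtain ⟨i0, hi0⟩ := hex
  obtain ⟨⟨j0, x0⟩, hmem, hmax⟩ := Finset.exists_max_image (range J ×ˢ (univ : Finset V))
    (fun p => 2 ^ p.1 * N p.1 p.2) ⟨(jj i0, y i0), by simp [hJ' i0]⟩
  simp only at hmax
  set Zm : ℝ := 2 ^ j0 * N j0 x0 with hZm
  have hZmax : ∀ j < J, ∀ x, 2 ^ j * N j x ≤ Zm := by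
    intro j hj x
    exact hmax (j, x) (by simp [hj])
  have hyP : ∀ i, y i ∉ P := by
    intro i
    have h1 : (D i).Nonempty := by
      rw [Finset.nonempty_iff_ne_empty]
      intro h
      have h2 := hact i
      rw [h] at h2
      unfold Phi at h2
      simp only [sum_empty] at h2
      have := hQpos (jj i)
      linarith
    obtain ⟨u, hu⟩ := h1
    obtain ⟨⟨hc, hd, _⟩, _⟩ := hvalid i u hu
    exact Finset.disjoint_left.mp hd (by simpa using hc.1)
  have hZpos : 0 < Zm := by
    have h1 := hZmax (jj i0) (hJ' i0) (y i0)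
    have h2 : nu i0 ≤ N (jj i0) (y i0) := by
      simp only [hN]
      refine Finset.single_le_sum (f := nu) (fun i _ => hnu i) ?_
      simp only [mem_filter, mem_univ, true_and]
      refine ⟨{y i0}, ⟨by simp, ?_⟩, by simp, by simpa using hyP i0, by simp [Nat.one_le_two_pow]⟩
      intro x hx
      simp only [coe_singleton, Set.mem_singleton_iff] at hx
      subst hx
      exact Relation.ReflTransGen.refl
    have h3 : (0 : ℝ) < 2 ^ jj i0 := by positivity
    have h4 : 0 < 2 ^ jj i0 * N (jj i0) (y i0) := mul_pos h3 (lt_of_lt_of_le hi0 h2)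
    linarith
  have hR0 : (0 : ℝ) < 2 ^ j0 := by positivity
  have hNpos : 0 < N j0 x0 := by
    rw [hZm] at hZpos
    exact (mul_pos_iff_of_pos_left hR0).mp hZpos
  have hsumN : ∀ v, ∑ j ∈ range J, N j v ≤ 2 * Zm := by
    intro v
    have h1 : ∑ j ∈ range J, N j v ≤ ∑ j ∈ range J, Zm * (1 / 2) ^ j := by
      refine Finset.sum_le_sum fun j hj => ?_
      have h2 := hZmax j (Finset.mem_range.mp hj) v
      have h3 : (0 : ℝ) < 2 ^ j := by positivity
      rw [one_div, inv_pow, ← div_eq_mul_inv, le_div_iff₀ h3]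
      linarith
    rw [← Finset.mul_sum] at h1
    have h2 := sum_geometric_two_le J
    have h3 := mul_le_mul_of_nonneg_left h2 hZpos.le
    linarith
  -- the local sources
  set I : Finset ι := univ.filter (fun i => jj i = j0 ∧ Near G P (2 ^ j0) (y i) x0) with hI
  have hIj : ∀ i ∈ I, jj i = j0 := by
    intro i hi
    simp only [hI, mem_filter, mem_univ, true_and] at hi
    exact hi.1
  have hInear : ∀ i ∈ I, Near G P (2 ^ j0) (y i) x0 := by
    intro i hi
    simp only [hI, mem_filter, mem_univ, true_and] at hi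
    exact hi.2
  have hNI : N j0 x0 = ∑ i ∈ I, nu i := rfl
  set lam : ι → ℝ := fun i => nu i / N j0 x0 with hlam
  have hlam0 : ∀ i ∈ I, 0 ≤ lam i := fun i _ => div_nonneg (hnu i) hNpos.le
  have hlam1 : ∑ i ∈ I, lam i = 1 := by
    simp only [hlam]
    rw [← Finset.sum_div, ← hNI, div_self hNpos.ne']
  set D' : ι → Finset V := fun i => (D i).filter (fun u => cost z (S i u) < 2 ^ j0) with hD'
  have hD'mass : ∀ i ∈ I, Q j0 ≤ ∑ u ∈ D' i, z u := by
    intro i hi
    have h1 := hact i
    rw [hIj i hi] at h1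
    refine h1.trans ?_
    unfold Phi
    simp only [hD']
    rw [Finset.sum_filter]
    refine Finset.sum_le_sum fun u _ => ?_
    split_ifs with h2
    · have h3 : 0 ≤ cost z (S i u) / 2 ^ j0 := div_nonneg (cost_nonneg hz0 _) hR0.le
      nlinarith [hz0 u, mul_nonneg (hz0 u) h3]
    · push Not at h2
      have h3 : 1 ≤ cost z (S i u) / 2 ^ j0 := (one_le_div hR0).mpr h2
      nlinarith [hz0 u, mul_nonneg (hz0 u) (sub_nonneg.mpr h3)]
  have hInonempty : I.Nonempty := by
    rw [Finset.nonempty_iff_ne_empty]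
    intro h
    rw [h] at hlam1
    simp at hlam1
  set U : Finset V := I.biUnion D' with hU
  set M : ℝ := ∑ u ∈ U, z u with hM
  have hMQ : Q j0 ≤ M := by
    obtain ⟨i, hi⟩ := hInonempty
    refine (hD'mass i hi).trans ?_
    exact Finset.sum_le_sum_of_subset_of_nonneg (Finset.subset_biUnion_of_mem D' hi)
      fun u _ _ => hz0 u
  have hMpos : 0 < M := lt_of_lt_of_le (hQpos j0) hMQ
  -- the universe is bounded
  have hMC : M ≤ C * Q j0 := by
    have hex : ∀ u, ∃ S' : Finset V, u ∈ U.erase x0 →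
        IsConn G P x0 u S' ∧ S'.card < 2 ^ (j0 + 2) ∧ cost z S' ≤ 3 * 2 ^ j0 := by
      intro u
      by_cases hu : u ∈ U.erase x0
      · rw [Finset.mem_erase] at hu
        obtain ⟨hne, huU⟩ := hu
        simp only [hU, Finset.mem_biUnion] at huU
        obtain ⟨i, hi, hui⟩ := huU
        simp only [hD', Finset.mem_filter] at hui
        have hv := hvalid i u hui.1
        rw [hIj i hi] at hv
        obtain ⟨T, S', hT, hsub, hconn⟩ := reroute (hInear i hi) hv.1 (Ne.symm hne)
        refine ⟨S', fun _ => ⟨hconn, ?_, ?_⟩⟩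
        · have h1 := Finset.card_le_card hsub
          have h2 := Finset.card_union_le T (S i u)
          have h3 := hv.2
          have h4 : 2 ^ (j0 + 2) = 4 * 2 ^ j0 := by ring
          have h5 : 0 < 2 ^ j0 := by positivity
          omega
        · have h1 := cost_mono hz0 hsub
          have h2 := cost_union_le hz0 T (S i u)
          have h3 := cost_le hz1 T
          have h4 : (T.card : ℝ) ≤ 2 ^ j0 := by exact_mod_cast hT
          have h5 := hui.2
          linarith
      · exact ⟨∅, fun h => absurd h hu⟩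
    choose S' hS' using hex
    have hval : Valid G P (2 ^ (j0 + 2)) x0 (U.erase x0) S' := fun u hu =>
      ⟨(hS' u hu).1, (hS' u hu).2.1⟩
    have h1 := hz.2.2 (j0 + 2) x0 (U.erase x0) S' hval
    have h2 : ∑ u ∈ U.erase x0, z u * (1 / 4) ≤ Phi (2 ^ (j0 + 2)) z (U.erase x0) S' := by
      unfold Phi
      refine Finset.sum_le_sum fun u hu => mul_le_mul_of_nonneg_left ?_ (hz0 u)
      have h3 := (hS' u hu).2.2
      have h4 : cost z (S' u) / 2 ^ (j0 + 2) ≤ 3 / 4 := by
        rw [div_le_iff₀ (by positivity)]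
        have : (2 : ℝ) ^ (j0 + 2) = 4 * 2 ^ j0 := by ring
        rw [this]
        linarith
      linarith
    rw [← Finset.sum_mul] at h2
    have h3 : M ≤ ∑ u ∈ U.erase x0, z u + 1 := by
      by_cases hx : x0 ∈ U
      · rw [hM, ← Finset.sum_erase_add U _ hx]
        have := hz1 x0
        linarith
      · rw [hM, Finset.erase_eq_of_notMem hx]
        linarith
    have h4 := hQC j0
    linarith
  set mu : V → ℝ := fun v => if v ∈ U then z v / M else 0 with hmu
  have hmu0 : ∀ v, 0 ≤ mu v := by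
    intro v
    simp only [hmu]
    split_ifs
    · exact div_nonneg (hz0 v) hMpos.le
    · exact le_rfl
  have hmu1 : ∑ v, mu v ≤ 1 := by
    simp only [hmu]
    rw [Finset.sum_ite_mem, Finset.univ_inter, ← Finset.sum_div, ← hM, div_self hMpos.ne']
  obtain ⟨t, ht1, ht2, ht3⟩ := hminor j0
  have hmuU : ∀ i ∈ I, ∀ u ∈ D' i, mu u = z u / M := by
    intro i hi u hu
    simp only [hmu]
    rw [if_pos]
    exact Finset.mem_biUnion.mpr ⟨i, hi, hu⟩
  obtain ⟨H, hH1, hH2⟩ := dense_minor (G := G) I lam hlam0 hlam1 y D' S hmu0 hmu1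
    (R := 2 ^ j0) Nat.one_le_two_pow (C := C) (Q := Q j0) hC (by
      intro i hi u hu
      simp only [hD', Finset.mem_filter] at hu
      have hv := hvalid i u hu.1
      rw [hIj i hi] at hv
      exact ⟨hv.1.1, hv.1.2.2.1, hv.1.2.2.2, hv.2⟩) (by
      intro v
      simp only [hmu]
      split_ifs
      · exact div_le_div₀ zero_le_one (hz1 v) (hQpos j0) hMQ
      · have := hQpos j0
        positivity) (by
      intro i hi
      rw [Finset.sum_congr rfl (hmuU i hi), ← Finset.sum_div, div_le_div_iff₀ hC0 hMpos, one_mul]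
      have h1 := hD'mass i hi
      have h2 := mul_le_mul_of_nonneg_left h1 hC0.le
      linarith) (by
      intro v
      have h1 : ∀ i ∈ I, hit mu D' S i v ≤ hit z D S i v / M := by
        intro i hi
        unfold hit
        rw [Finset.sum_div]
        have h2 : ∑ u ∈ (D' i).filter (fun u => v ∈ S i u), mu u =
            ∑ u ∈ (D' i).filter (fun u => v ∈ S i u), z u / M :=
          Finset.sum_congr rfl fun u hu => hmuU i hi u (Finset.mem_filter.mp hu).1
        rw [h2]
        refine Finset.sum_le_sum_of_subset_of_nonneg ?_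
          fun u _ _ => div_nonneg (hz0 u) hMpos.le
        exact Finset.filter_subset_filter _ (Finset.filter_subset _ _)
      have hcast : ((2 ^ j0 : ℕ) : ℝ) = 2 ^ j0 := by push_cast; rfl
      rw [hcast]
      by_cases hv : v ∈ P
      · have h3 : ∀ i ∈ I, lam i * hit mu D' S i v = 0 := by
          intro i hi
          have h4 : hit mu D' S i v = 0 := by
            unfold hit
            rw [Finset.filter_false_of_mem, Finset.sum_empty]
            intro u hu hvu
            simp only [hD', Finset.mem_filter] at hu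
            exact Finset.disjoint_left.mp (hvalid i u hu.1).1.2.1 hvu hv
          rw [h4, mul_zero]
        rw [Finset.sum_eq_zero h3]
        have := hQpos j0
        positivity
      · have h2 := hload v hv
        have h3 := hsumN v
        have h4 : ∑ i ∈ I, nu i * (hit z D S i v / 2 ^ j0) ≤ 2 * Zm := by
          refine le_trans ?_ (h2.trans h3)
          have h5 : ∑ i ∈ I, nu i * (hit z D S i v / 2 ^ j0) =
              ∑ i ∈ I, nu i * (hit z D S i v / 2 ^ jj i) :=
            Finset.sum_congr rfl fun i hi => by rw [hIj i hi]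
          rw [h5]
          refine Finset.sum_le_sum_of_subset_of_nonneg (Finset.subset_univ _) fun i _ _ => ?_
          exact mul_nonneg (hnu i) (div_nonneg (hit_nonneg hz0 i v) (by positivity))
        have h6 : ∑ i ∈ I, lam i * hit mu D' S i v ≤
            ∑ i ∈ I, lam i * (hit z D S i v / M) :=
          Finset.sum_le_sum fun i hi => mul_le_mul_of_nonneg_left (h1 i hi) (hlam0 i hi)
        have h7 : ∑ i ∈ I, lam i * (hit z D S i v / M) =
            (∑ i ∈ I, nu i * (hit z D S i v / 2 ^ j0)) * (2 ^ j0 / (N j0 x0 * M)) := by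
          rw [Finset.sum_mul]
          refine Finset.sum_congr rfl fun i _ => ?_
          simp only [hlam]
          field_simp
        have h8 : (∑ i ∈ I, nu i * (hit z D S i v / 2 ^ j0)) * (2 ^ j0 / (N j0 x0 * M)) ≤
            2 * Zm * (2 ^ j0 / (N j0 x0 * M)) :=
          mul_le_mul_of_nonneg_right h4 (by positivity)
        have h9 : 2 * Zm * (2 ^ j0 / (N j0 x0 * M)) = 2 * (2 ^ j0) ^ 2 / M := by
          rw [hZm]
          field_simp
        have h10 : 2 * ((2 : ℝ) ^ j0) ^ 2 / M ≤ 2 * (2 ^ j0) ^ 2 / Q j0 :=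
          div_le_div_of_nonneg_left (by positivity) (hQpos j0) hMQ
        linarith) ht1 ht2
  exact absurd (ht3 H hH1) (not_lt.mpr hH2)

end Pool.Agent.H67.PC
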