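import Mathlib
import Pool.Agent.H67.PC.Stuck

/-! Extending good sets one vertex at a time gives an order with few reachable vertices. -/

namespace Pool.Agent.H67.PC

open Finset

variable {V : Type*} [Fintype V] [DecidableEq V]

lemma Adm.insert {G : SimpleGraph V} {Q : ℕ → ℝ} {P : Finset V} {z : V → ℝ} (h : Adm G Q P z)
    {v : V} (hv : z v = 1) : Adm G Q (insert v P) z := by
  refine ⟨h.1, ?_, ?_⟩
  · intro w hw
    rcases Finset.mem_insert.mp hw with h' | h'
    · subst h'; exact hv
    · exact h.2.1 w h'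
  · intro j y D S hval
    refine h.2.2 j y D S fun u hu => ?_
    obtain ⟨⟨h1, h2, h3⟩, h4⟩ := hval u hu
    exact ⟨⟨h1, Finset.disjoint_of_subset_right (Finset.subset_insert _ _) h2, h3⟩, h4⟩

open Filter Topology in
theorem good_extend {G : SimpleGraph V} {Q : ℕ → ℝ} {P : Finset V} {C : ℝ} (hC : 1 ≤ C)
    (hQpos : ∀ j, 0 < Q j) (hQC : ∀ j, 4 * Q (j + 2) + 1 ≤ C * Q j)
    (hQbig : ∃ J : ℕ, ∀ j, J ≤ j → (Fintype.card V : ℝ) ≤ Q j)
    (hminor : ∀ j, ∃ t : ℕ, 2 * C ^ 2 ≤ t ∧
      5001 * C ^ 4 * (t : ℝ) ^ 7 * ((2 ^ j : ℕ) : ℝ) ^ 3 ≤ Q j ∧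
      ∀ H : SimpleGraph (Fin t), IsDepthMinor (2 ^ j) H G →
        (H.edgeSet.ncard : ℝ) < (t : ℝ) ^ 2 / (8 * C ^ 2))
    (hgood : Good G Q P) (hP : P ≠ univ) : ∃ v, v ∉ P ∧ Good G Q (insert v P) := by
  classical
  by_contra hcon
  push Not at hcon
  obtain ⟨z, hz, hmax⟩ := exists_max hgood
  have hlt : ∀ v, v ∉ P → z v < 1 := by
    intro v hv
    rcases lt_or_eq_of_le (hz.1 v).2 with h | h
    · exact h
    · exact absurd ⟨z, hz.insert h⟩ (hcon v hv)
  obtain ⟨J, hJ⟩ := hQbig
  let ι := {c : V × Fin J × Finset V × (V → Finset V) //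
    Valid G P (2 ^ (c.2.1 : ℕ)) c.1 c.2.2.1 c.2.2.2 ∧
      Q c.2.1 ≤ Phi (2 ^ (c.2.1 : ℕ)) z c.2.2.1 c.2.2.2}
  let cf : ι → V → ℝ := fun i v => coef (2 ^ (i.1.2.1 : ℕ)) z i.1.2.2.1 i.1.2.2.2 v
  have key : ∀ ζ : {v // v ∉ P} → ℝ, (∀ v, 0 ≤ ζ v) →
      ∃ i : ι, 0 ≤ ∑ v : {v // v ∉ P}, cf i v * ζ v := by
    intro ζ hζ
    by_contra hneg
    push Not at hneg
    obtain ⟨ξ, hξ0, hξP, hξpos, hξneg⟩ : ∃ ξ : V → ℝ, (∀ v, 0 ≤ ξ v) ∧ (∀ v ∈ P, ξ v = 0) ∧
        0 < ∑ v, ξ v ∧ ∀ i : ι, ∑ v, cf i v * ξ v < 0 := by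
      rcases isEmpty_or_nonempty ι with hemp | hne
      · refine ⟨fun v => if v ∈ P then 0 else 1, ?_, ?_, ?_, fun i => (hemp.false i).elim⟩
        · intro v; dsimp only; split_ifs <;> norm_num
        · intro v hv; simp [hv]
        · have hex : ∃ v, v ∉ P := by
            by_contra h
            push Not at h
            exact hP (Finset.eq_univ_iff_forall.mpr h)
          obtain ⟨v, hv⟩ := hex
          refine Finset.sum_pos' ?_ ⟨v, Finset.mem_univ _, by simp [hv]⟩
          intro w _; split_ifs <;> norm_num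
      · set ξ : V → ℝ := fun v => if h : v ∉ P then ζ ⟨v, h⟩ else 0 with hξ
        have h0 : ∀ v, 0 ≤ ξ v := by
          intro v
          simp only [hξ]
          split_ifs
          · exact le_rfl
          · exact hζ _
        have hsum : ∀ i : ι, ∑ v, cf i v * ξ v = ∑ v : {v // v ∉ P}, cf i v * ζ v := by
          intro i
          have h1 : ∑ v, cf i v * ξ v = ∑ v ∈ univ.filter (fun v => v ∉ P), cf i v * ξ v := by
            rw [Finset.sum_filter]
            refine Finset.sum_congr rfl fun v _ => ?_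
            by_cases h : v ∈ P
            · simp [hξ, h]
            · simp [h]
          rw [h1, ← Finset.sum_subtype_of_mem (p := fun v => v ∉ P)]
          · have : (univ.filter (fun v => v ∉ P)).subtype (fun v => v ∉ P) = univ := by
              ext v
              simp [v.2]
            rw [this]
            refine Finset.sum_congr rfl fun v _ => ?_
            simp only [hξ, dif_pos v.2]
          · intro v hv
            exact (Finset.mem_filter.mp hv).2
        refine ⟨ξ, h0, ?_, ?_, ?_⟩
        · intro v hv; simp [hξ, hv]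
        · obtain ⟨i⟩ := hne
          by_contra hle
          have h1 : ∑ v, ξ v = 0 :=
            le_antisymm (not_lt.mp hle) (Finset.sum_nonneg fun v _ => h0 v)
          have h2 : ∀ v, ξ v = 0 := by
            intro v
            exact (Finset.sum_eq_zero_iff_of_nonneg fun v _ => h0 v).mp h1 v (Finset.mem_univ v)
          have h3 := hneg i
          rw [← hsum i] at h3
          simp [h2] at h3
        · intro i
          rw [hsum i]
          exact hneg i
    have evA : ∀ᶠ ε in 𝓝[>] (0 : ℝ), ∀ v, z v + ε * ξ v ≤ 1 := by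
      rw [eventually_all]
      intro v
      by_cases hv : v ∈ P
      · refine Eventually.of_forall fun ε => ?_
        rw [hξP v hv, mul_zero, add_zero]
        exact (hz.1 v).2
      · have hcont : Continuous fun ε : ℝ => z v + ε * ξ v := by fun_prop
        have h1 : Tendsto (fun ε : ℝ => z v + ε * ξ v) (𝓝[>] 0) (𝓝 (z v + 0 * ξ v)) :=
          (hcont.tendsto 0).mono_left nhdsWithin_le_nhds
        have h2 : z v + 0 * ξ v < 1 := by simpa using hlt v hv
        exact (h1.eventually_lt_const h2).mono fun ε h => h.le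
    have evB : ∀ᶠ ε in 𝓝[>] (0 : ℝ), ∀ c : V × Fin J × Finset V × (V → Finset V),
        Valid G P (2 ^ (c.2.1 : ℕ)) c.1 c.2.2.1 c.2.2.2 →
        Phi (2 ^ (c.2.1 : ℕ)) z c.2.2.1 c.2.2.2 +
          ε * ∑ v, coef (2 ^ (c.2.1 : ℕ)) z c.2.2.1 c.2.2.2 v * ξ v ≤ Q c.2.1 := by
      rw [eventually_all]
      intro c
      by_cases hval : Valid G P (2 ^ (c.2.1 : ℕ)) c.1 c.2.2.1 c.2.2.2
      · by_cases hq : Q c.2.1 ≤ Phi (2 ^ (c.2.1 : ℕ)) z c.2.2.1 c.2.2.2
        · have h1 := hξneg ⟨c, hval, hq⟩
          simp only [cf] at h1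
          have h2 := hz.2.2 _ _ _ _ hval
          filter_upwards [self_mem_nhdsWithin] with ε hε _
          have hε' : (0 : ℝ) < ε := hε
          have h3 := mul_neg_of_pos_of_neg hε' h1
          linarith
        · push Not at hq
          set s := ∑ v, coef (2 ^ (c.2.1 : ℕ)) z c.2.2.1 c.2.2.2 v * ξ v with hs
          have hcont : Continuous fun ε : ℝ =>
            Phi (2 ^ (c.2.1 : ℕ)) z c.2.2.1 c.2.2.2 + ε * s := by fun_prop
          have h1 : Tendsto (fun ε : ℝ => Phi (2 ^ (c.2.1 : ℕ)) z c.2.2.1 c.2.2.2 + ε * s) (𝓝[>] 0)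
              (𝓝 (Phi (2 ^ (c.2.1 : ℕ)) z c.2.2.1 c.2.2.2 + 0 * s)) :=
            (hcont.tendsto 0).mono_left nhdsWithin_le_nhds
          have h2 : Phi (2 ^ (c.2.1 : ℕ)) z c.2.2.1 c.2.2.2 + 0 * s < Q c.2.1 := by simpa using hq
          exact (h1.eventually_lt_const h2).mono fun ε h _ => h.le
      · exact Eventually.of_forall fun ε h => absurd h hval
    obtain ⟨ε, ⟨hA, hB⟩, hε⟩ := ((evA.and evB).and self_mem_nhdsWithin).exists
    have hε' : (0 : ℝ) < ε := hε
    have hadm : Adm G Q P (fun v => z v + ε * ξ v) := by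
      have h01 : ∀ v, 0 ≤ z v + ε * ξ v ∧ z v + ε * ξ v ≤ 1 := fun v =>
        ⟨add_nonneg (hz.1 v).1 (mul_nonneg hε'.le (hξ0 v)), hA v⟩
      refine ⟨h01, ?_, ?_⟩
      · intro v hv
        show z v + ε * ξ v = 1
        rw [hξP v hv, mul_zero, add_zero]
        exact hz.2.1 v hv
      · intro j y D S hval
        by_cases hj : j < J
        · have h1 := hB (y, ⟨j, hj⟩, D, S) hval
          simp only at h1
          exact (perturb (by positivity) hξ0 D S).trans h1
        · exact (Phi_le_card (by positivity) h01 D S).trans (hJ j (not_lt.mp hj))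
    have h1 := hmax _ hadm
    rw [Finset.sum_add_distrib, ← Finset.mul_sum] at h1
    have h2 := mul_pos hε' hξpos
    linarith
  obtain ⟨nu, hnu0, hnu1, hnu2⟩ := ville (fun (i : ι) (v : {v // v ∉ P}) => cf i v) key
  exact no_stuck hC hQpos hQC hminor hz (fun i : ι => (i.1.2.1 : ℕ)) (fun i => i.1.1)
    (fun i => i.1.2.2.1) (fun i => i.1.2.2.2) (fun i => i.2.1) (fun i => i.2.2) nu hnu0 hnu1
    (fun v hv => hnu2 ⟨v, hv⟩)

/-- In a good situation few placed vertices are reachable. -/
lemma good_reach {G : SimpleGraph V} {Q : ℕ → ℝ} {P : Finset V} (h : Good G Q P) {y : V}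
    (hy : y ∉ P) {j r : ℕ} (hr : 4 * r ≤ 2 ^ j) :
    (({v | v ∈ P ∧ ∃ w : G.Walk y v, w.length ≤ r ∧ ∀ x ∈ w.support, x ≠ v → x ∉ P} :
      Set V).ncard : ℝ) ≤ 2 * Q j := by
  classical
  obtain ⟨z, hz⟩ := h
  set X : Set V := {v | v ∈ P ∧ ∃ w : G.Walk y v, w.length ≤ r ∧ ∀ x ∈ w.support, x ≠ v → x ∉ P}
    with hX
  set D : Finset V := univ.filter (fun v => v ∈ X) with hD
  have hXD : X = (D : Set V) := by ext v; simp [hD]
  rw [hXD, Set.ncard_coe_finset]
  have hr' : r < 2 ^ j := by
    rcases Nat.eq_zero_or_pos r with h | h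
    · rw [h]; positivity
    · omega
  have hex : ∀ v, ∃ S : Finset V, v ∈ D → IsConn G P y v S ∧ S.card ≤ r := by
    intro v
    by_cases hv : v ∈ D
    · have hvX : v ∈ X := by rw [hXD]; simpa using hv
      obtain ⟨hvP, w, hw1, hw2⟩ := hvX
      have hyv : y ≠ v := fun h => hy (h ▸ hvP)
      set A : Set V := {x | x ∈ w.support} with hA
      have hreach : Reach G A y v := reach_of_walk w (fun a ha => ha)
      obtain ⟨p, q, hp, hpq, hqB, _⟩ := cross (B := {v}) (by simpa using hyv) (by simp) hreach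
      have hq : q = v := by simpa using hqB
      subst hq
      have hyA : y ∈ A \ {q} := ⟨by simp [hA], by simpa using hyv⟩
      set S : Finset V := (w.support.toFinset.erase q).filter (fun x => Reach G (A \ {q}) y x)
        with hS
      have hSmem : ∀ x, x ∈ S ↔ x ∈ compIn G (A \ {q}) y := by
        intro x
        simp only [hS, Finset.mem_filter, Finset.mem_erase, List.mem_toFinset, compIn,
          Set.mem_ofPred_eq]
        constructor
        · exact fun h => h.2
        · intro h
          have := Reach.mem h hyA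
          exact ⟨⟨by simpa using this.2, this.1⟩, h⟩
      have hSset : (S : Set V) = compIn G (A \ {q}) y := by
        ext x
        rw [← hSmem]
        simp
      refine ⟨S, fun _ => ⟨⟨?_, ?_, ?_, p, ?_, hpq⟩, ?_⟩⟩
      · rw [hSset]; exact connFrom_compIn
      · rw [Finset.disjoint_left]
        intro x hx
        simp only [hS, Finset.mem_filter, Finset.mem_erase, List.mem_toFinset] at hx
        exact hw2 x hx.1.2 hx.1.1
      · intro hqS
        simp [hS] at hqS
      · rw [hSmem]; exact hp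
      · refine (Finset.card_filter_le _ _).trans ?_
        rw [Finset.card_erase_of_mem (by simp)]
        have := List.toFinset_card_le w.support
        rw [SimpleGraph.Walk.length_support] at this
        omega
    · exact ⟨∅, fun h => absurd h hv⟩
  choose S hS using hex
  have hval : Valid G P (2 ^ j) y D S := fun u hu => ⟨(hS u hu).1, by
    have := (hS u hu).2
    omega⟩
  have h1 := hz.2.2 j y D S hval
  have h2 : ∑ u ∈ D, (1 / 2 : ℝ) ≤ Phi (2 ^ j) z D S := by
    unfold Phi
    refine Finset.sum_le_sum fun u hu => ?_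
    have huP : u ∈ P := by
      have : u ∈ X := by rw [hXD]; simpa using hu
      exact this.1
    rw [hz.2.1 u huP, one_mul]
    have h3 := cost_le (fun v => (hz.1 v).2) (S u)
    have h4 : ((S u).card : ℝ) ≤ r := by exact_mod_cast (hS u hu).2
    have h5 : (4 : ℝ) * r ≤ 2 ^ j := by exact_mod_cast hr
    have h6 : cost z (S u) / 2 ^ j ≤ 1 / 2 := by
      rw [div_le_iff₀ (by positivity)]
      linarith
    linarith
  simp only [sum_const, nsmul_eq_mul] at h2
  linarith

/-- A chain of good sets. -/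
lemma exists_chain {Good' : Finset V → Prop} (h0 : Good' ∅)
    (hext : ∀ P, Good' P → P ≠ univ → ∃ v, v ∉ P ∧ Good' (insert v P)) :
    ∃ f : V → ℕ, Function.Injective f ∧ ∀ k, Good' (univ.filter (fun v => f v < k)) := by
  classical
  have main : ∀ k, k ≤ Fintype.card V → ∃ l : List V, l.length = k ∧ l.Nodup ∧
      ∀ i, i ≤ k → Good' (l.take i).toFinset := by
    intro k
    induction k with
    | zero =>
      intro _
      refine ⟨[], rfl, List.nodup_nil, ?_⟩
      intro i _
      simpa using h0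
    | succ k ih =>
      intro hk
      obtain ⟨l, hl1, hl2, hl3⟩ := ih (by omega)
      have hne : l.toFinset ≠ univ := by
        intro h
        have h1 := List.toFinset_card_of_nodup hl2
        rw [h, Finset.card_univ] at h1
        omega
      have hg : Good' l.toFinset := by
        have := hl3 k le_rfl
        rwa [List.take_of_length_le (by omega)] at this
      obtain ⟨v, hv, hgv⟩ := hext _ hg hne
      refine ⟨l ++ [v], by simp [hl1], ?_, ?_⟩
      · rw [List.nodup_append]
        refine ⟨hl2, List.nodup_singleton v, ?_⟩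
        intro a ha b hb
        simp only [List.mem_singleton] at hb
        subst hb
        intro hab
        subst hab
        exact hv (by simpa using ha)
      · intro i hi
        rcases Nat.lt_or_ge k i with h | h
        · have hik : i = k + 1 := by omega
          rw [List.take_of_length_le (by simp; omega)]
          have : (l ++ [v]).toFinset = insert v l.toFinset := by
            ext a
            simp
          rw [this]
          exact hgv
        · rw [List.take_append_of_le_length (by omega)]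
          exact hl3 i h
  obtain ⟨l, hl1, hl2, hl3⟩ := main _ le_rfl
  have hall : ∀ v, v ∈ l := by
    intro v
    have h1 : l.toFinset = univ := by
      apply Finset.eq_univ_of_card
      rw [List.toFinset_card_of_nodup hl2, hl1]
    have : v ∈ l.toFinset := by rw [h1]; exact Finset.mem_univ v
    simpa using this
  refine ⟨fun v => l.idxOf v, ?_, ?_⟩
  · intro a b hab
    exact (List.idxOf_inj (hall a)).mp hab
  · intro k
    have h1 : univ.filter (fun v => l.idxOf v < k) = (l.take k).toFinset := by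
      ext v
      simp only [Finset.mem_filter, Finset.mem_univ, true_and, List.mem_toFinset]
      rw [List.mem_take_iff_idxOf_lt (hall v)]
    rw [h1]
    rcases Nat.lt_or_ge l.length k with h | h
    · rw [List.take_of_length_le h.le]
      have := hl3 _ le_rfl
      rwa [List.take_of_length_le (by omega)] at this
    · exact hl3 k (by omega)

theorem exists_universal_order {G : SimpleGraph V} {Q : ℕ → ℝ} {C : ℝ} (hC : 1 ≤ C)
    (hQpos : ∀ j, 0 < Q j) (hQC : ∀ j, 4 * Q (j + 2) + 1 ≤ C * Q j)
    (hQbig : ∃ J : ℕ, ∀ j, J ≤ j → (Fintype.card V : ℝ) ≤ Q j)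
    (hminor : ∀ j, ∃ t : ℕ, 2 * C ^ 2 ≤ t ∧
      5001 * C ^ 4 * (t : ℝ) ^ 7 * ((2 ^ j : ℕ) : ℝ) ^ 3 ≤ Q j ∧
      ∀ H : SimpleGraph (Fin t), IsDepthMinor (2 ^ j) H G →
        (H.edgeSet.ncard : ℝ) < (t : ℝ) ^ 2 / (8 * C ^ 2)) :
    ∃ L : LinearOrder V, ∀ j r : ℕ, 4 * r ≤ 2 ^ j → ∀ u,
      ((SReach G L r u).ncard : ℝ) ≤ 1 + 2 * Q j := by
  classical
  obtain ⟨f, hf, hgood⟩ := exists_chain (good_empty (G := G) (fun j => (hQpos j).le))
    (fun P hP hne => good_extend hC hQpos hQC hQbig hminor hP hne)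
  refine ⟨LinearOrder.lift' f hf, ?_⟩
  intro j r hr u
  have h1 := good_reach (hgood (f u)) (y := u) (by simp) hr
  set X : Set V := {v | v ∈ univ.filter (fun v => f v < f u) ∧ ∃ w : G.Walk u v, w.length ≤ r ∧
    ∀ x ∈ w.support, x ≠ v → x ∉ univ.filter (fun v => f v < f u)} with hX
  have h2 : SReach G (LinearOrder.lift' f hf) r u ⊆ insert u X := by
    intro v hv
    obtain ⟨hle, w, _, hlen, hint⟩ := hv
    have hle' : f v ≤ f u := hle
    by_cases huv : v = u
    · exact Or.inl huv
    · refine Or.inr ⟨?_, w, hlen, ?_⟩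
      · simp only [Finset.mem_filter, Finset.mem_univ, true_and]
        exact lt_of_le_of_ne hle' (fun h => huv (hf h))
      · intro x hx hxv
        simp only [Finset.mem_filter, Finset.mem_univ, true_and, not_lt]
        by_cases hxu : x = u
        · rw [hxu]
        · have h3 : f u < f x := hint x hx hxu hxv
          exact h3.le
  have h3 : (SReach G (LinearOrder.lift' f hf) r u).ncard ≤ X.ncard + 1 := by
    refine (Set.ncard_le_ncard h2 (Set.toFinite _)).trans ?_
    exact Set.ncard_insert_le u X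
  have h4 : ((SReach G (LinearOrder.lift' f hf) r u).ncard : ℝ) ≤ X.ncard + 1 := by
    exact_mod_cast h3
  linarith

end Pool.Agent.H67.PC
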