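import Mathlib
import Pool.Agent.H67.PC.Order

/-! Polynomial expansion gives one order with polynomially many strongly reachable vertices. -/

namespace Pool.Agent.H67.PC

open Finset

lemma eval_le (p : Polynomial ℝ) {x : ℝ} (hx : 1 ≤ x) :
    p.eval x ≤ (1 + ∑ i ∈ range (p.natDegree + 1), |p.coeff i|) * x ^ p.natDegree := by
  rw [Polynomial.eval_eq_sum_range]
  have h1 : ∑ i ∈ range (p.natDegree + 1), p.coeff i * x ^ i ≤
      ∑ i ∈ range (p.natDegree + 1), |p.coeff i| * x ^ p.natDegree := by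
    refine Finset.sum_le_sum fun i hi => ?_
    have h2 : x ^ i ≤ x ^ p.natDegree :=
      pow_le_pow_right₀ hx (Nat.lt_succ_iff.mp (Finset.mem_range.mp hi))
    have h3 : 0 ≤ x ^ i := by positivity
    calc p.coeff i * x ^ i ≤ |p.coeff i| * x ^ i := mul_le_mul_of_nonneg_right (le_abs_self _) h3
      _ ≤ |p.coeff i| * x ^ p.natDegree := mul_le_mul_of_nonneg_left h2 (abs_nonneg _)
  rw [← Finset.sum_mul] at h1
  have h4 : 0 ≤ x ^ p.natDegree := by positivity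
  linarith

lemma pow_rearrange (x y z : ℝ) (b : ℕ) :
    x * y ^ 7 * z ^ (7 * b + 3) = x * (y * z ^ b) ^ 7 * z ^ 3 := by
  rw [pow_add, mul_pow, ← pow_mul, mul_comm b 7]
  ring

/-- The choice of the constants. -/
lemma params (β : ℝ) (hβ : 1 ≤ β) (b : ℕ) : ∃ Cc c0 : ℝ, 1 ≤ Cc ∧ 1 ≤ c0 ∧
    (∀ x : ℝ, 1 ≤ x → 4 * (c0 * (4 * x) ^ (7 * b + 3)) + 1 ≤ Cc * (c0 * x ^ (7 * b + 3))) ∧
    (∀ x : ℝ, 1 ≤ x → ∃ t : ℕ, 2 * Cc ^ 2 ≤ t ∧
      5001 * Cc ^ 4 * (t : ℝ) ^ 7 * x ^ 3 ≤ c0 * x ^ (7 * b + 3) ∧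
      β * x ^ b * (8 * Cc ^ 2) < t) := by
  obtain ⟨Cc, hCc⟩ : ∃ Cc : ℝ, Cc = 4 * 4 ^ (7 * b + 3) + 1 := ⟨_, rfl⟩
  have hCc1 : 1 ≤ Cc := by
    have : (0 : ℝ) ≤ 4 * 4 ^ (7 * b + 3) := by positivity
    rw [hCc]; linarith
  have hCc0 : 0 < Cc := by linarith
  obtain ⟨Y, hY⟩ : ∃ Y : ℝ, Y = 8 * Cc ^ 2 * β + 1 := ⟨_, rfl⟩
  have hY1 : 1 ≤ Y := by
    have : 0 ≤ 8 * Cc ^ 2 * β := by positivity
    rw [hY]; linarith
  refine ⟨Cc, 5001 * Cc ^ 4 * Y ^ 7, hCc1, ?_, ?_, ?_⟩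
  · have h1 : (1 : ℝ) ≤ Cc ^ 4 := one_le_pow₀ hCc1
    have h2 : (1 : ℝ) ≤ Y ^ 7 := one_le_pow₀ hY1
    have h3 : (1 : ℝ) ≤ Cc ^ 4 * Y ^ 7 := one_le_mul_of_one_le_of_one_le h1 h2
    rw [mul_assoc]
    linarith
  · intro x hx
    have h1 : (1 : ℝ) ≤ Cc ^ 4 * Y ^ 7 :=
      one_le_mul_of_one_le_of_one_le (one_le_pow₀ hCc1) (one_le_pow₀ hY1)
    have h2 : (1 : ℝ) ≤ x ^ (7 * b + 3) := one_le_pow₀ hx
    have h3 : (1 : ℝ) ≤ Cc ^ 4 * Y ^ 7 * x ^ (7 * b + 3) := one_le_mul_of_one_le_of_one_le h1 h2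
    obtain ⟨q, hq⟩ : ∃ q : ℝ, q = 5001 * Cc ^ 4 * Y ^ 7 * x ^ (7 * b + 3) := ⟨_, rfl⟩
    have h4 : 1 ≤ q := by
      have : q = 5001 * (Cc ^ 4 * Y ^ 7 * x ^ (7 * b + 3)) := by rw [hq]; ring
      rw [this]; linarith
    have h5 : 5001 * Cc ^ 4 * Y ^ 7 * (4 * x) ^ (7 * b + 3) = 4 ^ (7 * b + 3) * q := by
      rw [hq, mul_pow]; ring
    rw [h5, ← hq, hCc]
    have h6 : 4 * (4 ^ (7 * b + 3) * q) = 4 * 4 ^ (7 * b + 3) * q := by ring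
    rw [h6, add_mul, one_mul]
    linarith
  · intro x hx
    obtain ⟨s, hs⟩ : ∃ s : ℝ, s = β * x ^ b * (8 * Cc ^ 2) := ⟨_, rfl⟩
    have hxb : (1 : ℝ) ≤ x ^ b := one_le_pow₀ hx
    have hβx : 1 ≤ β * x ^ b := one_le_mul_of_one_le_of_one_le hβ hxb
    have hC2 : 0 < 8 * Cc ^ 2 := by positivity
    have hs1 : 8 * Cc ^ 2 ≤ s := by
      rw [hs]
      exact le_mul_of_one_le_left hC2.le hβx
    have hs0 : 0 ≤ s := by linarith
    have ht1 : s < (⌊s⌋₊ + 1 : ℕ) := by push_cast; exact Nat.lt_floor_add_one s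
    have ht2 : ((⌊s⌋₊ + 1 : ℕ) : ℝ) ≤ s + 1 := by
      push_cast
      have := Nat.floor_le hs0
      linarith
    refine ⟨⌊s⌋₊ + 1, ?_, ?_, ?_⟩
    · have : 0 < Cc ^ 2 := by positivity
      linarith
    · have h1 : ((⌊s⌋₊ + 1 : ℕ) : ℝ) ≤ Y * x ^ b := by
        refine ht2.trans ?_
        have h2 : s = 8 * Cc ^ 2 * β * x ^ b := by rw [hs]; ring
        rw [h2, hY, add_mul, one_mul]
        linarith
      have h2 : ((⌊s⌋₊ + 1 : ℕ) : ℝ) ^ 7 ≤ (Y * x ^ b) ^ 7 :=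
        pow_le_pow_left₀ (by positivity) h1 7
      rw [pow_rearrange (5001 * Cc ^ 4) Y x b]
      have h4 : (0 : ℝ) ≤ x ^ 3 := by positivity
      have h5 : (0 : ℝ) ≤ 5001 * Cc ^ 4 := by positivity
      exact mul_le_mul_of_nonneg_right (mul_le_mul_of_nonneg_left h2 h5) h4
    · rw [← hs]
      exact ht1

/-- Universal orders. -/
theorem universal_order_of_expansion (C : GraphClass) (hC : PolyExpansion C) :
    ∃ (a : ℕ) (K : ℝ), ∀ (n : ℕ) (G : SimpleGraph (Fin n)), G ∈ C n →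
      ∃ L : LinearOrder (Fin n), ∀ r : ℕ, 1 ≤ r → ∀ u,
        ((SReach G L r u).ncard : ℝ) ≤ K * (r : ℝ) ^ a := by
  obtain ⟨p, hp⟩ := hC
  obtain ⟨β, hβ⟩ : ∃ β : ℝ, β = 1 + ∑ i ∈ range (p.natDegree + 1), |p.coeff i| := ⟨_, rfl⟩
  have hβ1 : 1 ≤ β := by
    have : 0 ≤ ∑ i ∈ range (p.natDegree + 1), |p.coeff i| :=
      Finset.sum_nonneg fun i _ => abs_nonneg _
    rw [hβ]; linarith
  obtain ⟨b, hb⟩ : ∃ b : ℕ, b = p.natDegree := ⟨_, rfl⟩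
  obtain ⟨Cc, c0, hCc1, hc01, hQC, ht⟩ := params β hβ1 b
  obtain ⟨a, ha⟩ : ∃ a : ℕ, a = 7 * b + 3 := ⟨_, rfl⟩
  rw [← ha] at hQC ht
  have hCc0 : 0 < Cc := by linarith
  have h2j : ∀ j : ℕ, (1 : ℝ) ≤ 2 ^ j := fun j => one_le_pow₀ (by norm_num)
  refine ⟨a, 1 + 2 * (c0 * 8 ^ a), ?_⟩
  intro n G hG
  obtain ⟨L, hL⟩ := exists_universal_order (G := G) (Q := fun j => c0 * ((2 : ℝ) ^ j) ^ a) hCc1
    (by intro j; positivity)
    (by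
      intro j
      have h0 : (2 : ℝ) ^ (j + 2) = 4 * 2 ^ j := by rw [pow_add]; ring
      simp only [h0]
      exact hQC _ (h2j j))
    (by
      refine ⟨n, fun j hj => ?_⟩
      rw [Fintype.card_fin]
      have h1 : (n : ℝ) ≤ j := by exact_mod_cast hj
      have h2 : (j : ℝ) ≤ 2 ^ j := by exact_mod_cast Nat.lt_two_pow_self.le
      have h3 : (2 : ℝ) ^ j ≤ ((2 : ℝ) ^ j) ^ a := le_self_pow₀ (h2j j) (by omega)
      have h4 : ((2 : ℝ) ^ j) ^ a ≤ c0 * ((2 : ℝ) ^ j) ^ a :=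
        le_mul_of_one_le_left (by positivity) hc01
      linarith)
    (by
      intro j
      obtain ⟨t, ht1, ht2, ht3⟩ := ht (2 ^ j) (h2j j)
      have hcast : ((2 ^ j : ℕ) : ℝ) = 2 ^ j := by push_cast; rfl
      refine ⟨t, ht1, by rw [hcast]; exact ht2, ?_⟩
      intro H hH
      have h1 := hp (2 ^ j) n G hG _ H hH
      have h2 : p.eval ((2 ^ j : ℕ) : ℝ) ≤ β * (2 ^ j) ^ b := by
        rw [hcast, hβ, hb]
        exact eval_le p (h2j j)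
      have ht0 : (0 : ℝ) < t := by
        have : 0 < 2 * Cc ^ 2 := by positivity
        linarith
      have h3 : (H.edgeSet.ncard : ℝ) ≤ β * (2 ^ j) ^ b * t :=
        h1.trans (mul_le_mul_of_nonneg_right h2 ht0.le)
      refine lt_of_le_of_lt h3 ?_
      rw [lt_div_iff₀ (by positivity)]
      have h4 : β * (2 ^ j) ^ b * t * (8 * Cc ^ 2) = β * (2 ^ j) ^ b * (8 * Cc ^ 2) * t := by ring
      rw [h4, pow_two (t : ℝ)]
      exact mul_lt_mul_of_pos_right ht3 ht0)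
  refine ⟨L, fun r hr u => ?_⟩
  have hr0 : 4 * r ≠ 0 := by omega
  have h1 : 4 * r ≤ 2 ^ (Nat.log 2 (4 * r) + 1) := (Nat.lt_pow_succ_log_self (by norm_num) _).le
  have h2 : 2 ^ (Nat.log 2 (4 * r) + 1) ≤ 8 * r := by
    have := Nat.pow_log_le_self 2 hr0
    rw [pow_succ]
    omega
  have h3 := hL _ r h1 u
  refine h3.trans ?_
  have h4 : ((2 : ℝ) ^ (Nat.log 2 (4 * r) + 1)) ≤ 8 * r := by exact_mod_cast h2
  have h5 : ((2 : ℝ) ^ (Nat.log 2 (4 * r) + 1)) ^ a ≤ (8 * r) ^ a :=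
    pow_le_pow_left₀ (by positivity) h4 a
  have h6 : (1 : ℝ) ≤ (r : ℝ) ^ a := one_le_pow₀ (by exact_mod_cast hr)
  have h7 : c0 * ((2 : ℝ) ^ (Nat.log 2 (4 * r) + 1)) ^ a ≤ c0 * (8 * r) ^ a :=
    mul_le_mul_of_nonneg_left h5 (by linarith)
  have h8 : c0 * (8 * (r : ℝ)) ^ a = (c0 * 8 ^ a) * (r : ℝ) ^ a := by rw [mul_pow]; ring
  rw [h8] at h7
  rw [add_mul, one_mul, mul_assoc]
  linarith

lemma col_le_of_order {n : ℕ} {G : SimpleGraph (Fin n)} {L : LinearOrder (Fin n)} {r : ℕ} {x : ℝ}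
    (hx : 0 ≤ x) (h : ∀ u, ((SReach G L r u).ncard : ℝ) ≤ x) : (col G r : ℝ) ≤ x := by
  have h1 : col G r ≤ ⌊x⌋₊ := by
    apply Nat.sInf_le
    exact ⟨L, fun u => Nat.le_floor (h u)⟩
  have h2 : (⌊x⌋₊ : ℝ) ≤ x := Nat.floor_le hx
  have h3 : (col G r : ℝ) ≤ ⌊x⌋₊ := by exact_mod_cast h1
  linarith

theorem polyCol_of_expansion (C : GraphClass) (hC : PolyExpansion C) : PolyCol C := by
  obtain ⟨a, K, h⟩ := universal_order_of_expansion C hC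
  refine ⟨a, |K|, fun r hr n G hG => ?_⟩
  obtain ⟨L, hL⟩ := h n G hG
  rw [Real.rpow_natCast]
  refine col_le_of_order (by positivity) (L := L) fun u => ?_
  refine (hL r hr u).trans ?_
  exact mul_le_mul_of_nonneg_right (le_abs_self K) (by positivity)

end Pool.Agent.H67.PC
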